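import Mathlib
import Pool.Agent.Helper79.CF.Defs

/-!
The set of the factor complexity functions over a finite alphabet is analytic.
-/

namespace Pool.Agent.Helper79.CF

open Filter Topology MeasureTheory

open scoped Classical in
lemma ana_ncard {A : Type*} [Fintype A] (n : ℕ) (u : ℕ → A) :
    complexity u n = ∑ v : Fin n → A, if v ∈ factors u n then 1 else 0 := by
  rw [complexity, Set.ncard_eq_toFinset_card', Finset.sum_boole]
  simp only [Nat.cast_id]
  congr 1
  ext v
  simp

theorem analytic_range (A : Type*) [Finite A] :
    AnalyticSet (Set.range (complexity : (ℕ → A) → ℕ → ℕ)) := by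
  classical
  have : Fintype A := Fintype.ofFinite A
  let _ : TopologicalSpace A := ⊥
  have : DiscreteTopology A := ⟨rfl⟩
  let _ : MeasurableSpace A := borel A
  have : BorelSpace A := ⟨rfl⟩
  rw [← Set.image_univ]
  refine MeasurableSet.univ.analyticSet_image ?_
  refine measurable_pi_iff.2 fun n => ?_
  have h : (fun u : ℕ → A => complexity u n) =
      fun u => ∑ v : Fin n → A, if v ∈ factors u n then 1 else 0 := by
    funext u
    rw [ana_ncard]
  rw [h]
  refine Finset.measurable_sum _ fun v _ => ?_
  refine Measurable.ite ?_ measurable_const measurable_const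
  have h2 : {u : ℕ → A | v ∈ factors u n} = ⋃ i : ℕ, ⋂ j : Fin n, {u | u (i + j) = v j} := by
    ext u
    simp only [factors, Set.mem_range, Set.mem_ofPred_eq, Set.mem_iUnion, Set.mem_iInter]
    constructor
    · rintro ⟨i, hi⟩
      exact ⟨i, fun j => congrFun hi j⟩
    · rintro ⟨i, hi⟩
      exact ⟨i, funext hi⟩
  rw [h2]
  refine MeasurableSet.iUnion fun i => MeasurableSet.iInter fun j => ?_
  exact measurableSet_eq_fun (measurable_pi_apply (i + (j : ℕ))) measurable_const

end Pool.Agent.Helper79.CF
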