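import Pool.Agent.Helper79.CF.Defs

/-!
# Words whose complexity is asymptotic to `k ^ n`
-/

namespace Pool.Agent.Helper79.CF

open Filter Topology

section RIG

variable {A : Type*}

private structure RIGLang (F : ℕ → Set (List A)) : Prop where
  len : ∀ n, ∀ l ∈ F n, l.length = n
  split : ∀ m n v w, v.length = m → w.length = n → v ++ w ∈ F (m + n) → v ∈ F m ∧ w ∈ F n
  fin : ∀ n, (F n).Finite

/-- words with a given suffix -/
private def RIGa (F : ℕ → Set (List A)) (n : ℕ) (s : List A) : Set (List A) := {v | v ∈ F n ∧ s <:+ v}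

/-- words with a given prefix -/
private def RIGb (F : ℕ → Set (List A)) (n : ℕ) (s : List A) : Set (List A) := {v | v ∈ F n ∧ s <+: v}

private lemma RIG_count {F : ℕ → Set (List A)} (hF : RIGLang F) (m n : ℕ) {X Y : Set (List A)}
    (hX : X ⊆ F m) (hY : Y ⊆ F n) :
    {z | z ∈ F (m + n) ∧ z.take m ∈ X ∧ z.drop m ∈ Y}.ncard ≤ X.ncard * Y.ncard ∧
    X.ncard * Y.ncard + (F (m + n)).ncard ≤
      {z | z ∈ F (m + n) ∧ z.take m ∈ X ∧ z.drop m ∈ Y}.ncard + (F m).ncard * (F n).ncard := by
  set P := {z | z ∈ F (m + n) ∧ z.take m ∈ X ∧ z.drop m ∈ Y} with hP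
  set φ : List A → List A × List A := fun z => (z.take m, z.drop m) with hφ
  have hinj : Function.Injective φ := by
    intro z z' h
    simp only [hφ, Prod.mk.injEq] at h
    rw [← List.take_append_drop m z, ← List.take_append_drop m z', h.1, h.2]
  have hXf : X.Finite := (hF.fin m).subset hX
  have hYf : Y.Finite := (hF.fin n).subset hY
  have hPf : P.Finite := (hF.fin (m + n)).subset fun z hz => hz.1
  constructor
  · rw [← Set.ncard_prod]
    apply Set.ncard_le_ncard_of_injOn φ _ hinj.injOn (hXf.prod hYf)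
    intro z hz
    exact ⟨hz.2.1, hz.2.2⟩
  · set D := {p : List A × List A | p.1 ∈ F m ∧ p.2 ∈ F n ∧ p.1 ++ p.2 ∉ F (m + n)} with hD
    have hFf : (F m ×ˢ F n).Finite := (hF.fin m).prod (hF.fin n)
    have hDf : D.Finite := hFf.subset fun p hp => ⟨hp.1, hp.2.1⟩
    have h1 : X.ncard * Y.ncard ≤ P.ncard + D.ncard := by
      rw [← Set.ncard_prod]
      have hsub : X ×ˢ Y ⊆ φ '' P ∪ D := by
        rintro ⟨v, w⟩ ⟨hv, hw⟩
        by_cases h : v ++ w ∈ F (m + n)
        · left
          have hl : v.length = m := hF.len m v (hX hv)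
          refine ⟨v ++ w, ⟨h, ?_, ?_⟩, ?_⟩
          · rw [List.take_left' hl]; exact hv
          · rw [List.drop_left' hl]; exact hw
          · simp only [hφ]
            rw [List.take_left' hl, List.drop_left' hl]
        · right
          exact ⟨hX hv, hY hw, h⟩
      calc (X ×ˢ Y).ncard ≤ (φ '' P ∪ D).ncard :=
            Set.ncard_le_ncard hsub ((hPf.image φ).union hDf)
        _ ≤ (φ '' P).ncard + D.ncard := Set.ncard_union_le _ _
        _ = P.ncard + D.ncard := by rw [Set.ncard_image_of_injective _ hinj]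
    have h2 : (F (m + n)).ncard + D.ncard ≤ (F m).ncard * (F n).ncard := by
      rw [← Set.ncard_prod, ← Set.ncard_image_of_injective _ hinj, ← Set.ncard_union_eq _
        ((hF.fin _).image φ) hDf]
      · apply Set.ncard_le_ncard _ hFf
        rintro p (⟨z, hz, rfl⟩ | hp)
        · have hl := hF.len _ z hz
          have := hF.split m n (z.take m) (z.drop m) (by rw [List.length_take]; omega)
            (by rw [List.length_drop]; omega) (by rw [List.take_append_drop]; exact hz)
          exact ⟨this.1, this.2⟩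
        · exact ⟨hp.1, hp.2.1⟩
      · rw [Set.disjoint_left]
        rintro p ⟨z, hz, rfl⟩ hp
        apply hp.2.2
        show z.take m ++ z.drop m ∈ _
        rw [List.take_append_drop]
        exact hz
    omega

private lemma RIG_set (s t z : List A) (m : ℕ) (hz : m + s.length ≤ z.length) :
    (s <:+ z.take (m + s.length) ∧ t <+: z.drop (m + s.length)) ↔ (s ++ t) <+: z.drop m := by
  have e1 : z.take (m + s.length) = z.take m ++ (z.drop m).take s.length := by
    rw [List.take_add]
  have e2 : z.drop (m + s.length) = (z.drop m).drop s.length := by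
    rw [List.drop_drop]
  have hl : ((z.drop m).take s.length).length = s.length := by
    rw [List.length_take, List.length_drop]; omega
  rw [e1, e2]
  constructor
  · rintro ⟨h1, h2⟩
    have h3 : (z.drop m).take s.length <:+ z.take m ++ (z.drop m).take s.length :=
      List.suffix_append _ _
    have h4 : s <:+ (z.drop m).take s.length :=
      List.suffix_of_suffix_length_le h1 h3 (by omega)
    have h5 : s = (z.drop m).take s.length := h4.eq_of_length (by omega)
    obtain ⟨r, hr⟩ := h2
    refine ⟨r, ?_⟩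
    rw [List.append_assoc, hr]
    nth_rewrite 1 [h5]
    exact List.take_append_drop _ _
  · rintro ⟨r, hr⟩
    have h5 : (z.drop m).take s.length = s := by
      rw [← hr, List.append_assoc, List.take_left]
    have h6 : (z.drop m).drop s.length = t ++ r := by
      rw [← hr, List.append_assoc, List.drop_left]
    rw [h5, h6]
    exact ⟨List.suffix_append _ _, List.prefix_append _ _⟩

private lemma RIG_nat {F : ℕ → Set (List A)} (hF : RIGLang F) (m n : ℕ) (s t : List A) :
    (RIGa F (m + s.length) s).ncard * (RIGb F n t).ncard + (F (m + s.length + n)).ncard ≤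
      (F m).ncard * (RIGb F (s.length + n) (s ++ t)).ncard +
        (F (m + s.length)).ncard * (F n).ncard ∧
    (F m).ncard * (RIGb F (s.length + n) (s ++ t)).ncard + (F (m + s.length + n)).ncard ≤
      (RIGa F (m + s.length) s).ncard * (RIGb F n t).ncard +
        (F m).ncard * (F (s.length + n)).ncard := by
  have h1 := RIG_count hF (m + s.length) n (X := RIGa F (m + s.length) s) (Y := RIGb F n t)
    (fun z hz => hz.1) (fun z hz => hz.1)
  have h2 := RIG_count hF m (s.length + n) (X := F m) (Y := RIGb F (s.length + n) (s ++ t))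
    (fun z hz => hz) (fun z hz => hz.1)
  have e : {z | z ∈ F (m + s.length + n) ∧ z.take (m + s.length) ∈ RIGa F (m + s.length) s ∧
      z.drop (m + s.length) ∈ RIGb F n t} =
      {z | z ∈ F (m + (s.length + n)) ∧ z.take m ∈ F m ∧
        z.drop m ∈ RIGb F (s.length + n) (s ++ t)} := by
    ext z
    simp only [Set.mem_ofPred_eq, ← Nat.add_assoc]
    constructor
    · rintro ⟨hz, ⟨_, h4⟩, ⟨_, h6⟩⟩
      have hl := hF.len _ z hz
      have h7 := (RIG_set s t z m (by omega)).1 ⟨h4, h6⟩
      have h8 := hF.split m (s.length + n) (z.take m) (z.drop m) (by rw [List.length_take]; omega)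
        (by rw [List.length_drop]; omega)
        (by rw [List.take_append_drop, ← Nat.add_assoc]; exact hz)
      exact ⟨hz, h8.1, h8.2, h7⟩
    · rintro ⟨hz, _, ⟨_, h6⟩⟩
      have hl := hF.len _ z hz
      have h7 := (RIG_set s t z m (by omega)).2 h6
      have h8 := hF.split (m + s.length) n (z.take (m + s.length)) (z.drop (m + s.length))
        (by rw [List.length_take]; omega) (by rw [List.length_drop]; omega)
        (by rw [List.take_append_drop]; exact hz)
      exact ⟨hz, ⟨h8.1, h7.1⟩, ⟨h8.2, h7.2⟩⟩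
  rw [e] at h1
  rw [← Nat.add_assoc] at h2
  simp only [← Nat.add_assoc] at h1 h2 ⊢
  constructor
  · have := h1.2
    have := h2.1
    omega
  · have := h1.1
    have := h2.2
    omega

/-- normalised cardinality -/
private noncomputable def RIGg (k : ℝ) (n : ℕ) (X : Set (List A)) : ℝ := X.ncard / k ^ n

private lemma RIG_real {F : ℕ → Set (List A)} (hF : RIGLang F) {k : ℝ} (hk : 0 < k) (m n : ℕ)
    (s t : List A) :
    RIGg k (m + s.length) (RIGa F (m + s.length) s) * RIGg k n (RIGb F n t) -
      (RIGg k (m + s.length) (F (m + s.length)) * RIGg k n (F n) -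
        RIGg k (m + s.length + n) (F (m + s.length + n))) ≤
      RIGg k m (F m) * RIGg k (s.length + n) (RIGb F (s.length + n) (s ++ t)) ∧
    RIGg k m (F m) * RIGg k (s.length + n) (RIGb F (s.length + n) (s ++ t)) -
      (RIGg k m (F m) * RIGg k (s.length + n) (F (s.length + n)) -
        RIGg k (m + s.length + n) (F (m + s.length + n))) ≤
      RIGg k (m + s.length) (RIGa F (m + s.length) s) * RIGg k n (RIGb F n t) := by
  obtain ⟨h1, h2⟩ := RIG_nat hF m n s t
  unfold RIGg
  have h1' : (((RIGa F (m + s.length) s).ncard : ℝ) * (RIGb F n t).ncard +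
      (F (m + s.length + n)).ncard) ≤
      (F m).ncard * (RIGb F (s.length + n) (s ++ t)).ncard +
        (F (m + s.length)).ncard * (F n).ncard := by exact_mod_cast h1
  have h2' : (((F m).ncard : ℝ) * (RIGb F (s.length + n) (s ++ t)).ncard +
      (F (m + s.length + n)).ncard) ≤
      (RIGa F (m + s.length) s).ncard * (RIGb F n t).ncard +
        (F m).ncard * (F (s.length + n)).ncard := by exact_mod_cast h2
  have hK : 0 < k ^ (m + s.length + n) := pow_pos hk _
  have e1 : k ^ (m + s.length + n) = k ^ (m + s.length) * k ^ n := pow_add _ _ _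
  have e2 : k ^ (m + s.length + n) = k ^ m * k ^ (s.length + n) := by
    rw [Nat.add_assoc, pow_add]
  have f1 : ∀ a b : ℝ, a / k ^ (m + s.length) * (b / k ^ n) = a * b / k ^ (m + s.length + n) := by
    intro a b; rw [e1, div_mul_div_comm]
  have f2 : ∀ a b : ℝ, a / k ^ m * (b / k ^ (s.length + n)) = a * b / k ^ (m + s.length + n) := by
    intro a b; rw [e2, div_mul_div_comm]
  rw [f1, f1, f2, f2, ← sub_div, ← sub_div, ← sub_div, ← sub_div]
  constructor
  · apply div_le_div_of_nonneg_right _ hK.le
    linarith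
  · apply div_le_div_of_nonneg_right _ hK.le
    linarith

private lemma RIG_le {F : ℕ → Set (List A)} (hF : RIGLang F) {k : ℝ} (hk : 0 < k) (n : ℕ)
    {X : Set (List A)} (hX : X ⊆ F n) : 0 ≤ RIGg k n X ∧ RIGg k n X ≤ RIGg k n (F n) := by
  unfold RIGg
  refine ⟨by positivity, ?_⟩
  apply div_le_div_of_nonneg_right _ (pow_pos hk n).le
  exact_mod_cast Set.ncard_le_ncard hX (hF.fin n)

private lemma RIGb_nil (F : ℕ → Set (List A)) (n : ℕ) : RIGb F n [] = F n := by
  ext z; simp [RIGb]

private lemma RIG_conv {F : ℕ → Set (List A)} (hF : RIGLang F) {k : ℝ} (hk : 0 < k)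
    (h : Tendsto (fun n => RIGg k n (F n)) atTop (𝓝 1)) (s : List A) :
    ∃ μ : ℝ, Tendsto (fun n => RIGg k n (RIGa F n s)) atTop (𝓝 μ) ∧
      Tendsto (fun n => RIGg k n (RIGb F n s)) atTop (𝓝 μ) := by
  have key : ∀ ε : ℝ, 0 < ε → ∃ M : ℕ, ∀ m n, M ≤ m → M ≤ n →
      |RIGg k (m + s.length) (RIGa F (m + s.length) s) -
        RIGg k (s.length + n) (RIGb F (s.length + n) s)| ≤ ε := by
    intro ε hε
    set η := min (ε / 10) 1 with hη
    have hη0 : 0 < η := lt_min (by positivity) one_pos
    have hη1 : η ≤ 1 := min_le_right _ _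
    have hη2 : 10 * η ≤ ε := by
      have := min_le_left (ε / 10) 1
      linarith
    obtain ⟨M, hM⟩ := (Metric.tendsto_atTop.1 h) (η / 2) (by positivity)
    refine ⟨M, fun m n hm hn => ?_⟩
    have hg : ∀ i, M ≤ i → 1 - η / 2 ≤ RIGg k i (F i) ∧ RIGg k i (F i) ≤ 1 + η / 2 := by
      intro i hi
      have := (hM i hi).le
      rw [Real.dist_eq, abs_le] at this
      constructor <;> linarith
    obtain ⟨i1, i2⟩ := RIG_real hF hk m n s []
    rw [RIGb_nil, List.append_nil] at i1 i2
    have a1 := RIG_le hF hk (m + s.length) (X := RIGa F (m + s.length) s) (fun z hz => hz.1)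
    have b1 := RIG_le hF hk (s.length + n) (X := RIGb F (s.length + n) s) (fun z hz => hz.1)
    have g1 := hg m hm
    have g2 := hg n hn
    have g3 := hg (m + s.length) (by omega)
    have g4 := hg (s.length + n) (by omega)
    have g5 := hg (m + s.length + n) (by omega)
    generalize RIGg k (m + s.length) (RIGa F (m + s.length) s) = a at *
    generalize RIGg k (s.length + n) (RIGb F (s.length + n) s) = b at *
    generalize RIGg k m (F m) = c1 at *
    generalize RIGg k n (F n) = c2 at *
    generalize RIGg k (m + s.length) (F (m + s.length)) = c3 at *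
    generalize RIGg k (s.length + n) (F (s.length + n)) = c4 at *
    generalize RIGg k (m + s.length + n) (F (m + s.length + n)) = c5 at *
    have ha : a ≤ 3 / 2 := by linarith
    have hb : b ≤ 3 / 2 := by linarith
    have p1 : a * (1 - η / 2) ≤ a * c2 := mul_le_mul_of_nonneg_left g2.1 a1.1
    have p2 : a * c2 ≤ a * (1 + η / 2) := mul_le_mul_of_nonneg_left g2.2 a1.1
    have p3 : (1 - η / 2) * b ≤ c1 * b := mul_le_mul_of_nonneg_right g1.1 b1.1
    have p4 : c1 * b ≤ (1 + η / 2) * b := mul_le_mul_of_nonneg_right g1.2 b1.1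
    have p5 : c3 * c2 ≤ (1 + η / 2) * (1 + η / 2) :=
      mul_le_mul g3.2 g2.2 (by linarith) (by linarith)
    have p6 : c1 * c4 ≤ (1 + η / 2) * (1 + η / 2) :=
      mul_le_mul g1.2 g4.2 (by linarith) (by linarith)
    have q1 : a * η ≤ 3 / 2 * η := mul_le_mul_of_nonneg_right ha hη0.le
    have q2 : b * η ≤ 3 / 2 * η := mul_le_mul_of_nonneg_right hb hη0.le
    have q3 : η * η ≤ η := by nlinarith
    rw [abs_le]
    constructor <;> nlinarith
  have hC : CauchySeq (fun n => RIGg k n (RIGb F n s)) := by
    rw [Metric.cauchySeq_iff']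
    intro ε hε
    obtain ⟨M, hM⟩ := key (ε / 3) (by positivity)
    refine ⟨s.length + M, fun n hn => ?_⟩
    have h1 := hM M (n - s.length) le_rfl (by omega)
    have h2 := hM M M le_rfl le_rfl
    rw [show s.length + (n - s.length) = n by omega] at h1
    rw [Real.dist_eq]
    rw [abs_le] at h1 h2
    rw [abs_lt]
    constructor <;> linarith [h1.1, h1.2, h2.1, h2.2]
  obtain ⟨μ, hμ⟩ := cauchySeq_tendsto_of_complete hC
  refine ⟨μ, ?_, hμ⟩
  rw [Metric.tendsto_atTop]
  intro ε hε
  obtain ⟨M, hM⟩ := key (ε / 3) (by positivity)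
  obtain ⟨M', hM'⟩ := (Metric.tendsto_atTop.1 hμ) (ε / 3) (by positivity)
  refine ⟨M + s.length, fun n hn => ?_⟩
  have h1 := hM (n - s.length) (max M M') (by omega) (le_max_left _ _)
  have h2 := hM' (s.length + max M M') (by have := le_max_right M M'; omega)
  rw [show n - s.length + s.length = n by omega] at h1
  rw [Real.dist_eq] at h2 ⊢
  rw [abs_le] at h1
  rw [abs_lt] at h2 ⊢
  constructor <;> linarith [h1.1, h1.2, h2.1, h2.2]

private lemma RIG_mul {F : ℕ → Set (List A)} (hF : RIGLang F) {k : ℝ} (hk : 0 < k)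
    (h : Tendsto (fun n => RIGg k n (F n)) atTop (𝓝 1)) {s t : List A} {μ ν τ : ℝ}
    (h1 : Tendsto (fun n => RIGg k n (RIGa F n s)) atTop (𝓝 μ))
    (h2 : Tendsto (fun n => RIGg k n (RIGb F n t)) atTop (𝓝 ν))
    (h3 : Tendsto (fun n => RIGg k n (RIGb F n (s ++ t))) atTop (𝓝 τ)) : μ * ν ≤ τ := by
  have a1 : Tendsto (fun n : ℕ => n + s.length) atTop atTop := tendsto_add_atTop_nat _
  have a2 : Tendsto (fun n : ℕ => s.length + n) atTop atTop := by
    simpa [Nat.add_comm] using tendsto_add_atTop_nat s.length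
  have a3 : Tendsto (fun n : ℕ => n + s.length + n) atTop atTop :=
    tendsto_atTop_mono (fun n => by show n ≤ _; omega) tendsto_id
  have l1 := ((h1.comp a1).mul h2).sub (((h.comp a1).mul h).sub (h.comp a3))
  have l2 := h.mul (h3.comp a2)
  have := le_of_tendsto_of_tendsto' l1 l2 (fun n => (RIG_real hF hk n n s t).1)
  linarith

private def RIGw (u : ℕ → A) (i n : ℕ) : List A := List.ofFn (fun j : Fin n => u (i + j))

private lemma RIGw_length (u : ℕ → A) (i n : ℕ) : (RIGw u i n).length = n := List.length_ofFn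

private lemma RIGw_add (u : ℕ → A) (i m n : ℕ) :
    RIGw u i (m + n) = RIGw u i m ++ RIGw u (i + m) n := by
  unfold RIGw
  rw [List.ofFn_add]
  congr 1
  congr 1
  funext j
  simp only [Fin.val_natAdd]
  rw [Nat.add_assoc]

private def RIGF (u : ℕ → A) (n : ℕ) : Set (List A) := Set.range (fun i => RIGw u i n)

private lemma RIGF_lang [Finite A] (u : ℕ → A) : RIGLang (RIGF u) where
  len := by
    rintro n l ⟨i, rfl⟩
    exact RIGw_length u i n
  split := by
    rintro m n v w hv hw ⟨i, hi⟩
    simp only [RIGw_add] at hi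
    have := List.append_inj hi (by rw [RIGw_length, hv])
    exact ⟨⟨i, this.1⟩, ⟨i + m, this.2⟩⟩
  fin := by
    intro n
    apply (List.finite_length_eq A n).subset
    rintro l ⟨i, rfl⟩
    exact RIGw_length u i n

private lemma RIGF_eq (u : ℕ → A) (n : ℕ) : RIGF u n = List.ofFn '' factors u n := by
  ext l
  constructor
  · rintro ⟨i, rfl⟩
    exact ⟨_, ⟨i, rfl⟩, rfl⟩
  · rintro ⟨_, ⟨i, rfl⟩, rfl⟩
    exact ⟨i, rfl⟩

private lemma RIGF_card (u : ℕ → A) (n : ℕ) : (RIGF u n).ncard = complexity u n := by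
  rw [RIGF_eq, Set.ncard_image_of_injective _ List.ofFn_injective]; rfl

theorem rigid {A : Type*} [Finite A] (u : ℕ → A) (k : ℕ) (hk : 0 < k)
    (h : Tendsto (fun n => (complexity u n : ℝ) / (k : ℝ) ^ n) atTop (𝓝 1)) :
    ∃ K : Set A, K.ncard = k ∧ ∀ n (v : Fin n → A), (∀ i, v i ∈ K) → v ∈ factors u n := by
  classical
  have : Fintype A := Fintype.ofFinite A
  have hF := RIGF_lang u
  have hk' : (0 : ℝ) < k := by exact_mod_cast hk
  have hc : Tendsto (fun n => RIGg (k : ℝ) n (RIGF u n)) atTop (𝓝 1) := by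
    refine h.congr fun n => ?_
    unfold RIGg
    rw [RIGF_card]
  choose μ hμa hμb using RIG_conv hF hk' hc
  set K : Set A := {a | 0 < μ [a]} with hK
  have good : ∀ l : List A, (∀ a ∈ l, a ∈ K) → 0 < μ l := by
    intro l
    induction l with
    | nil =>
      intro _
      have h1 := hμb []
      simp only [RIGb_nil] at h1
      rw [tendsto_nhds_unique h1 hc]
      exact one_pos
    | cons a l ih =>
      intro hl
      have h1 := ih fun b hb => hl b (List.mem_cons_of_mem a hb)
      have h2 : 0 < μ [a] := hl a List.mem_cons_self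
      have h3 := RIG_mul hF hk' hc (hμa [a]) (hμb l) (hμb ([a] ++ l))
      exact lt_of_lt_of_le (mul_pos h2 h1) h3
  have occ : ∀ l : List A, 0 < μ l → l ∈ RIGF u l.length := by
    intro l hl
    have h1 := (hμb l).eventually (lt_mem_nhds hl)
    obtain ⟨n, hn, hn'⟩ := (h1.and (eventually_ge_atTop l.length)).exists
    have h2 : (RIGb (RIGF u) n l).Nonempty := by
      by_contra h3
      rw [Set.not_nonempty_iff_eq_empty] at h3
      rw [h3] at hn
      simp [RIGg] at hn
    obtain ⟨z, hz, r, rfl⟩ := h2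
    have h4 := hF.len n _ hz
    rw [List.length_append] at h4
    rw [← h4] at hz
    exact (hF.split l.length r.length l r rfl rfl hz).1
  have words : ∀ n (v : Fin n → A), (∀ i, v i ∈ K) → v ∈ factors u n := by
    intro n v hv
    have h1 := occ (List.ofFn v) (good _ (by
      intro a ha
      rw [List.mem_ofFn] at ha
      obtain ⟨i, rfl⟩ := ha
      exact hv i))
    rw [List.length_ofFn, RIGF_eq] at h1
    obtain ⟨w, hw, hw'⟩ := h1
    rw [← List.ofFn_injective hw']
    exact hw
  have tend1 : Tendsto (fun n : ℕ => n + 1) atTop atTop := tendsto_add_atTop_nat 1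
  have sum1 : 1 ≤ ∑ a : A, μ [a] := by
    have l1 : Tendsto (fun n => ∑ a : A, RIGg (k : ℝ) (n + 1) (RIGb (RIGF u) (n + 1) [a])) atTop
        (𝓝 (∑ a : A, μ [a])) := tendsto_finsetSum _ fun a _ => (hμb [a]).comp tend1
    refine le_of_tendsto_of_tendsto' (hc.comp tend1) l1 fun n => ?_
    simp only [Function.comp, RIGg]
    rw [← Finset.sum_div]
    apply div_le_div_of_nonneg_right _ (pow_pos hk' _).le
    have h1 : RIGF u (n + 1) ⊆ ⋃ a, RIGb (RIGF u) (n + 1) [a] := by
      intro z hz
      have hl := hF.len _ z hz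
      rcases z with _ | ⟨a, z⟩
      · simp at hl
      · rw [Set.mem_iUnion]
        exact ⟨a, hz, ⟨z, rfl⟩⟩
    have hfin : (⋃ a, RIGb (RIGF u) (n + 1) [a]).Finite :=
      Set.finite_iUnion fun a => (hF.fin (n + 1)).subset fun z hz => hz.1
    exact_mod_cast (Set.ncard_le_ncard h1 hfin).trans (Set.ncard_iUnion_le_of_fintype _)
  have let1 : ∀ a : A, μ [a] ≤ 1 / k := by
    intro a
    have l1 : Tendsto (fun n => RIGg (k : ℝ) n (RIGF u n) / k) atTop (𝓝 (1 / k)) := hc.div_const _
    refine le_of_tendsto_of_tendsto' ((hμb [a]).comp tend1) l1 fun n => ?_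
    simp only [Function.comp, RIGg]
    rw [div_div, ← pow_succ]
    apply div_le_div_of_nonneg_right _ (pow_pos hk' _).le
    have h1 : (RIGb (RIGF u) (n + 1) [a]).ncard ≤ (RIGF u n).ncard := by
      apply Set.ncard_le_ncard_of_injOn List.tail _ _ (hF.fin n)
      · rintro z ⟨hz, r, rfl⟩
        have h4 := hF.len _ _ hz
        have h5 : r.length = n := by simpa using h4
        rw [Nat.add_comm n 1] at hz
        exact (hF.split 1 n [a] r rfl h5 hz).2
      · rintro z ⟨hz, r, rfl⟩ z' ⟨hz', r', rfl⟩ h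
        simpa using h
    exact_mod_cast h1
  have nonneg : ∀ l, 0 ≤ μ l := fun l =>
    ge_of_tendsto' (hμb l) fun n => (RIG_le hF hk' n fun z hz => hz.1).1
  have K1 : k ≤ K.ncard := by
    have h1 : ∑ a : A, μ [a] ≤ K.ncard * (1 / k : ℝ) := by
      have h2 : ∀ a : A, μ [a] ≤ if a ∈ K then (1 / k : ℝ) else 0 := by
        intro a
        split_ifs with ha
        · exact let1 a
        · exact not_lt.1 ha
      refine (Finset.sum_le_sum fun a _ => h2 a).trans ?_
      rw [← Finset.sum_filter, Finset.sum_const, nsmul_eq_mul, Set.ncard_eq_toFinset_card']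
      apply le_of_eq
      congr 3
      ext a
      simp
    have h3 : (1 : ℝ) ≤ K.ncard * (1 / k : ℝ) := sum1.trans h1
    rw [mul_one_div, le_div_iff₀ hk', one_mul] at h3
    exact_mod_cast h3
  have K2 : ∀ n, K.ncard ^ n ≤ complexity u n := by
    intro n
    have h1 : Nat.card (Fin n → K) = K.ncard ^ n := by
      rw [Nat.card_fun, Nat.card_fin]; rfl
    rw [← h1]
    have hinj : Function.Injective (fun (f : Fin n → K) (i : Fin n) => (f i : A)) := by
      intro f g hfg
      funext i
      exact Subtype.ext (congrFun hfg i)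
    rw [← Nat.card_range_of_injective hinj]
    show (Set.range _).ncard ≤ (factors u n).ncard
    apply Set.ncard_le_ncard _ (Set.toFinite _)
    rintro _ ⟨f, rfl⟩
    exact words n _ fun i => (f i).2
  refine ⟨K, le_antisymm ?_ K1, words⟩
  by_contra hlt
  rw [not_le] at hlt
  have h1 : (1 : ℝ) < (K.ncard : ℝ) / k := by
    rw [one_lt_div hk']; exact_mod_cast hlt
  have h2 := tendsto_pow_atTop_atTop_of_one_lt h1
  have h3 : ∀ n, ((K.ncard : ℝ) / k) ^ n ≤ (complexity u n : ℝ) / (k : ℝ) ^ n := by
    intro n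
    rw [div_pow]
    apply div_le_div_of_nonneg_right _ (pow_pos hk' _).le
    exact_mod_cast K2 n
  exact not_tendsto_atTop_of_tendsto_nhds h (tendsto_atTop_mono h3 h2)

end RIG

end Pool.Agent.Helper79.CF
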