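import Pool.Agent.Helper79.CF.Defs
import Pool.Agent.CFX.RIG

/-!
# Renaming letters
-/

namespace Pool.Agent.Helper79.CF

open Filter Topology

theorem complexity_comp {A B : Type*} (e : A → B) (u : ℕ → A)
    (he : Set.InjOn e (Set.range u)) : complexity (fun i => e (u i)) = complexity u := by
  funext n
  unfold complexity
  have h1 : factors (fun i => e (u i)) n = (fun v : Fin n → A => fun j => e (v j)) '' factors u n := by
    ext w
    simp only [factors, Set.mem_range, Set.mem_image]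
    constructor
    · rintro ⟨i, rfl⟩
      exact ⟨_, ⟨i, rfl⟩, rfl⟩
    · rintro ⟨v, ⟨i, rfl⟩, rfl⟩
      exact ⟨i, rfl⟩
  rw [h1]
  apply Set.ncard_image_of_injOn
  rintro v ⟨i, rfl⟩ w ⟨i', rfl⟩ h
  funext j
  exact he ⟨_, rfl⟩ ⟨_, rfl⟩ (congrFun h j)

lemma emb_one {A : Type*} (u : ℕ → A) : complexity u 1 = (Set.range u).ncard := by
  unfold complexity
  have h1 : factors u 1 = (fun a : A => fun _ : Fin 1 => a) '' Set.range u := by
    ext w
    simp only [factors, Set.mem_range, Set.mem_image]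
    constructor
    · rintro ⟨i, rfl⟩
      refine ⟨u i, ⟨i, rfl⟩, ?_⟩
      funext j
      simp
    · rintro ⟨a, ⟨i, rfl⟩, rfl⟩
      refine ⟨i, ?_⟩
      funext j
      simp
  rw [h1]
  apply Set.ncard_image_of_injective
  intro a b h
  exact congrFun h 0

lemma emb_tendsto {k : ℕ} (hk : 2 ≤ k) (g : ℕ → ℕ) (hg : ∀ n, g n ≤ 3 * n) :
    Tendsto (fun n => ((k ^ n + g n : ℕ) : ℝ) / (k : ℝ) ^ n) atTop (𝓝 1) := by
  have hk1 : (1 : ℝ) < k := by exact_mod_cast (by omega : 1 < k)
  have h0 := (tendsto_pow_const_div_const_pow_of_one_lt 1 hk1).const_mul 3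
  rw [mul_zero] at h0
  have h1 : Tendsto (fun n => (g n : ℝ) / (k : ℝ) ^ n) atTop (𝓝 0) := by
    apply squeeze_zero (g := fun n : ℕ => 3 * ((n : ℝ) ^ 1 / (k : ℝ) ^ n)) _ _ h0
    · intro n; positivity
    · intro n
      rw [pow_one, ← mul_div_assoc]
      gcongr
      exact_mod_cast hg n
  have h2 := h1.const_add 1
  rw [add_zero] at h2
  refine h2.congr fun n => ?_
  have : (k : ℝ) ^ n ≠ 0 := by positivity
  push_cast
  field_simp

/-- uses rigid, complexity_comp, dec0, gfun_le, gfun_one -/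
theorem dec_aux {A : Type*} [Finite A] {k : ℕ} (hk : 2 ≤ k) (D : Data) (hgl : ∀ n, gfun D n ≤ 3 * n)
    (hg1 : gfun D 1 = 1) (u : ℕ → A) (hc : complexity u = ffun k D) :
    ∃ u' : ℕ → Option (Fin k), complexity u' = ffun k D ∧
      ∀ n (v : Fin n → Fin k), (fun i => some (v i)) ∈ factors u' n := by
  classical
  have ht : Tendsto (fun n => (complexity u n : ℝ) / (k : ℝ) ^ n) atTop (𝓝 1) := by
    rw [hc]; exact emb_tendsto hk (gfun D) hgl
  obtain ⟨K, hK, hKf⟩ := rigid u k (by omega) ht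
  have hr : (Set.range u).ncard = k + 1 := by
    rw [← emb_one, hc]; simp [ffun, hg1]
  have hsub : K ⊆ Set.range u := by
    intro a ha
    obtain ⟨i, hi⟩ := hKf 1 (fun _ => a) (fun _ => ha)
    exact ⟨i, by simpa using congrFun hi 0⟩
  have hfin : (Set.range u).Finite := Set.toFinite _
  have hdiff : (Set.range u \ K).ncard = 1 := by
    rw [Set.ncard_diff hsub, hr, hK]; omega
  obtain ⟨b, hb⟩ := Set.ncard_eq_one.mp hdiff
  have hcard : Nat.card K = k := hK
  let φ : K ≃ Fin k := Finite.equivFinOfCardEq hcard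
  let e : A → Option (Fin k) := fun a => if h : a ∈ K then some (φ ⟨a, h⟩) else none
  have he : Set.InjOn e (Set.range u) := by
    intro a ha a' ha' h
    by_cases h1 : a ∈ K <;> by_cases h2 : a' ∈ K
    · simp only [e, dif_pos h1, dif_pos h2, Option.some.injEq, EmbeddingLike.apply_eq_iff_eq,
        Subtype.mk.injEq] at h
      exact h
    · simp [e, dif_pos h1, dif_neg h2] at h
    · simp [e, dif_neg h1, dif_pos h2] at h
    · have e1 : a ∈ Set.range u \ K := ⟨ha, h1⟩
      have e2 : a' ∈ Set.range u \ K := ⟨ha', h2⟩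
      rw [hb] at e1 e2
      rw [Set.mem_singleton_iff.mp e1, Set.mem_singleton_iff.mp e2]
  refine ⟨fun i => e (u i), (complexity_comp e u he).trans hc, ?_⟩
  intro n v
  obtain ⟨i, hi⟩ := hKf n (fun j => (φ.symm (v j)).1) (fun j => (φ.symm (v j)).2)
  refine ⟨i, ?_⟩
  funext j
  have h1 : u (i + j) = (φ.symm (v j)).1 := congrFun hi j
  show e (u (i + j)) = some (v j)
  rw [h1]
  simp [e]

end Pool.Agent.Helper79.CF
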