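import Mathlib

/-!
Module BOR: a local reduction of the infinite clique problem shows that a set is complete among
the analytic sets, and not Borel.
-/

namespace Pool.Agent.Helper79.CF

open Filter Topology MeasureTheory

/-- an enumeration of the finite sequences, with `length (borS j) ≤ j` -/
def borS (j : ℕ) : List ℕ := ((Encodable.decode (α := List ℕ) (Nat.unpair j).1).getD []).take j

theorem borS_length (j : ℕ) : (borS j).length ≤ j := by
  simp [borS]

theorem borS_surj (l : List ℕ) : ∃ j, borS j = l := by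
  refine ⟨Nat.pair (Encodable.encode l) l.length, ?_⟩
  have h1 : l.length ≤ Nat.pair (Encodable.encode l) l.length := Nat.right_le_pair _ _
  simp only [borS, Nat.unpair_pair, Encodable.encodek, Option.getD_some]
  exact List.take_of_length_le h1

/-- the tree of a point -/
def borT (f : (ℕ → ℕ) → (ℕ → ℕ)) (z : ℕ → ℕ) (l : List ℕ) : Prop :=
  ∃ w : ℕ → ℕ, (∀ i (hi : i < l.length), w i = l[i]) ∧ ∀ i < l.length, f w i = z i

theorem borT_congr {f : (ℕ → ℕ) → (ℕ → ℕ)} {z z' : ℕ → ℕ} {l : List ℕ}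
    (h : ∀ i < l.length, z i = z' i) : borT f z l ↔ borT f z' l := by
  constructor
  · rintro ⟨w, h1, h2⟩
    exact ⟨w, h1, fun i hi => (h2 i hi).trans (h i hi)⟩
  · rintro ⟨w, h1, h2⟩
    exact ⟨w, h1, fun i hi => (h2 i hi).trans (h i hi).symm⟩

/-- the graph of a point -/
def borG (f : (ℕ → ℕ) → (ℕ → ℕ)) (z : ℕ → ℕ) (i j : ℕ) : Prop :=
  borT f z (borS i) ∧ borT f z (borS j) ∧ borS i ≠ borS j ∧
    (borS i <+: borS j ∨ borS j <+: borS i)

theorem borG_congr {f : (ℕ → ℕ) → (ℕ → ℕ)} {z z' : ℕ → ℕ} {n : ℕ}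
    (h : ∀ i < n, z i = z' i) (i j : ℕ) (hij : i < j) (hj : j ≤ n) :
    borG f z i j ↔ borG f z' i j := by
  have h1 := borS_length i
  have h2 := borS_length j
  have e1 := borT_congr (f := f) (z := z) (z' := z') (l := borS i) fun m hm => h m (by omega)
  have e2 := borT_congr (f := f) (z := z) (z' := z') (l := borS j) fun m hm => h m (by omega)
  simp only [borG, e1, e2]

/-- continuous functions to a discrete space are local -/
theorem bor_local (g : (ℕ → ℕ) → ℕ) (hg : Continuous g) (w : ℕ → ℕ) :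
    ∃ N, ∀ w', (∀ i < N, w' i = w i) → g w' = g w := by
  have h1 : IsOpen (g ⁻¹' {g w}) := (isOpen_discrete _).preimage hg
  rw [isOpen_pi_iff] at h1
  obtain ⟨I, u, hu, hI⟩ := h1 w rfl
  refine ⟨I.sup id + 1, fun w' hw' => ?_⟩
  apply hI
  intro i hi
  have h2 : i ≤ I.sup id := Finset.le_sup (f := id) hi
  rw [hw' i (by omega)]
  exact (hu i hi).2

theorem borG_iff {f : (ℕ → ℕ) → (ℕ → ℕ)} (hf : Continuous f) (z : ℕ → ℕ) :
    (∃ I : Set ℕ, I.Infinite ∧ ∀ i ∈ I, ∀ n ∈ I, i < n → borG f z i n) ↔ z ∈ Set.range f := by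
  constructor
  · rintro ⟨I, hI, hc⟩
    -- lengths are injective
    have hlen : Set.InjOn (fun i => (borS i).length) I := by
      intro i hi j hj hij
      by_contra hne
      have key : ∀ a ∈ I, ∀ b ∈ I, a < b → (borS a).length ≠ (borS b).length := by
        intro a ha b hb hab he
        obtain ⟨-, -, h3, h4⟩ := hc a ha b hb hab
        rcases h4 with h4 | h4
        · exact h3 (h4.eq_of_length he)
        · exact h3 (h4.eq_of_length he.symm).symm
      rcases lt_or_gt_of_ne hne with h | h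
      · exact key i hi j hj h hij
      · exact key j hj i hi h hij.symm
    have hinf : ((fun i => (borS i).length) '' I).Infinite := hI.image hlen
    have hex : ∀ n, ∃ i ∈ I, n < (borS i).length := by
      intro n
      obtain ⟨m, ⟨i, hi, rfl⟩, hm⟩ := hinf.exists_gt n
      exact ⟨i, hi, hm⟩
    choose φ hφ hφ' using hex
    let w : ℕ → ℕ := fun n => (borS (φ n))[n]'(hφ' n)
    have hcomp : ∀ a ∈ I, ∀ b ∈ I, borS a <+: borS b ∨ borS b <+: borS a := by
      intro a ha b hb
      rcases lt_trichotomy a b with h | h | h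
      · exact (hc a ha b hb h).2.2.2
      · rw [h]
        exact Or.inl (List.prefix_refl _)
      · exact (hc b hb a ha h).2.2.2.symm
    have hpre : ∀ l l' : List ℕ, (l <+: l' ∨ l' <+: l) → ∀ n (h1 : n < l.length)
        (h2 : n < l'.length), l[n] = l'[n] := by
      intro l l' h n h1 h2
      rcases h with h | h
      · exact h.getElem h1
      · exact (h.getElem h2).symm
    have hw : ∀ a ∈ I, ∀ n (hn : n < (borS a).length), w n = (borS a)[n] := fun a ha n hn =>
      hpre _ _ (hcomp _ (hφ n) a ha) n (hφ' n) hn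
    have hT : ∀ a ∈ I, borT f z (borS a) := by
      intro a ha
      obtain ⟨b, hb, hab⟩ := hI.exists_gt a
      exact (hc a ha b hb hab).1
    refine ⟨w, funext fun n => ?_⟩
    obtain ⟨N, hN⟩ := bor_local (fun w' => f w' n) ((continuous_apply n).comp hf) w
    obtain ⟨w', h1, h2⟩ := hT _ (hφ (max N n))
    have h3 := hφ' (max N n)
    have h4 : f w' n = f w n := hN w' fun i hi => by
      have hi' : i < (borS (φ (max N n))).length := by omega
      rw [h1 i hi', hw _ (hφ (max N n)) i hi']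
    rw [← h4]
    exact h2 n (by omega)
  · rintro ⟨w, rfl⟩
    have hj : ∀ n, ∃ j, borS j = List.ofFn fun i : Fin n => w i := fun n => borS_surj _
    choose J hJ using hj
    have hJlen : ∀ n, (borS (J n)).length = n := fun n => by rw [hJ, List.length_ofFn]
    have hinj : Function.Injective J := by
      intro a b hab
      rw [← hJlen a, ← hJlen b, hab]
    refine ⟨Set.range J, Set.infinite_range_of_injective hinj, ?_⟩
    rintro _ ⟨a, rfl⟩ _ ⟨b, rfl⟩ hab
    have hT : ∀ a, borT f (f w) (borS (J a)) := by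
      intro a
      refine ⟨w, fun i hi => ?_, fun i hi => rfl⟩
      simp only [hJ, List.getElem_ofFn]
    have hne : a ≠ b := by
      rintro rfl
      exact absurd hab (lt_irrefl _)
    have hpre : ∀ a b, a ≤ b → borS (J a) <+: borS (J b) := by
      intro a b hab
      rw [List.prefix_iff_eq_take]
      apply List.ext_getElem
      · rw [List.length_take, hJlen, hJlen]
        omega
      · intro i h1 h2
        rw [List.getElem_take]
        simp only [hJ, List.getElem_ofFn]
    refine ⟨hT a, hT b, fun h => hne ?_, ?_⟩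
    · rw [← hJlen a, ← hJlen b, h]
    · rcases le_total a b with h | h
      · exact Or.inl (hpre a b h)
      · exact Or.inr (hpre b a h)

/-- local functions are continuous -/
theorem bor_continuous (Φ : (ℕ → ℕ) → ℕ → ℕ)
    (h : ∀ z z' n, (∀ i < n, z i = z' i) → Φ z n = Φ z' n) : Continuous Φ := by
  refine continuous_pi fun n => ?_
  have e : (fun z => Φ z n) =
      (fun v : Fin n → ℕ => Φ (fun i => if hi : i < n then v ⟨i, hi⟩ else 0) n) ∘
        fun z i => z i.val := by
    funext z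
    refine h _ _ n fun i hi => ?_
    simp [hi]
  rw [e]
  exact continuous_of_discreteTopology.comp (continuous_pi fun i => continuous_apply _)

theorem bor_fixed (Φ : (ℕ → ℕ) → ℕ → ℕ)
    (h : ∀ z z' n, (∀ i < n, z i = z' i) → Φ z n = Φ z' n) : ∃ z, Φ z = z := by
  let Z : ℕ → ℕ → ℕ := fun n => Φ^[n] (fun _ => 0)
  have hZ : ∀ n, Z (n + 1) = Φ (Z n) := fun n => Function.iterate_succ_apply' _ _ _
  have h1 : ∀ n, ∀ m < n, Z n m = Z (n + 1) m := by
    intro n
    induction n with
    | zero => intro m hm; omega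
    | succ n ih =>
      intro m hm
      rw [hZ n, hZ (n + 1)]
      exact h _ _ m fun i hi => ih i (by omega)
  have h2 : ∀ n k, ∀ m < n, Z n m = Z (n + k) m := by
    intro n k m hm
    induction k with
    | zero => rfl
    | succ k ih => rw [ih, ← add_assoc]; exact h1 (n + k) m (by omega)
  refine ⟨fun n => Z (n + 1) n, funext fun n => ?_⟩
  rw [hZ n]
  refine h _ _ n fun i hi => ?_
  obtain ⟨k, rfl⟩ : ∃ k, n = i + 1 + k := ⟨n - (i + 1), by omega⟩
  exact h2 (i + 1) k i (by omega)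

theorem bor_aux (P : Set (ℕ → ℕ)) (F : (ℕ → ℕ → Prop) → ℕ → ℕ)
    (hF : ∀ G, F G ∈ P ↔ ∃ I : Set ℕ, I.Infinite ∧ ∀ i ∈ I, ∀ n ∈ I, i < n → G i n)
    (hloc : ∀ G G' n, (∀ i j, i < j → j ≤ n → (G i j ↔ G' i j)) → F G n = F G' n)
    (S : Set (ℕ → ℕ)) (hS : AnalyticSet S) : ∃ Φ : (ℕ → ℕ) → ℕ → ℕ,
      (∀ z z' n, (∀ i < n, z i = z' i) → Φ z n = Φ z' n) ∧ Φ ⁻¹' P = S := by
  rw [AnalyticSet] at hS
  rcases hS with rfl | ⟨f, hf, rfl⟩
  · refine ⟨fun _ => F fun _ _ => False, fun _ _ _ _ => rfl, ?_⟩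
    ext z
    rw [Set.mem_preimage, hF]
    constructor
    · rintro ⟨I, hI, hc⟩
      obtain ⟨a, ha⟩ := hI.nonempty
      obtain ⟨b, hb, hab⟩ := hI.exists_gt a
      exact (hc a ha b hb hab).elim
    · intro h
      exact absurd h (Set.notMem_empty _)
  · refine ⟨fun z => F (borG f z), fun z z' n h => hloc _ _ n fun i j hij hj =>
      borG_congr h i j hij hj, ?_⟩
    ext z
    rw [Set.mem_preimage, hF, borG_iff hf]

theorem complete (P : Set (ℕ → ℕ)) (F : (ℕ → ℕ → Prop) → ℕ → ℕ)
    (hF : ∀ G, F G ∈ P ↔ ∃ I : Set ℕ, I.Infinite ∧ ∀ i ∈ I, ∀ n ∈ I, i < n → G i n)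
    (hloc : ∀ G G' n, (∀ i j, i < j → j ≤ n → (G i j ↔ G' i j)) → F G n = F G' n) :
    (∀ S : Set (ℕ → ℕ), AnalyticSet S → ∃ Φ : (ℕ → ℕ) → ℕ → ℕ, Continuous Φ ∧ Φ ⁻¹' P = S) ∧
      ¬ @MeasurableSet (ℕ → ℕ) (borel (ℕ → ℕ)) P := by
  refine ⟨fun S hS => ?_, fun hP => ?_⟩
  · obtain ⟨Φ, h1, h2⟩ := bor_aux P F hF hloc S hS
    exact ⟨Φ, bor_continuous Φ h1, h2⟩
  · have hP' : MeasurableSet P := by
      rw [BorelSpace.measurable_eq (α := ℕ → ℕ)]
      exact hP
    obtain ⟨Φ, h1, h2⟩ := bor_aux P F hF hloc Pᶜ hP'.compl.analyticSet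
    obtain ⟨z, hz⟩ := bor_fixed Φ h1
    have h3 : z ∈ P ↔ z ∈ Pᶜ := by
      conv_lhs => rw [← hz]
      rw [← h2]
      rfl
    by_cases h : z ∈ P
    · exact (h3.1 h) h
    · exact h (h3.2 h)

end Pool.Agent.Helper79.CF
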