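import Pool.Agent.Helper79.CF.Defs

/-!
# Construction of the two contexts
-/

namespace Pool.Agent.Helper79.CF

section BUILD

variable {S : Steps} {K : Type*}

/-- the word after a real step -/
private def BUILDV (S : Steps) (h : ℕ → K) (k : ℕ) (U : ℕ → K) (i : ℕ) : K :=
  if i < S.p k then U i else if i = S.p k ∧ S.ε k = 1 then h k else U (S.M k + i - S.L k)

/-- the word after a padding step, `l` is the length -/
private def BUILDP (C : K) (l : ℕ) (V : ℕ → K) (i : ℕ) : K :=
  if i + 1 < l then V i else if i + 1 = l then C else V (i + 1 - l)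

private def BUILDU (S : Steps) (h : ℕ → K) (A B C : K) : ℕ → ℕ → K
  | 0 => fun i => if i = 0 then A else if i = 1 then C else B
  | k + 1 => BUILDP C (2 * S.L k - 1) (BUILDP C (S.L k) (BUILDV S h k (BUILDU S h A B C k)))

private lemma BUILD_num (hS : S.Ok) (k : ℕ) : k + 5 ≤ S.L k ∧ S.p k + 3 ≤ S.L k ∧
    S.q k + 3 ≤ S.L k ∧ S.p k ≤ S.M k ∧ S.q k ≤ S.M k ∧ k < S.p k ∧ k < S.q k := by
  have hL : ∀ k, S.L k = S.p k + S.q k + S.ε k := fun _ => rfl
  induction k with
  | zero =>
    have h1 := hS.hp 0
    have h2 := hS.hq 0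
    have h3 := hS.M0
    have h4 := hS.a0
    have h5 := hS.b0
    have h6 := hS.e0
    have h7 := hL 0
    omega
  | succ k ih =>
    have h1 := hS.hp (k + 1)
    have h2 := hS.hq (k + 1)
    have h3 := hS.hM k
    have h4 := hS.ha k
    have h5 := hS.hb k
    have h7 := hL (k + 1)
    omega

private lemma BUILD_next (hS : S.Ok) (k : ℕ) : 3 * S.L k ≤ S.p (k + 1) + 1 ∧
    3 * S.L k ≤ S.q (k + 1) + 1 ∧ S.M (k + 1) + 3 = 4 * S.L k := by
  have h1 := hS.hp (k + 1)
  have h2 := hS.hq (k + 1)
  have h3 := hS.hM k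
  have h4 := hS.ha k
  have h5 := hS.hb k
  omega

theorem build {K : Type*} (hS : S.Ok) (h : ℕ → K) (A B C : K) :
    ∃ y x : ℕ → K, Sym S y x ∧ y 0 = A ∧ x 0 = B ∧ y 1 = C ∧
      (∀ k, S.ε k = 1 → y (S.p k) = h k) ∧ (∀ k r, r + 1 = S.L k → y r = C) ∧
      (∀ k r, r + 2 = 2 * S.L k → y r = C) := by
  have hL : ∀ k, S.L k = S.p k + S.q k + S.ε k := fun _ => rfl
  set U := BUILDU S h A B C with hU
  set V := fun k => BUILDV S h k (U k) with hV
  set V' := fun k => BUILDP C (S.L k) (V k) with hV'
  have U0 : ∀ i, U 0 i = if i = 0 then A else if i = 1 then C else B := fun i => rfl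
  have U1 : ∀ k i, U (k + 1) i = BUILDP C (2 * S.L k - 1) (V' k) i := fun k i => rfl
  have V0 : ∀ k i, V k i = if i < S.p k then U k i else if i = S.p k ∧ S.ε k = 1 then h k else
    U k (S.M k + i - S.L k) := fun k i => rfl
  have V1 : ∀ k i, V' k i = if i + 1 < S.L k then V k i else if i + 1 = S.L k then C else
    V k (i + 1 - S.L k) := fun k i => rfl
  -- prefixes
  have a1 : ∀ k i, i < S.p k → V k i = U k i := fun k i hi => by rw [V0, if_pos hi]
  have a2 : ∀ k i, i + 1 < S.L k → V' k i = V k i := fun k i hi => by rw [V1, if_pos hi]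
  have a3 : ∀ k i, i + 2 < 2 * S.L k → U (k + 1) i = V' k i := fun k i hi => by
    rw [U1]; unfold BUILDP; rw [if_pos (by omega)]
  -- suffixes
  have b1 : ∀ k i i', i' < S.q k → i + i' + 1 = S.M k → ∀ r, r + i' + 1 = S.L k →
      V k r = U k i := by
    intro k i i' hi' hi r hr
    have n1 := BUILD_num hS k
    have n2 := hL k
    have n3 := hS.eps k
    rw [V0, if_neg (by omega), if_neg (by omega)]
    congr 1
    omega
  have b2 : ∀ k i i', i' + 1 < S.L k → i + i' + 1 = S.L k → ∀ r, r + i' + 2 = 2 * S.L k →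
      V' k r = V k i := by
    intro k i i' hi' hi r hr
    rw [V1, if_neg (by omega), if_neg (by omega)]
    congr 1
    omega
  have b3 : ∀ k i i', i' + 2 < 2 * S.L k → i + i' + 2 = 2 * S.L k →
      ∀ r, r + i' + 1 = S.M (k + 1) → U (k + 1) r = V' k i := by
    intro k i i' hi' hi r hr
    have n2 := BUILD_next hS k
    rw [U1]
    unfold BUILDP
    rw [if_neg (by omega), if_neg (by omega)]
    congr 1
    omega
  -- stability
  have st1 : ∀ k k' i, k ≤ k' → i < S.p k → U k' i = U k i := by
    intro k k' i hk hi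
    induction k', hk using Nat.le_induction with
    | base => rfl
    | succ n hn ih =>
      have n0 : S.p k ≤ S.p n := by
        clear ih
        induction n, hn using Nat.le_induction with
        | base => exact le_rfl
        | succ n hn ih =>
          have := BUILD_num hS n
          have := BUILD_next hS n
          omega
      have n1 := BUILD_num hS n
      rw [a3 n i (by omega), a2 n i (by omega), a1 n i (by omega), ih]
  have mono : ∀ k k', k ≤ k' → S.q k ≤ S.q k' := by
    intro k k' hk
    induction k', hk using Nat.le_induction with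
    | base => exact le_rfl
    | succ n hn ih =>
      have := BUILD_num hS n
      have := BUILD_next hS n
      omega
  have st2 : ∀ k k' i', k ≤ k' → i' < S.q k → ∀ i r, i + i' + 1 = S.M k → r + i' + 1 = S.M k' →
      U k' r = U k i := by
    intro k k' i' hk hi'
    induction k', hk using Nat.le_induction with
    | base =>
      intro i r h1 h2
      congr 1
      omega
    | succ n hn ih =>
      intro i r h1 h2
      have n1 := BUILD_num hS n
      have n2 := BUILD_next hS n
      have n3 := mono k n hn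
      rw [b3 n (2 * S.L n - 2 - i') i' (by omega) (by omega) r h2,
        b2 n (S.L n - 1 - i') i' (by omega) (by omega) _ (by omega),
        b1 n (S.M n - 1 - i') i' (by omega) (by omega) _ (by omega)]
      exact ih i _ h1 (by omega)
  set y : ℕ → K := fun i => U i i with hy
  set x : ℕ → K := fun i => U i (S.M i - 1 - i) with hx
  have Y1 : ∀ k i, i < S.p k → y i = U k i := by
    intro k i hi
    show U i i = U k i
    rcases le_total k i with h1 | h1
    · exact st1 k i i h1 hi
    · exact (st1 i k i h1 (BUILD_num hS i).2.2.2.2.2.1).symm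
  have X1 : ∀ k i' r, i' < S.q k → r + i' + 1 = S.M k → x i' = U k r := by
    intro k i' r hi hr
    have n1 := BUILD_num hS i'
    show U i' (S.M i' - 1 - i') = U k r
    rcases le_total k i' with h1 | h1
    · exact st2 k i' i' h1 hi r _ hr (by omega)
    · exact (st2 i' k i' h1 n1.2.2.2.2.2.2 _ r (by omega) hr).symm
  have Y3 : ∀ k i, i + 2 < 2 * S.L k → y i = V' k i := by
    intro k i hi
    have n1 := BUILD_num hS k
    have n2 := BUILD_next hS k
    rw [Y1 (k + 1) i (by omega), a3 k i hi]
  have Y2 : ∀ k i, i + 1 < S.L k → y i = V k i := by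
    intro k i hi
    rw [Y3 k i (by omega), a2 k i hi]
  have X3 : ∀ k i' i, i' + 2 < 2 * S.L k → i + i' + 2 = 2 * S.L k → x i' = V' k i := by
    intro k i' i hi' hi
    have n1 := BUILD_num hS k
    have n2 := BUILD_next hS k
    rw [X1 (k + 1) i' (S.M (k + 1) - 1 - i') (by omega) (by omega),
      b3 k i i' hi' hi _ (by omega)]
  have X2 : ∀ k i' i, i' + 1 < S.L k → i + i' + 1 = S.L k → x i' = V k i := by
    intro k i' i hi' hi
    rw [X3 k i' (2 * S.L k - 2 - i') (by omega) (by omega), b2 k i i' hi' hi _ (by omega)]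
  have p0 := hS.hp 0
  have q0 := hS.hq 0
  have M0 := hS.M0
  have c0 := hS.a0
  have d0 := hS.b0
  refine ⟨y, x, ⟨?_, ?_, ?_⟩, ?_, ?_, ?_, ?_, ?_, ?_⟩
  · intro k i i' h1 h2 h3
    rw [Y1 k i h1, X1 k i' i h2 h3]
  · intro k i i' h1 h2 h3
    rw [Y2 k i (by omega), X2 k i' i (by omega) h3]
  · intro k i i' h1 h2 h3
    rw [Y3 k i (by omega), X3 k i' i (by omega) h3]
  · rw [Y1 0 0 (by omega), U0, if_pos rfl]
  · rw [X1 0 0 2 (by omega) (by omega), U0, if_neg (by omega), if_neg (by omega)]
  · rw [Y1 0 1 (by omega), U0, if_neg (by omega), if_pos rfl]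
  · intro k hk
    have n1 := BUILD_num hS k
    rw [Y2 k (S.p k) (by omega), V0, if_neg (by omega), if_pos ⟨rfl, hk⟩]
  · intro k r hr
    have n1 := BUILD_num hS k
    rw [Y3 k r (by omega), V1, if_neg (by omega), if_pos hr]
  · intro k r hr
    have n1 := BUILD_num hS k
    have n2 := BUILD_next hS k
    rw [Y1 (k + 1) r (by omega), U1]
    unfold BUILDP
    rw [if_neg (by omega), if_pos (by omega)]

end BUILD

end Pool.Agent.Helper79.CF
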