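import Pool.Agent.Helper79.CF.Defs

/-!
Counting factors containing the letter `none` (module COUNTA of MP_7c7486_co).
-/

namespace Pool.Agent.Helper79.CF

open Filter Topology MeasureTheory

section Count
variable {K : Type*}

/-- The factor of length `n` at `i`. -/
def COUNTA_w (u : ℕ → Option K) (n i : ℕ) : Fin n → Option K := fun j => u (i + j)

theorem COUNTA_w_eq {u : ℕ → Option K} {n i i' : ℕ} :
    COUNTA_w u n i = COUNTA_w u n i' ↔ EqW u n i i' := by
  constructor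
  · intro h r hr
    exact congrFun h ⟨r, hr⟩
  · intro h
    funext j
    exact h j j.2

theorem COUNTA_init (u : ℕ → Option K) (n i : ℕ) :
    (fun j : Fin n => COUNTA_w u (n + 1) i j.castSucc) = COUNTA_w u n i := by
  funext j
  rfl

/-- Words of length `n` without `none`, followed by `none`. -/
def COUNTA_E (u : ℕ → Option K) (n : ℕ) : Set (Fin n → Option K) :=
  {v | ∃ i, Cls u n i ∧ v = COUNTA_w u n i}

/-- Factors of length `n + 1` with `none` among the first `n` letters. -/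
def COUNTA_A (u : ℕ → Option K) (n : ℕ) : Set (Fin (n + 1) → Option K) :=
  {v | ∃ i, (∃ r < n, u (i + r) = none) ∧ v = COUNTA_w u (n + 1) i}

/-- Factors of length `n + 1` with `none` only at the end. -/
def COUNTA_B (u : ℕ → Option K) (n : ℕ) : Set (Fin (n + 1) → Option K) :=
  {v | ∃ i, Cls u n i ∧ v = COUNTA_w u (n + 1) i}

theorem COUNTA_mem_NF {u : ℕ → Option K} {n : ℕ} {v : Fin n → Option K} :
    v ∈ NF u n ↔ ∃ i, (∃ r < n, u (i + r) = none) ∧ v = COUNTA_w u n i := by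
  constructor
  · rintro ⟨⟨i, rfl⟩, j, hj⟩
    exact ⟨i, ⟨j, j.2, hj⟩, rfl⟩
  · rintro ⟨i, ⟨r, hr, hr'⟩, rfl⟩
    exact ⟨⟨i, rfl⟩, ⟨r, hr⟩, hr'⟩

theorem COUNTA_union (u : ℕ → Option K) (n : ℕ) :
    NF u (n + 1) = COUNTA_A u n ∪ COUNTA_B u n := by
  ext v
  rw [COUNTA_mem_NF]
  constructor
  · rintro ⟨i, ⟨r, hr, hr'⟩, rfl⟩
    by_cases h : ∃ r < n, u (i + r) = none
    · exact Or.inl ⟨i, h, rfl⟩
    · push Not at h
      right
      have hrn : r = n := by
        by_contra hne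
        exact h r (by omega) hr'
      subst hrn
      exact ⟨i, ⟨h, hr'⟩, rfl⟩
  · rintro (⟨i, ⟨r, hr, hr'⟩, rfl⟩ | ⟨i, ⟨h1, h2⟩, rfl⟩)
    · exact ⟨i, ⟨r, by omega, hr'⟩, rfl⟩
    · exact ⟨i, ⟨n, by omega, h2⟩, rfl⟩

theorem COUNTA_disj (u : ℕ → Option K) (n : ℕ) : Disjoint (COUNTA_A u n) (COUNTA_B u n) := by
  rw [Set.disjoint_left]
  rintro v ⟨i, ⟨r, hr, hr'⟩, rfl⟩ ⟨i', ⟨h1, h2⟩, h3⟩
  have h4 := congrFun h3 ⟨r, by omega⟩
  have h5 : u (i + r) = u (i' + r) := h4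
  exact h1 r hr (h5 ▸ hr')

variable [Finite K]

omit [Finite K] in
theorem COUNTA_card_B (u : ℕ → Option K) (n : ℕ) :
    (COUNTA_B u n).ncard = (COUNTA_E u n).ncard := by
  apply Set.ncard_congr (fun v _ => fun j : Fin n => v j.castSucc)
  · rintro _ ⟨i, hi, rfl⟩
    exact ⟨i, hi, COUNTA_init u n i⟩
  · rintro _ _ ⟨i, hi, rfl⟩ ⟨i', hi', rfl⟩ h
    rw [COUNTA_w_eq]
    intro r hr
    by_cases hrn : r < n
    · exact congrFun h ⟨r, hrn⟩
    · have : r = n := by omega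
      subst this
      rw [hi.2, hi'.2]
  · rintro _ ⟨i, hi, rfl⟩
    exact ⟨COUNTA_w u (n + 1) i, ⟨i, hi, rfl⟩, COUNTA_init u n i⟩

theorem COUNTA_card (u : ℕ → Option K) (n : ℕ) :
    gw u (n + 1) = (COUNTA_A u n).ncard + (COUNTA_E u n).ncard := by
  rw [gw, COUNTA_union, Set.ncard_union_eq (COUNTA_disj u n) (Set.toFinite _) (Set.toFinite _),
    COUNTA_card_B]

omit [Finite K] in
theorem COUNTA_image (u : ℕ → Option K) (n : ℕ) :
    (fun v : Fin (n + 1) → Option K => fun j : Fin n => v j.castSucc) '' (COUNTA_A u n) =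
      NF u n := by
  ext v
  rw [COUNTA_mem_NF]
  constructor
  · rintro ⟨_, ⟨i, hi, rfl⟩, rfl⟩
    exact ⟨i, hi, COUNTA_init u n i⟩
  · rintro ⟨i, hi, rfl⟩
    exact ⟨_, ⟨i, hi, rfl⟩, COUNTA_init u n i⟩

theorem COUNTA_le_A (u : ℕ → Option K) (n : ℕ) : gw u n ≤ (COUNTA_A u n).ncard := by
  rw [gw, ← COUNTA_image]
  exact Set.ncard_image_le (Set.toFinite _)

theorem COUNTA_injOn_iff (u : ℕ → Option K) (n : ℕ) :
    Set.InjOn (fun v : Fin (n + 1) → Option K => fun j : Fin n => v j.castSucc) (COUNTA_A u n) ↔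
      F2 u n := by
  constructor
  · intro h i i' he hr
    have hr' : ∃ r < n, u (i' + r) = none := by
      obtain ⟨r, h1, h2⟩ := hr
      exact ⟨r, h1, by rw [← he r h1]; exact h2⟩
    have h1 := h (x₁ := COUNTA_w u (n + 1) i) ⟨i, hr, rfl⟩ (x₂ := COUNTA_w u (n + 1) i')
      ⟨i', hr', rfl⟩ (by
        change (fun j : Fin n => COUNTA_w u (n + 1) i j.castSucc) =
          (fun j : Fin n => COUNTA_w u (n + 1) i' j.castSucc)
        rw [COUNTA_init, COUNTA_init]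
        exact COUNTA_w_eq.mpr he)
    exact COUNTA_w_eq.mp h1 n (by omega)
  · rintro h _ ⟨i, hi, rfl⟩ _ ⟨i', hi', rfl⟩ he
    have he' : EqW u n i i' := by
      rw [← COUNTA_w_eq, ← COUNTA_init, ← COUNTA_init]
      exact he
    rw [COUNTA_w_eq]
    intro r hr
    by_cases hrn : r < n
    · exact he' r hrn
    · have : r = n := by omega
      subst this
      exact h i i' he' hi

theorem COUNTA_A_of_F2 {u : ℕ → Option K} {n : ℕ} (h : F2 u n) :
    (COUNTA_A u n).ncard = gw u n := by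
  rw [gw, ← COUNTA_image]
  exact ((COUNTA_injOn_iff u n).mpr h).ncard_image.symm

theorem COUNTA_E_pos {u : ℕ → Option K} {n : ℕ} (ho : ∃ i, Cls u n i) :
    1 ≤ (COUNTA_E u n).ncard := by
  obtain ⟨i, hi⟩ := ho
  exact (Set.ncard_pos (Set.toFinite _)).mpr ⟨_, i, hi, rfl⟩

theorem COUNTA_E_of_F1 {u : ℕ → Option K} {n : ℕ} (ho : ∃ i, Cls u n i) (h : F1 u n) :
    (COUNTA_E u n).ncard = 1 := by
  apply le_antisymm _ (COUNTA_E_pos ho)
  rw [Set.ncard_le_one (Set.toFinite _)]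
  rintro _ ⟨i, hi, rfl⟩ _ ⟨i', hi', rfl⟩
  exact COUNTA_w_eq.mpr (h i i' hi hi')

theorem cnt_one {u : ℕ → Option K} {n : ℕ} (ho : ∃ i, Cls u n i)
    (h : gw u (n + 1) = gw u n + 1) : F1 u n ∧ F2 u n := by
  have h1 := COUNTA_card u n
  have h2 := COUNTA_le_A u n
  have h3 := COUNTA_E_pos ho
  have h4 : (COUNTA_E u n).ncard = 1 := by omega
  have h5 : (COUNTA_A u n).ncard = gw u n := by omega
  constructor
  · intro i i' hi hi'
    rw [← COUNTA_w_eq]
    exact (Set.ncard_le_one (Set.toFinite _)).mp h4.le _ ⟨i, hi, rfl⟩ _ ⟨i', hi', rfl⟩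
  · rw [← COUNTA_injOn_iff]
    apply (Set.ncard_image_iff (Set.toFinite _)).mp
    rw [COUNTA_image]
    exact h5.symm

theorem COUNTA_A_of_coll {u : ℕ → Option K} {n : ℕ} {i i' : ℕ} (hc : Coll u n i i')
    (h : ∀ j j', Coll u n j j' → EqW u (n + 1) j i ∨ EqW u (n + 1) j i') :
    (COUNTA_A u n).ncard = gw u n + 1 := by
  classical
  obtain ⟨h1, hr, h3⟩ := hc
  have hr' : ∃ r < n, u (i' + r) = none := by
    obtain ⟨r, h1', h2⟩ := hr
    exact ⟨r, h1', by rw [← h1 r h1']; exact h2⟩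
  let f : (Fin (n + 1) → Option K) → (Fin n → Option K) := fun v j => v j.castSucc
  let v0 := COUNTA_w u (n + 1) i
  let v1 := COUNTA_w u (n + 1) i'
  have hv0 : v0 ∈ COUNTA_A u n := ⟨i, hr, rfl⟩
  have hv1 : v1 ∈ COUNTA_A u n := ⟨i', hr', rfl⟩
  have hne : v0 ≠ v1 := fun he => h3 (COUNTA_w_eq.mp he n (by omega))
  have hf : f v0 = f v1 := by
    change (fun j : Fin n => COUNTA_w u (n + 1) i j.castSucc) =
      (fun j : Fin n => COUNTA_w u (n + 1) i' j.castSucc)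
    rw [COUNTA_init, COUNTA_init]
    exact COUNTA_w_eq.mpr h1
  have hcoll : ∀ a ∈ COUNTA_A u n, ∀ b ∈ COUNTA_A u n, f a = f b → a ≠ b → a = v0 ∨ a = v1 := by
    rintro _ ⟨j, hj, rfl⟩ _ ⟨j', hj', rfl⟩ he hab
    have he' : EqW u n j j' := by
      rw [← COUNTA_w_eq, ← COUNTA_init, ← COUNTA_init]
      exact he
    have hlast : u (j + n) ≠ u (j' + n) := by
      intro hl
      apply hab
      rw [COUNTA_w_eq]
      intro r hr
      by_cases hrn : r < n
      · exact he' r hrn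
      · have : r = n := by omega
        subst this
        exact hl
    rcases h j j' ⟨he', hj, hlast⟩ with h5 | h5
    · exact Or.inl (COUNTA_w_eq.mpr h5)
    · exact Or.inr (COUNTA_w_eq.mpr h5)
  have hinj : Set.InjOn f (COUNTA_A u n \ {v1}) := by
    rintro a ⟨ha, ha1⟩ b ⟨hb, hb1⟩ he
    by_contra hab
    rcases hcoll a ha b hb he hab with h5 | h5
    · rcases hcoll b hb a ha he.symm (Ne.symm hab) with h6 | h6
      · exact hab (h5.trans h6.symm)
      · exact hb1 h6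
    · exact ha1 h5
  have himg : f '' (COUNTA_A u n \ {v1}) = NF u n := by
    rw [← COUNTA_image]
    apply Set.Subset.antisymm
    · rintro _ ⟨a, ha, rfl⟩
      exact ⟨a, ha.1, rfl⟩
    · rintro _ ⟨a, ha, rfl⟩
      by_cases ha1 : a = v1
      · subst ha1
        exact ⟨v0, ⟨hv0, hne⟩, hf⟩
      · exact ⟨a, ⟨ha, ha1⟩, rfl⟩
  have h6 : (COUNTA_A u n \ {v1}).ncard = gw u n := by
    rw [gw, ← himg]
    exact (hinj.ncard_image).symm
  have h7 := Set.ncard_sdiff_singleton_add_one hv1 (Set.toFinite _)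
  omega

theorem cnt_gen (u : ℕ → Option K) (n : ℕ) (R E : Prop) [Decidable R] [Decidable E]
    (ho : ∃ i, Cls u n i) (hE0 : ¬ E → F1 u n)
    (hE1 : E → ∃ i i', Cls u n i ∧ Cls u n i' ∧ ¬ EqW u n i i' ∧
      ∀ j, Cls u n j → EqW u n j i ∨ EqW u n j i')
    (hR0 : ¬ R → F2 u n)
    (hR1 : R → ∃ i i', Coll u n i i' ∧
      ∀ j j', Coll u n j j' → EqW u (n + 1) j i ∨ EqW u (n + 1) j i') :
    gw u (n + 1) = gw u n + (1 + (if R then 1 else 0) + (if E then 1 else 0)) := by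
  rw [COUNTA_card]
  have hA : (COUNTA_A u n).ncard = gw u n + (if R then 1 else 0) := by
    by_cases hR : R
    · rw [if_pos hR]
      obtain ⟨i, i', hc, h⟩ := hR1 hR
      exact COUNTA_A_of_coll hc h
    · rw [if_neg hR, add_zero]
      exact COUNTA_A_of_F2 (hR0 hR)
  have hB : (COUNTA_E u n).ncard = 1 + (if E then 1 else 0) := by
    by_cases hE : E
    · rw [if_pos hE]
      obtain ⟨i, i', h1, h2, h3, h4⟩ := hE1 hE
      have : COUNTA_E u n = {COUNTA_w u n i, COUNTA_w u n i'} := by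
        ext v
        constructor
        · rintro ⟨j, hj, rfl⟩
          rcases h4 j hj with h5 | h5
          · exact Or.inl (COUNTA_w_eq.mpr h5)
          · exact Or.inr (COUNTA_w_eq.mpr h5)
        · rintro (rfl | rfl)
          · exact ⟨i, h1, rfl⟩
          · exact ⟨i', h2, rfl⟩
      rw [this, Set.ncard_pair (fun h => h3 (COUNTA_w_eq.mp h))]
    · rw [if_neg hE, add_zero]
      exact COUNTA_E_of_F1 ho (hE0 hE)
  rw [hA, hB]
  ring

theorem cnt_le {u : ℕ → Option K} {n : ℕ} (h2 : F2 u n) (i i' : ℕ)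
    (h : ∀ j, Cls u n j → EqW u n j i ∨ EqW u n j i') : gw u (n + 1) ≤ gw u n + 2 := by
  rw [COUNTA_card, COUNTA_A_of_F2 h2]
  have h3 : COUNTA_E u n ⊆ {COUNTA_w u n i, COUNTA_w u n i'} := by
    rintro _ ⟨j, hj, rfl⟩
    rcases h j hj with h5 | h5
    · exact Or.inl (COUNTA_w_eq.mpr h5)
    · exact Or.inr (COUNTA_w_eq.mpr h5)
  have h4 := Set.ncard_le_ncard h3 (Set.toFinite _)
  have h5 := Set.ncard_insert_le (COUNTA_w u n i) {COUNTA_w u n i'}
  rw [Set.ncard_singleton] at h5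
  omega

end Count

end Pool.Agent.Helper79.CF
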