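import Pool.Agent.Helper79.CF.Defs

/-!
Module COUNTB: the numbers of the factors with and without `none`.
-/

namespace Pool.Agent.Helper79.CF

section Count
variable {K : Type*} [Finite K]

theorem gw_zero (u : ℕ → Option K) : gw u 0 = 0 := by
  have : NF u 0 = ∅ := by
    ext v
    simp only [NF, Set.mem_setOf_eq, Set.mem_empty_iff_false, iff_false, not_and]
    rintro - ⟨i, -⟩
    exact i.elim0
  rw [gw, this, Set.ncard_empty]

theorem inf_of_gw {u : ℕ → Option K} (h : ∀ n, n ≤ gw u n) : Inf u := by
  intro N
  by_contra hN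
  push Not at hN
  have h1 : NF u (N + 1) ⊆ (fun i : ℕ => fun j : Fin (N + 1) => u (i + j)) ''
      (Finset.range N : Set ℕ) := by
    rintro v ⟨⟨i, rfl⟩, ⟨r, hr⟩⟩
    refine ⟨i, ?_, rfl⟩
    simp only [Finset.coe_range, Set.mem_Iio]
    by_contra hi
    exact hN (i + r) (by omega) hr
  have h2 : gw u (N + 1) ≤ N := by
    refine (Set.ncard_le_ncard h1 (Set.toFinite _)).trans ?_
    refine (Set.ncard_image_le (Set.toFinite _)).trans ?_
    rw [Set.ncard_coe_finset, Finset.card_range]
  have := h (N + 1)
  omega

end Count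

theorem card_factors {k : ℕ} (u : ℕ → Option (Fin k))
    (hK : ∀ n (v : Fin n → Fin k), (fun i => some (v i)) ∈ factors u n) (n : ℕ) :
    complexity u n = k ^ n + gw u n := by
  have h1 : factors u n = (Set.range fun v : Fin n → Fin k => fun i => some (v i)) ∪ NF u n := by
    ext w
    constructor
    · intro hw
      by_cases hn : ∃ i, w i = none
      · exact Or.inr ⟨hw, hn⟩
      · push Not at hn
        left
        refine ⟨fun i => (w i).get (Option.isSome_iff_ne_none.2 (hn i)), ?_⟩
        funext i
        exact Option.some_get _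
    · rintro (⟨v, rfl⟩ | hw)
      · exact hK n v
      · exact hw.1
  have h2 : Disjoint (Set.range fun v : Fin n → Fin k => fun i => some (v i)) (NF u n) := by
    rw [Set.disjoint_left]
    rintro w ⟨v, rfl⟩ ⟨-, i, hi⟩
    simp at hi
  rw [complexity, h1, Set.ncard_union_eq h2 (Set.toFinite _) (Set.toFinite _), gw]
  congr 1
  have h3 : Function.Injective (fun v : Fin n → Fin k => fun i => some (v i)) := by
    intro v w h
    funext i
    exact Option.some_injective _ (congrFun h i)
  rw [← Set.image_univ, Set.ncard_image_of_injective _ h3, Set.ncard_univ, Nat.card_eq_fintype_card,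
    Fintype.card_fun, Fintype.card_fin, Fintype.card_fin]

theorem run_of_full {k : ℕ} (u : ℕ → Option (Fin k)) (hk : 0 < k)
    (hK : ∀ n (v : Fin n → Fin k), (fun i => some (v i)) ∈ factors u n) : Run u := by
  intro N M
  obtain ⟨i, hi⟩ := hK (N + M) (fun _ => ⟨0, hk⟩)
  refine ⟨i + M, by omega, fun r hr => ?_⟩
  have := congrFun hi ⟨M + r, by omega⟩
  simp only at this
  rw [show i + M + r = i + (M + r) by omega, this]
  simp

end Pool.Agent.Helper79.CF
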