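import Pool.Agent.Helper79.CF.Defs

/-! Module ENCE: the words without `none` which are followed by `none`. -/

namespace Pool.Agent.Helper79.CF

section Enc
variable {K : Type*} {D : Data} {y x : ℕ → K} {u : ℕ → Option K} {T : ℕ → ℕ}

theorem ENCE_end (hD : D.Good) (j : ℕ) : D.m j ≤ D.p j + D.Q j + 1 := by
  cases j with
  | zero =>
    have h0 := hD.m0
    have h1 : D.Q 0 = 0 := rfl
    omega
  | succ j =>
    have := hD.mp j
    omega

theorem ENCE_mono (hD : D.Good) (j i : ℕ) : D.m j + 1 ≤ D.q (j + 1 + i) := by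
  induction i with
  | zero =>
    have h1 := hD.growq j
    have h2 := ENCE_end hD j
    simp only [Nat.add_zero]
    omega
  | succ i ih =>
    have h2 := hD.growq (j + 1 + i)
    have h3 := hD.reach (j + 1 + i)
    rw [show j + 1 + (i + 1) = j + 1 + i + 1 by omega]
    omega

theorem ENCE_pos (hw : Wd D y x u T) (t : ℕ) :
    (∃ j, t = T j) ∨ ∃ j i, i < D.m j ∧ t = T j + 1 + i := by
  induction t with
  | zero => exact Or.inl ⟨0, hw.T0.symm⟩
  | succ t ih =>
    rcases ih with ⟨j, rfl⟩ | ⟨j, i, hi, rfl⟩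
    · rcases Nat.eq_zero_or_pos (D.m j) with h | h
      · left
        exact ⟨j + 1, by rw [hw.Ts j, h]⟩
      · exact Or.inr ⟨j, 0, h, rfl⟩
    · by_cases h : i + 1 < D.m j
      · exact Or.inr ⟨j, i + 1, h, by omega⟩
      · left
        exact ⟨j + 1, by rw [hw.Ts j]; omega⟩

theorem ENCE_none (hw : Wd D y x u T) {t : ℕ} (ht : u t = none) : ∃ j, t = T j := by
  rcases ENCE_pos hw t with h | ⟨j, i, hi, rfl⟩
  · exact h
  · rw [hw.ug j i hi] at ht
    exact absurd ht (by simp)

/-- Shape of a class. -/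
theorem ENCE_cls (hw : Wd D y x u T) {n i : ℕ} (h : Cls u n i) :
    n = 0 ∨ ∃ j, n ≤ D.m j ∧ i = T j + 1 + (D.m j - n) := by
  obtain ⟨h1, h2⟩ := h
  obtain ⟨j, hj⟩ := ENCE_none hw h2
  cases j with
  | zero =>
    rw [hw.T0] at hj
    left
    omega
  | succ j =>
    right
    have h3 := hw.Ts j
    have h4 : T j < i := by
      by_contra hcon
      push Not at hcon
      refine h1 (T j - i) (by omega) ?_
      rw [show i + (T j - i) = T j by omega]
      exact hw.un j
    exact ⟨j, by omega, by omega⟩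

theorem ENCE_isCls (hw : Wd D y x u T) {n j : ℕ} (h : n ≤ D.m j) :
    Cls u n (T j + 1 + (D.m j - n)) := by
  constructor
  · intro r hr
    rw [show T j + 1 + (D.m j - n) + r = T j + 1 + (D.m j - n + r) by omega,
      hw.ug j _ (by omega)]
    simp
  · rw [show T j + 1 + (D.m j - n) + n = T (j + 1) by rw [hw.Ts j]; omega]
    exact hw.un _

theorem ENCE_std (hs : IsSol D y x) (hw : Wd D y x u T) {n j : ℕ} (h : n ≤ D.q j)
    (hm : n ≤ D.m j) {r : ℕ} (hr : r < n) :
    u (T j + 1 + (D.m j - n) + r) = some (x (n - 1 - r)) := by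
  rw [show T j + 1 + (D.m j - n) + r = T j + 1 + (D.m j - n + r) by omega,
    hw.ug j _ (by omega), gap]
  split_ifs with h1
  · congr 1
    exact hs.sym j _ _ h1 (by omega) (by omega)
  · congr 2
    omega

theorem ENCE_uniq (hD : D.Good) {n j j' : ℕ} (h1 : D.q j < n) (h2 : n ≤ D.m j)
    (h3 : D.q j' < n) (h4 : n ≤ D.m j') : j = j' := by
  rcases lt_trichotomy j j' with h | h | h
  · obtain ⟨r, rfl⟩ := Nat.exists_eq_add_of_le (show j + 1 ≤ j' from h)
    have := ENCE_mono hD j r
    omega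
  · exact h
  · obtain ⟨r, rfl⟩ := Nat.exists_eq_add_of_le (show j' + 1 ≤ j from h)
    have := ENCE_mono hD j' r
    omega

theorem encE (hD : D.Good) (hs : IsSol D y x) (hw : Wd D y x u T) (n : ℕ) :
    (¬ (∃ j, D.q j < n ∧ n ≤ D.m j) → F1 u n) ∧
      ((∃ j, D.q j < n ∧ n ≤ D.m j) → ∃ i i', Cls u n i ∧ Cls u n i' ∧ ¬ EqW u n i i' ∧
        ∀ j, Cls u n j → EqW u n j i ∨ EqW u n j i') := by
  constructor
  · intro hn i i' hi hi'
    rcases ENCE_cls hw hi with rfl | ⟨j, hj, rfl⟩
    · intro r hr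
      omega
    rcases ENCE_cls hw hi' with rfl | ⟨j', hj', rfl⟩
    · intro r hr
      omega
    intro r hr
    have h1 : n ≤ D.q j := by
      by_contra h
      exact hn ⟨j, by omega, hj⟩
    have h2 : n ≤ D.q j' := by
      by_contra h
      exact hn ⟨j', by omega, hj'⟩
    rw [ENCE_std hs hw h1 hj hr, ENCE_std hs hw h2 hj' hr]
  · rintro ⟨j0, h1, h2⟩
    have h3 : n ≤ D.q (j0 + 1) := by
      have := ENCE_mono hD j0 0
      simp only [Nat.add_zero] at this
      omega
    have h4 : n ≤ D.m (j0 + 1) := h3.trans (hD.qm _).le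
    refine ⟨T (j0 + 1) + 1 + (D.m (j0 + 1) - n), T j0 + 1 + (D.m j0 - n), ENCE_isCls hw h4,
      ENCE_isCls hw h2, ?_, ?_⟩
    · intro heq
      have h5 := heq (n - 1 - D.q j0) (by omega)
      rw [ENCE_std hs hw h3 h4 (by omega),
        show T j0 + 1 + (D.m j0 - n) + (n - 1 - D.q j0) = T j0 + 1 + (D.m j0 - 1 - D.q j0) by omega,
        hw.ug j0 _ (by have := hD.qm j0; omega), gap] at h5
      have h6 := hD.mpq j0
      have h7 := hD.qm j0
      have h8 := hD.shortp j0
      rw [if_pos (by omega)] at h5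
      have h9 := Option.some.inj h5
      rw [show n - 1 - (n - 1 - D.q j0) = D.q j0 by omega] at h9
      exact hs.nex j0 (D.m j0 - 1 - D.q j0) (by omega) h9
    · intro i hi
      rcases ENCE_cls hw hi with rfl | ⟨j, hj, rfl⟩
      · left
        intro r hr
        omega
      by_cases h5 : n ≤ D.q j
      · left
        intro r hr
        rw [ENCE_std hs hw h5 hj hr, ENCE_std hs hw h3 h4 hr]
      · right
        have h6 := ENCE_uniq hD (by omega) hj h1 h2
        subst h6
        intro r hr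
        rfl

end Enc

end Pool.Agent.Helper79.CF
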