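import Pool.Agent.Helper79.CF.Defs

/-!
Module ENCR for the problem on factor complexity functions (helper79): the repeated factors with
two different right extensions of the encoded word.
-/

namespace Pool.Agent.Helper79.CF

section EncR
variable {K : Type*} {D : Data} {y x : ℕ → K} {u : ℕ → Option K} {T : ℕ → ℕ}

theorem encR_pmono (hD : D.Good) : StrictMono D.p := strictMono_nat_of_lt_succ fun j => by
  have := hD.growp j
  omega

theorem encR_qmono (hD : D.Good) : StrictMono D.q := strictMono_nat_of_lt_succ fun j => by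
  have := hD.growq j
  have := hD.reach j
  omega

theorem encR_loc (hw : Wd D y x u T) (n : ℕ) : ∃ j, T j ≤ n ∧ n < T (j + 1) := by
  induction n with
  | zero => exact ⟨0, by rw [hw.T0], by rw [hw.Ts]; omega⟩
  | succ n ih =>
    obtain ⟨j, h1, h2⟩ := ih
    by_cases h : n + 1 < T (j + 1)
    · exact ⟨j, by omega, h⟩
    · refine ⟨j + 1, by omega, ?_⟩
      rw [hw.Ts (j + 1)]
      omega

theorem encR_none (hw : Wd D y x u T) {n : ℕ} (h : u n = none) : ∃ j, n = T j := by
  obtain ⟨j, h1, h2⟩ := encR_loc hw n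
  refine ⟨j, ?_⟩
  by_contra hne
  have h3 := hw.Ts j
  obtain ⟨i, hi⟩ : ∃ i, n = T j + 1 + i := ⟨n - T j - 1, by omega⟩
  have h4 := hw.ug j i (by omega)
  rw [← hi, h] at h4
  simp at h4

theorem encR_right (hD : D.Good) (hw : Wd D y x u T) (j s : ℕ) (hs : s < D.p j) :
    u (T j + 1 + s) = some (y s) := by
  rw [hw.ug j s (hs.trans (hD.pm j)), gap, if_pos hs]

theorem encR_right_ne (hD : D.Good) (hs : IsSol D y x) (hw : Wd D y x u T) (j : ℕ) :
    u (T j + 1 + D.p j) ≠ some (y (D.p j)) := by
  have h1 := hD.pm j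
  rw [hw.ug j _ h1, gap, if_neg (lt_irrefl _)]
  intro h
  exact hs.ney j (D.m j - 1 - D.p j) (by omega) (Option.some.inj h).symm

theorem encR_left (hD : D.Good) (hs : IsSol D y x) (hw : Wd D y x u T) (j c i : ℕ)
    (hc : c < D.q j) (hi : i + c + 1 = T (j + 1)) : u i = some (x c) := by
  have h1 := hD.qm j
  have h2 := hw.Ts j
  have h3 : i = T j + 1 + (D.m j - 1 - c) := by omega
  rw [h3, hw.ug j _ (by omega), gap]
  split_ifs with h
  · rw [hs.sym j _ c h hc (by omega)]
  · congr 2
    omega

theorem encR_left_ne (hD : D.Good) (hs : IsSol D y x) (hw : Wd D y x u T) (j i : ℕ)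
    (hi : i + D.q j + 1 = T (j + 1)) : u i ≠ some (x (D.q j)) := by
  have h1 := hD.qm j
  have h2 := hw.Ts j
  have h3 := hD.mpq j
  have h4 : i = T j + 1 + (D.m j - 1 - D.q j) := by omega
  rw [h4, hw.ug j _ (by omega), gap, if_pos (by omega)]
  intro h
  exact hs.nex j _ (by omega) (Option.some.inj h).symm

theorem encR_core (hD : D.Good) (hs : IsSol D y x) (hw : Wd D y x u T) {n i i' o j j' : ℕ}
    (he : EqW u n i i') (hne : u (i + n) ≠ u (i' + n)) (ho : o < n) (hi : i + o = T j)
    (hi' : i' + o = T j') (hj : j < j') : o + 1 + D.p j = n ∧ o ≤ D.Q j := by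
  have hpp := encR_pmono hD hj
  have hA : o + 1 + D.p j = n := by
    rcases lt_trichotomy (o + 1 + D.p j) n with h | h | h
    · exfalso
      have h1 := he (o + 1 + D.p j) h
      rw [show i + (o + 1 + D.p j) = T j + 1 + D.p j by omega,
        show i' + (o + 1 + D.p j) = T j' + 1 + D.p j by omega,
        encR_right hD hw j' _ hpp] at h1
      exact encR_right_ne hD hs hw j h1
    · exact h
    · exfalso
      apply hne
      obtain ⟨l, hl⟩ : ∃ l, n = o + 1 + l := ⟨n - o - 1, by omega⟩
      rw [show i + n = T j + 1 + l by omega, show i' + n = T j' + 1 + l by omega,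
        encR_right hD hw j l (by omega), encR_right hD hw j' l (by omega)]
  refine ⟨hA, ?_⟩
  cases j with
  | zero =>
    rw [hw.T0] at hi
    simp only [Data.Q]
    omega
  | succ j =>
    simp only [Data.Q]
    by_contra hlt
    push Not at hlt
    obtain ⟨r, hr⟩ : ∃ r, r + D.q j + 1 = o := ⟨o - 1 - D.q j, by omega⟩
    obtain ⟨k, rfl⟩ : ∃ k, j' = k + 1 := ⟨j' - 1, by omega⟩
    have h1 := he r (by omega)
    rw [encR_left hD hs hw k (D.q j) (i' + r) (encR_qmono hD (by omega)) (by omega)] at h1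
    exact encR_left_ne hD hs hw j (i + r) (by omega) h1

theorem encR_case (hw : Wd D y x u T) {n i i' : ℕ} (h : Coll u n i i') :
    ∃ o j j', o < n ∧ i + o = T j ∧ i' + o = T j' ∧ j ≠ j' := by
  obtain ⟨h1, ⟨o, ho, h2⟩, h3⟩ := h
  obtain ⟨j, hj⟩ := encR_none hw h2
  obtain ⟨j', hj'⟩ := encR_none hw ((h1 o ho).symm.trans h2)
  refine ⟨o, j, j', ho, hj, hj', ?_⟩
  rintro rfl
  have : i = i' := by omega
  exact h3 (by rw [this])

theorem encR_uniq (hD : D.Good) {n j j' : ℕ} (h1 : D.p j < n) (h2 : n ≤ D.p j + D.Q j + 1)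
    (h3 : D.p j' < n) (h4 : n ≤ D.p j' + D.Q j' + 1) : j = j' := by
  rcases lt_trichotomy j j' with h | h | h
  · have h5 := (encR_pmono hD).monotone (show j + 1 ≤ j' from h)
    have h6 := hD.growp j
    omega
  · exact h
  · have h5 := (encR_pmono hD).monotone (show j' + 1 ≤ j from h)
    have h6 := hD.growp j'
    omega

/-- The words around two letters `none` with numbers greater than `j` agree. -/
theorem encR_same (hD : D.Good) (hs : IsSol D y x) (hw : Wd D y x u T) {i i' o j a b : ℕ}
    (ha : j < a) (hb : j < b) (hi : i + o = T a) (hi' : i' + o = T b) (ho : o ≤ D.Q j) :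
    EqW u (o + 1 + D.p j + 1) i i' := by
  intro r hr
  have hpa := encR_pmono hD ha
  have hpb := encR_pmono hD hb
  rcases lt_trichotomy r o with h | h | h
  · cases j with
    | zero =>
      simp only [Data.Q] at ho
      omega
    | succ j =>
      simp only [Data.Q] at ho
      obtain ⟨a, rfl⟩ : ∃ k, a = k + 1 := ⟨a - 1, by omega⟩
      obtain ⟨b, rfl⟩ : ∃ k, b = k + 1 := ⟨b - 1, by omega⟩
      have hqa := encR_qmono hD (show j < a by omega)
      have hqb := encR_qmono hD (show j < b by omega)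
      obtain ⟨c, hc⟩ : ∃ c, r + c + 1 = o := ⟨o - 1 - r, by omega⟩
      rw [encR_left hD hs hw a c (i + r) (by omega) (by omega),
        encR_left hD hs hw b c (i' + r) (by omega) (by omega)]
  · subst h
    rw [hi, hi', hw.un, hw.un]
  · obtain ⟨l, hl⟩ : ∃ l, r = o + 1 + l := ⟨r - o - 1, by omega⟩
    rw [show i + r = T a + 1 + l by omega, show i' + r = T b + 1 + l by omega,
      encR_right hD hw a l (by omega), encR_right hD hw b l (by omega)]

/-- The words around the letter `none` with number `j` and a later one agree. -/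
theorem encR_coll (hD : D.Good) (hs : IsSol D y x) (hw : Wd D y x u T) {i i' o j : ℕ}
    (hi : i + o = T j) (hi' : i' + o = T (j + 1)) (ho : o ≤ D.Q j) :
    Coll u (o + 1 + D.p j) i i' := by
  have hpb : D.p j < D.p (j + 1) := encR_pmono hD (Nat.lt_succ_self j)
  refine ⟨?_, ⟨o, by omega, ?_⟩, ?_⟩
  · intro r hr
    rcases lt_trichotomy r o with h | h | h
    · cases j with
      | zero =>
        simp only [Data.Q] at ho
        omega
      | succ j =>
        simp only [Data.Q] at ho
        have hqb : D.q j < D.q (j + 1) := encR_qmono hD (Nat.lt_succ_self j)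
        obtain ⟨c, hc⟩ : ∃ c, r + c + 1 = o := ⟨o - 1 - r, by omega⟩
        rw [encR_left hD hs hw j c (i + r) (by omega) (by omega),
          encR_left hD hs hw (j + 1) c (i' + r) (by omega) (by omega)]
    · subst h
      rw [hi, hi', hw.un, hw.un]
    · obtain ⟨l, hl⟩ : ∃ l, r = o + 1 + l := ⟨r - o - 1, by omega⟩
      rw [show i + r = T j + 1 + l by omega, show i' + r = T (j + 1) + 1 + l by omega,
        encR_right hD hw j l (by omega), encR_right hD hw (j + 1) l (by omega)]
  · rw [hi, hw.un]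
  · rw [show i + (o + 1 + D.p j) = T j + 1 + D.p j by omega,
      show i' + (o + 1 + D.p j) = T (j + 1) + 1 + D.p j by omega,
      encR_right hD hw (j + 1) _ hpb]
    exact encR_right_ne hD hs hw j

theorem encR_QT (hD : D.Good) (hw : Wd D y x u T) (j : ℕ) : D.Q j ≤ T j := by
  cases j with
  | zero => simp [Data.Q]
  | succ j =>
    have h1 := hw.Ts j
    have h2 := hD.qm j
    simp only [Data.Q]
    omega

theorem encR (hD : D.Good) (hs : IsSol D y x) (hw : Wd D y x u T) (n : ℕ) :
    (¬ (∃ j, D.p j < n ∧ n ≤ D.p j + D.Q j + 1) → F2 u n) ∧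
      ((∃ j, D.p j < n ∧ n ≤ D.p j + D.Q j + 1) → ∃ i i', Coll u n i i' ∧
        ∀ j j', Coll u n j j' → EqW u (n + 1) j i ∨ EqW u (n + 1) j i') := by
  constructor
  · intro hno i i' he hex
    by_contra hne
    have hc : Coll u n i i' := ⟨he, hex, hne⟩
    obtain ⟨o, j, j', ho, h1, h2, h3⟩ := encR_case hw hc
    rcases lt_or_gt_of_ne h3 with h | h
    · obtain ⟨h4, h5⟩ := encR_core hD hs hw he hne ho h1 h2 h
      exact hno ⟨j, by omega, by omega⟩
    · obtain ⟨h4, h5⟩ := encR_core hD hs hw (fun r hr => (he r hr).symm) (Ne.symm hne) ho h2 h1 h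
      exact hno ⟨j', by omega, by omega⟩
  · rintro ⟨j, hj1, hj2⟩
    obtain ⟨o, ho⟩ : ∃ o, n = o + 1 + D.p j := ⟨n - 1 - D.p j, by omega⟩
    have hQ := encR_QT hD hw j
    have hT := hw.Ts j
    obtain ⟨i, hi⟩ : ∃ i, i + o = T j := ⟨T j - o, by omega⟩
    obtain ⟨i', hi'⟩ : ∃ i', i' + o = T (j + 1) := ⟨T (j + 1) - o, by omega⟩
    refine ⟨i, i', ?_, ?_⟩
    · rw [ho]
      exact encR_coll hD hs hw hi hi' (by omega)
    · intro a a' hc
      obtain ⟨o', b, b', ho', h1, h2, h3⟩ := encR_case hw hc
      rcases lt_or_gt_of_ne h3 with h | h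
      · obtain ⟨h4, h5⟩ := encR_core hD hs hw hc.1 hc.2.2 ho' h1 h2 h
        have h6 : j = b := encR_uniq hD hj1 hj2 (by omega) (by omega)
        subst h6
        left
        have : a = i := by omega
        subst this
        intro r _
        rfl
      · obtain ⟨h4, h5⟩ := encR_core hD hs hw (fun r hr => (hc.1 r hr).symm)
          (Ne.symm hc.2.2) ho' h2 h1 h
        have h6 : j = b' := encR_uniq hD hj1 hj2 (by omega) (by omega)
        subst h6
        right
        have h7 : o' = o := by omega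
        subst h7
        rw [ho]
        exact encR_same hD hs hw h (Nat.lt_succ_self j) h1 hi' h5

end EncR

end Pool.Agent.Helper79.CF
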