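import Pool.Agent.Helper79.CF.Defs

/-!
The word `none, gap 0, none, gap 1, ...` (module ENCW of MP_7c7486_co).
-/

namespace Pool.Agent.Helper79.CF

open Filter Topology MeasureTheory

section Enc
variable {K : Type*} {D : Data} {y x : ℕ → K} {u : ℕ → Option K} {T : ℕ → ℕ}

/-- positions of `none` -/
def ENCW_T (D : Data) : ℕ → ℕ
  | 0 => 0
  | j + 1 => ENCW_T D j + 1 + D.m j

theorem ENCW_T_lt (D : Data) (j : ℕ) : ENCW_T D j < ENCW_T D (j + 1) := by
  rw [ENCW_T]; omega

theorem ENCW_T_mono (D : Data) : StrictMono (ENCW_T D) := strictMono_nat_of_lt_succ (ENCW_T_lt D)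

theorem ENCW_exists (D : Data) (n : ℕ) : ∃ j, ENCW_T D j ≤ n ∧ n < ENCW_T D (j + 1) := by
  have h0 : ∃ j, n < ENCW_T D (j + 1) := ⟨n, by
    have := (ENCW_T_mono D).le_apply (x := n + 1)
    omega⟩
  classical
  refine ⟨Nat.find h0, ?_, Nat.find_spec h0⟩
  rcases Nat.eq_zero_or_pos (Nat.find h0) with h | h
  · rw [h]; exact Nat.zero_le _
  · have h1 := Nat.find_min h0 (m := Nat.find h0 - 1) (by omega)
    have e : Nat.find h0 - 1 + 1 = Nat.find h0 := by omega
    rw [e] at h1
    omega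

theorem ENCW_unique (D : Data) {n i j : ℕ} (hi : ENCW_T D i ≤ n ∧ n < ENCW_T D (i + 1))
    (hj : ENCW_T D j ≤ n ∧ n < ENCW_T D (j + 1)) : i = j := by
  rcases Nat.lt_trichotomy i j with h | h | h
  · have := (ENCW_T_mono D).monotone (show i + 1 ≤ j from h)
    omega
  · exact h
  · have := (ENCW_T_mono D).monotone (show j + 1 ≤ i from h)
    omega

theorem exists_wd (D : Data) (y x : ℕ → K) : ∃ u T, Wd D y x u T := by
  classical
  choose f hf using ENCW_exists D
  refine ⟨fun n => if n = ENCW_T D (f n) then none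
    else some (gap D y x (f n) (n - ENCW_T D (f n) - 1)), ENCW_T D, ⟨rfl, fun j => rfl, ?_, ?_⟩⟩
  · intro j
    have h1 : f (ENCW_T D j) = j := ENCW_unique D (hf _) ⟨le_rfl, ENCW_T_lt D j⟩
    simp only [h1, if_true]
  · intro j i hi
    have h1 : f (ENCW_T D j + 1 + i) = j := ENCW_unique D (hf _) ⟨by omega, by
      rw [ENCW_T]; omega⟩
    have h2 : ¬ (ENCW_T D j + 1 + i = ENCW_T D j) := by omega
    have h3 : ENCW_T D j + 1 + i - ENCW_T D j - 1 = i := by omega
    simp only [h1, if_neg h2, h3]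

theorem ENCW_m_ge (hD : D.Good) (j : ℕ) : j < D.m j := by
  have h : j < D.p j := by
    induction j with
    | zero => exact hD.p0
    | succ j ih => have := hD.growp j; omega
  exact h.trans (hD.pm j)

theorem enc_cls (hD : D.Good) (hs : IsSol D y x) (hw : Wd D y x u T) (n : ℕ) :
    ∃ i, Cls u n i := by
  have hm := ENCW_m_ge hD n
  refine ⟨T n + 1 + (D.m n - n), ?_, ?_⟩
  · intro r hr
    have e : T n + 1 + (D.m n - n) + r = T n + 1 + (D.m n - n + r) := by omega
    rw [e, hw.ug n _ (by omega)]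
    exact Option.some_ne_none _
  · have e : T n + 1 + (D.m n - n) + n = T (n + 1) := by
      rw [hw.Ts]; omega
    rw [e]
    exact hw.un _

theorem enc_full {k : ℕ} {D : Data} {y x : ℕ → Fin k} {u : ℕ → Option (Fin k)} {T : ℕ → ℕ}
    (hw : Wd D y x u T) (hr : Rich D y x) (n : ℕ) (v : Fin n → Fin k) :
    (fun i => some (v i)) ∈ factors u n := by
  obtain ⟨j, i, h1, h2⟩ := hr n v
  refine ⟨T j + 1 + i, ?_⟩
  funext t
  have ht := t.2
  have e : T j + 1 + i + (t : ℕ) = T j + 1 + (i + t) := by omega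
  change u (T j + 1 + i + (t : ℕ)) = some (v t)
  rw [e, hw.ug j _ (by omega), h2 t]

end Enc

end Pool.Agent.Helper79.CF
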