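import Pool.Agent.Helper79.CF.Defs

/-! Module HL: the letters inserted by the real steps. -/

namespace Pool.Agent.Helper79.CF

theorem HL_st_ge (st : ℕ → ℕ) (W : ℕ → List (Fin 3)) (h0 : st 0 = 8)
    (h1 : ∀ n, st (n + 1) = st n + 3 + n + (W n).length) (n : ℕ) : n + 8 ≤ st n := by
  induction n with
  | zero => omega
  | succ n ih =>
    have := h1 n
    omega

theorem HL_st_mono (st : ℕ → ℕ) (W : ℕ → List (Fin 3))
    (h1 : ∀ n, st (n + 1) = st n + 3 + n + (W n).length) : StrictMono st :=
  strictMono_nat_of_lt_succ fun n => by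
    have := h1 n
    omega

/-- the stage of a step -/
noncomputable def HL_sg (st : ℕ → ℕ) (k : ℕ) : ℕ := Nat.findGreatest (fun n => st n ≤ k) k

theorem HL_sg_eq (st : ℕ → ℕ) (W : ℕ → List (Fin 3)) (h0 : st 0 = 8)
    (h1 : ∀ n, st (n + 1) = st n + 3 + n + (W n).length) {n r : ℕ}
    (hr : r < 3 + n + (W n).length) : HL_sg st (st n + r) = n := by
  have hm := HL_st_mono st W h1
  unfold HL_sg
  rw [Nat.findGreatest_eq_iff]
  refine ⟨?_, fun _ => by omega, ?_⟩
  · have := HL_st_ge st W h0 h1 n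
    omega
  · intro i hi _ hle
    have h2 : st (n + 1) ≤ st i := hm.monotone hi
    have := h1 n
    omega

theorem HL_stage (st : ℕ → ℕ) (W : ℕ → List (Fin 3)) (h0 : st 0 = 8)
    (h1 : ∀ n, st (n + 1) = st n + 3 + n + (W n).length) (k : ℕ) (hk : 8 ≤ k) :
    ∃ n r, k = st n + r ∧ r < 3 + n + (W n).length := by
  induction k, hk using Nat.le_induction with
  | base => exact ⟨0, 0, by omega, by omega⟩
  | succ k hk ih =>
    obtain ⟨n, r, h2, h3⟩ := ih
    by_cases h : r + 1 < 3 + n + (W n).length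
    · exact ⟨n, r + 1, by omega, h⟩
    · refine ⟨n + 1, 0, ?_, by omega⟩
      have := h1 n
      omega

open scoped Classical in
/-- the inserted letters -/
noncomputable def HL_h (st : ℕ → ℕ) (W : ℕ → List (Fin 3)) (I : Set ℕ) (k : ℕ) : Fin 3 :=
  if k < 8 then (if k = 0 then 2 else if k = 2 then 1 else 0)
  else
    let n := HL_sg st k
    let r := k - st n
    if r = 0 then (if n ∈ I then 1 else 0)
    else if r = 1 then (if n ∈ I then 2 else 1)
    else if r = 2 then (if n ∈ I then 1 else 2)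
    else if r < 3 + n then 2
    else if n ∈ I then tl W n (r - 3 - n) else 1

open scoped Classical in
theorem HL_h_eq (st : ℕ → ℕ) (W : ℕ → List (Fin 3)) (I : Set ℕ) (h0 : st 0 = 8)
    (h1 : ∀ n, st (n + 1) = st n + 3 + n + (W n).length) {n r : ℕ}
    (hr : r < 3 + n + (W n).length) : HL_h st W I (st n + r) =
      if r = 0 then (if n ∈ I then 1 else 0)
      else if r = 1 then (if n ∈ I then 2 else 1)
      else if r = 2 then (if n ∈ I then 1 else 2)
      else if r < 3 + n then 2
      else if n ∈ I then tl W n (r - 3 - n) else 1 := by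
  have h2 := HL_st_ge st W h0 h1 n
  unfold HL_h
  rw [if_neg (by omega)]
  simp only [HL_sg_eq st W h0 h1 hr, Nat.add_sub_cancel_left]

theorem exists_hl (st : ℕ → ℕ) (W : ℕ → List (Fin 3)) (I : Set ℕ) (h0 : st 0 = 8)
    (h1 : ∀ n, st (n + 1) = st n + 3 + n + (W n).length) : ∃ h, HL st W I h := by
  have e0 := fun (n : ℕ) => HL_h_eq st W I h0 h1 (n := n) (r := 0) (by omega)
  have e1 := fun (n : ℕ) => HL_h_eq st W I h0 h1 (n := n) (r := 1) (by omega)
  have e2 := fun (n : ℕ) => HL_h_eq st W I h0 h1 (n := n) (r := 2) (by omega)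
  simp only [Nat.add_zero, if_true] at e0
  refine ⟨HL_h st W I, ?_⟩
  constructor
  · simp [HL_h]
  · simp [HL_h]
  · simp [HL_h]
  · simp [HL_h]
  · simp [HL_h]
  · intro n hn
    rw [e0, if_pos hn]
  · intro n hn
    rw [e0, if_neg hn]
  · intro n hn
    rw [e1, if_neg (by omega), if_pos rfl, if_pos hn]
  · intro n hn
    rw [e1, if_neg (by omega), if_pos rfl, if_neg hn]
  · intro n hn
    rw [e2, if_neg (by omega), if_neg (by omega), if_pos rfl, if_pos hn]
  · intro n hn
    rw [e2, if_neg (by omega), if_neg (by omega), if_pos rfl, if_neg hn]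
  · intro n i hi
    have := HL_h_eq st W I h0 h1 (n := n) (r := 3 + i) (by omega)
    rw [show st n + 3 + i = st n + (3 + i) by omega, this, if_neg (by omega), if_neg (by omega),
      if_neg (by omega), if_pos (by omega)]
  · intro n hn i hi
    have := HL_h_eq st W I h0 h1 (n := n) (r := 3 + n + i) (by omega)
    rw [show st n + 3 + n + i = st n + (3 + n + i) by omega, this, if_neg (by omega),
      if_neg (by omega), if_neg (by omega), if_neg (by omega), if_pos hn,
      show 3 + n + i - 3 - n = i by omega]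
  · intro n hn i hi
    have := HL_h_eq st W I h0 h1 (n := n) (r := 3 + n + i) (by omega)
    rw [show st n + 3 + n + i = st n + (3 + n + i) by omega, this, if_neg (by omega),
      if_neg (by omega), if_neg (by omega), if_neg (by omega), if_neg hn]

/-- Every real step belongs to the first eight or to a stage. -/
theorem steps_cases (st : ℕ → ℕ) (W : ℕ → List (Fin 3)) (h0 : st 0 = 8)
    (h1 : ∀ n, st (n + 1) = st n + 3 + n + (W n).length) (k : ℕ) :
    k < 8 ∨ ∃ n, k = st n ∨ k = st n + 1 ∨ k = st n + 2 ∨ (∃ i < n, k = st n + 3 + i) ∨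
      ∃ i < (W n).length, k = st n + 3 + n + i := by
  rcases Nat.lt_or_ge k 8 with hk | hk
  · exact Or.inl hk
  obtain ⟨n, r, h2, h3⟩ := HL_stage st W h0 h1 k hk
  refine Or.inr ⟨n, ?_⟩
  by_cases r0 : r = 0
  · exact Or.inl (by omega)
  by_cases r1 : r = 1
  · exact Or.inr (Or.inl (by omega))
  by_cases r2 : r = 2
  · exact Or.inr (Or.inr (Or.inl (by omega)))
  by_cases r3 : r < 3 + n
  · exact Or.inr (Or.inr (Or.inr (Or.inl ⟨r - 3, by omega, by omega⟩)))
  · exact Or.inr (Or.inr (Or.inr (Or.inr ⟨r - 3 - n, by omega, by omega⟩)))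

end Pool.Agent.Helper79.CF
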