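import Pool.Agent.Helper79.CF.Defs

/-!
# Module LOC: letters near the place of a step
-/

namespace Pool.Agent.Helper79.CF

section Loc
variable {K : Type*} {S : Steps} {y x : ℕ → K}

theorem L_ge (hS : S.Ok) (k : ℕ) : k + 5 ≤ S.L k := by
  induction k with
  | zero =>
    have h1 := hS.hp 0
    have h2 := hS.hq 0
    have := hS.e0
    have := hS.a0
    have := hS.b0
    have := hS.M0
    unfold Steps.L
    omega
  | succ k ih =>
    have h1 := hS.hp (k + 1)
    have h2 := hS.hq (k + 1)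
    have h3 := hS.hM k
    have h4 := hS.ha k
    have h5 := hS.hb k
    have : S.L (k + 1) = S.p (k + 1) + S.q (k + 1) + S.ε (k + 1) := rfl
    omega

theorem p_ge (hS : S.Ok) (k : ℕ) : 3 * S.L k ≤ S.p (k + 1) + 1 ∧ 3 * S.L k ≤ S.q (k + 1) + 1 := by
  have h1 := hS.hp (k + 1)
  have h2 := hS.hq (k + 1)
  have h3 := hS.hM k
  have h4 := hS.ha k
  have h5 := hS.hb k
  have h6 := L_ge hS k
  omega

theorem p_lt_L (hS : S.Ok) (k : ℕ) : S.p k + 3 ≤ S.L k ∧ S.q k + 3 ≤ S.L k := by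
  have hL : S.L k = S.p k + S.q k + S.ε k := rfl
  cases k with
  | zero =>
    have h1 := hS.hp 0
    have h2 := hS.hq 0
    have := hS.e0
    have := hS.a0
    have := hS.b0
    have := hS.M0
    omega
  | succ k =>
    have h1 := p_ge hS k
    have h2 := L_ge hS k
    omega

theorem L_mono (hS : S.Ok) : StrictMono S.L := by
  refine strictMono_nat_of_lt_succ fun k => ?_
  have h1 := p_ge hS k
  have h2 := L_ge hS k
  have hL : S.L (k + 1) = S.p (k + 1) + S.q (k + 1) + S.ε (k + 1) := rfl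
  omega

/-- `a` and `b` are small against `p` and `q`. -/
theorem a_lt (hS : S.Ok) (k : ℕ) : S.a (k + 1) + 3 < S.p (k + 1) ∧ S.b (k + 1) + 3 < S.q (k + 1) ∧
    S.a (k + 1) + 3 < S.q (k + 1) ∧ S.b (k + 1) + 3 < S.p (k + 1) := by
  have h1 := p_ge hS k
  have h2 := L_ge hS k
  have h4 := hS.ha k
  have h5 := hS.hb k
  omega

theorem loc1 (hS : S.Ok) (h : Sym S y x) {k : ℕ} (hk : S.ε k = 1) : y (S.p k) = x (S.q k) := by
  have hL : S.L k = S.p k + S.q k + S.ε k := rfl
  have h1 := p_lt_L hS k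
  refine h.s1 k _ _ ?_ ?_ ?_ <;> omega

theorem loc2 (hS : S.Ok) (h : Sym S y x) {k : ℕ} (hk : S.ε k = 1) {r : ℕ} (hr : 1 ≤ r)
    (h1 : S.a k + r < S.p k) : y (S.p k + r) = y (S.a k + r) := by
  have hL : S.L k = S.p k + S.q k + S.ε k := rfl
  have hp := hS.hp k
  have hq := hS.hq k
  have e1 : y (S.p k + r) = x (S.q k - r) := h.s1 k _ _ (by omega) (by omega) (by omega)
  have e2 : y (S.a k + r) = x (S.q k - r) := h.s0 k _ _ (by omega) (by omega) (by omega)
  rw [e1, e2]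

theorem loc2' (hS : S.Ok) (h : Sym S y x) {k : ℕ} (hk : S.ε k = 1) {r : ℕ} (hr : 1 ≤ r)
    (h1 : S.b k + r < S.q k) : x (S.q k + r) = x (S.b k + r) := by
  have hL : S.L k = S.p k + S.q k + S.ε k := rfl
  have hp := hS.hp k
  have hq := hS.hq k
  have e1 : y (S.p k - r) = x (S.q k + r) := h.s1 k _ _ (by omega) (by omega) (by omega)
  have e2 : y (S.p k - r) = x (S.b k + r) := h.s0 k _ _ (by omega) (by omega) (by omega)
  rw [← e1, e2]

theorem loc3 (hS : S.Ok) (h : Sym S y x) {k i r : ℕ} (hi : i + r = S.p k) (hr : 1 ≤ r)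
    (h1 : S.b k + r < S.q k) : y i = x (S.b k + r) := by
  have hp := hS.hp k
  have hq := hS.hq k
  exact h.s0 k _ _ (by omega) (by omega) (by omega)

theorem loc3' (hS : S.Ok) (h : Sym S y x) {k i r : ℕ} (hi : i + r = S.q k) (hr : 1 ≤ r)
    (h1 : S.a k + r < S.p k) : x i = y (S.a k + r) := by
  have hp := hS.hp k
  have hq := hS.hq k
  exact (h.s0 k _ _ (by omega) (by omega) (by omega)).symm

theorem loc4 (hS : S.Ok) (h : Sym S y x) {k : ℕ} (hk : S.ε k = 0) {r : ℕ}
    (h1 : S.a k + 1 + r < S.p k) : y (S.p k + r) = y (S.a k + 1 + r) := by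
  have hL : S.L k = S.p k + S.q k + S.ε k := rfl
  have hp := hS.hp k
  have hq := hS.hq k
  have e2 : y (S.a k + 1 + r) = x (S.q k - 1 - r) := h.s0 k _ _ (by omega) (by omega) (by omega)
  have e1 : y (S.p k + r) = x (S.q k - 1 - r) := h.s1 k _ _ (by omega) (by omega) (by omega)
  rw [e1, e2]

theorem loc4' (hS : S.Ok) (h : Sym S y x) {k : ℕ} (hk : S.ε k = 0) {r : ℕ}
    (h1 : S.b k + 1 + r < S.q k) : x (S.q k + r) = x (S.b k + 1 + r) := by
  have hL : S.L k = S.p k + S.q k + S.ε k := rfl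
  have hp := hS.hp k
  have hq := hS.hq k
  have e2 : y (S.p k - 1 - r) = x (S.b k + 1 + r) := h.s0 k _ _ (by omega) (by omega) (by omega)
  have e1 : y (S.p k - 1 - r) = x (S.q k + r) := h.s1 k _ _ (by omega) (by omega) (by omega)
  rw [← e1, e2]

theorem pad1 (hS : S.Ok) (h : Sym S y x) {k r : ℕ} (hr : r + 1 = S.L k) : y r = x r := by
  have := L_ge hS k
  exact h.s2 k r r (by omega) (by omega) (by omega)

theorem pad2 (hS : S.Ok) (h : Sym S y x) {k r : ℕ} (hr : r + 2 = 2 * S.L k) : y r = x r := by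
  have h1 := p_ge hS k
  have h2 := L_ge hS k
  have h3 := hS.hM k
  exact h.s0 (k + 1) r r (by omega) (by omega) (by omega)

end Loc

end Pool.Agent.Helper79.CF
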