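import Pool.Agent.CFX.LOC

/-!
# Module NECI: the first eight steps
-/

namespace Pool.Agent.Helper79.CF

section Nec
variable {S : Steps} {st : ℕ → ℕ} {W : ℕ → List (Fin 3)} {G : ℕ → ℕ → Prop} {y x : ℕ → Fin 3}

/-- the equalities which do not need the inequalities -/
private theorem neci_aux (hS : S.Ok) (hG : Spec S st W G) (h1 : Sym S y x) :
    S.p 0 = 2 ∧ S.q 0 = 2 ∧ x 1 = y 1 ∧ x 3 = y 1 ∧ y 3 = y 1 ∧ y 2 = x 2 ∧
      y (S.p 1) = x (S.q 1) ∧ y (S.p 1 + 1) = y 1 ∧ x (S.q 1 + 1) = y 1 ∧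
      (∀ i, i + 1 = S.p 1 → y i = y 1) ∧ (∀ i, i + 1 = S.q 1 → x i = y 1) ∧
      y (S.p 2) = x (S.q 2) ∧ y (S.p 2 + 1) = y 1 ∧ y (S.p 3) = x (S.q 3) ∧
      y (S.p 3 + 1) = y (S.p 1) ∧ y (S.p 4) = y (S.p 1) ∧ y (S.p 5) = y 1 ∧ y (S.p 6) = y 1 ∧
      y (S.p 7) = x (S.q 7) ∧ x (S.q 7 + 1) = x (S.q 1) ∧ x (S.q 7 + 2) = y 1 := by
  have ha0 := hS.a0
  have hb0 := hS.b0
  have he0 := hS.e0
  have hM0 := hS.M0
  have hp0 := hS.hp 0
  have hq0 := hS.hq 0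
  have p0 : S.p 0 = 2 := by omega
  have q0 : S.q 0 = 2 := by omega
  have L0 : S.L 0 = 5 := by unfold Steps.L; omega
  have x1 : y 1 = x 1 := h1.s0 0 1 1 (by omega) (by omega) (by omega)
  have x3 : y 1 = x 3 := h1.s1 0 1 3 (by omega) (by omega) (by omega)
  have y3 : y 3 = x 1 := h1.s1 0 3 1 (by omega) (by omega) (by omega)
  have y2 : y 2 = x 2 := h1.s1 0 2 2 (by omega) (by omega) (by omega)
  obtain ⟨e1, a1, b1⟩ := hG.e1
  obtain ⟨e2, a2, b2⟩ := hG.e2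
  obtain ⟨e3, a3, b3⟩ := hG.e3
  obtain ⟨e4, a4, b4⟩ := hG.e4
  obtain ⟨e5, a5, b5⟩ := hG.e5
  obtain ⟨e6, a6, b6⟩ := hG.e6
  obtain ⟨e7, a7, b7⟩ := hG.e7
  have l1 := a_lt hS 0
  have l2 := a_lt hS 1
  have l3 := a_lt hS 2
  have l4 := a_lt hS 3
  have l5 := a_lt hS 4
  have l6 := a_lt hS 5
  have l7 := a_lt hS 6
  simp only [zero_add, Nat.reduceAdd] at l1 l2 l3 l4 l5 l6 l7
  have yp1 : y (S.p 1 + 1) = y 1 := by
    rw [loc2 hS h1 e1 (r := 1) (by omega) (by omega), a1, p0, y3, ← x1]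
  have xq1 : x (S.q 1 + 1) = y 1 := by
    rw [loc2' hS h1 e1 (r := 1) (by omega) (by omega), b1, x1]
  have yp1' : ∀ i, i + 1 = S.p 1 → y i = y 1 := by
    intro i hi
    rw [loc3 hS h1 hi (by omega) (by omega), b1, x1]
  have xq1' : ∀ i, i + 1 = S.q 1 → x i = y 1 := by
    intro i hi
    rw [loc3' hS h1 hi (by omega) (by omega), a1, p0, y3, ← x1]
  have yp2 : y (S.p 2 + 1) = y 1 := by
    rw [loc2 hS h1 e2 (r := 1) (by omega) (by omega), a2]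
  have yp3 : y (S.p 3 + 1) = y (S.p 1) := by
    rw [loc2 hS h1 e3 (r := 1) (by omega) (by omega), a3]
  have yp4 : y (S.p 4) = y (S.p 1) := by
    have := loc4 hS h1 e4 (r := 0) (by omega)
    simp only [add_zero] at this
    rw [this, a4, yp3]
  have yp5 : y (S.p 5) = y 1 := by
    have := loc4 hS h1 e5 (r := 0) (by omega)
    simp only [add_zero] at this
    rw [this, a5]
  have yp6 : y (S.p 6) = y 1 := by
    have := loc4 hS h1 e6 (r := 0) (by omega)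
    simp only [add_zero] at this
    rw [this, a6, yp2]
  have xq7 : x (S.q 7 + 1) = x (S.q 1) := by
    rw [loc2' hS h1 e7 (r := 1) (by omega) (by omega), b7]
  have xq7' : x (S.q 7 + 2) = y 1 := by
    have : S.b 7 + 2 = S.q 1 + 1 := by omega
    rw [loc2' hS h1 e7 (r := 2) (by omega) (by omega), this, xq1]
  exact ⟨p0, q0, x1.symm, x3.symm, by rw [y3, x1], y2, loc1 hS h1 e1, yp1, xq1, yp1', xq1',
    loc1 hS h1 e2, yp2, loc1 hS h1 e3, yp3, yp4, yp5, yp6, loc1 hS h1 e7, xq7, xq7'⟩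

private theorem neci_fin (y0 x0 b d1 d2 d3 h : Fin 3) (h1 : d1 ≠ x0) (h2 : d1 ≠ y0) (h3 : d2 ≠ x0)
    (h4 : d2 ≠ d1) (h5 : d3 ≠ d1) (h6 : d3 ≠ y0) (h7 : d2 ≠ d3) (h8 : b ≠ d2) (h9 : b ≠ x0)
    (h10 : h ≠ b) (h11 : h ≠ d3) : y0 ≠ x0 ∧ d2 = y0 ∧ d3 = x0 ∧ b = d1 ∧ h = y0 := by
  revert y0 x0 b d1 d2 d3 h
  decide

theorem nec_init (hS : S.Ok) (hG : Spec S st W G) (h1 : Sym S y x) (h2 : Ineq S y x) :
    Ini S y x := by
  obtain ⟨p0, q0, x1, x3, y3, y2, c1, c2, c3, c4, c5, c6, c7, c8, c9, c10, c11, c12, c13, c14,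
    c15⟩ := neci_aux hS hG h1
  obtain ⟨e1, a1, b1⟩ := hG.e1
  obtain ⟨e2, a2, b2⟩ := hG.e2
  obtain ⟨e3, a3, b3⟩ := hG.e3
  obtain ⟨e4, a4, b4⟩ := hG.e4
  obtain ⟨e5, a5, b5⟩ := hG.e5
  obtain ⟨e6, a6, b6⟩ := hG.e6
  obtain ⟨e7, a7, b7⟩ := hG.e7
  have i1 : y 2 ≠ x 0 := by
    have := h2.y0 0
    rwa [p0, hS.b0] at this
  have i2 : y 2 ≠ y 0 := by
    have := h2.x0 0
    rwa [q0, hS.a0, ← y2] at this
  have i3 : y (S.p 1) ≠ x 0 := by
    have := h2.y0 1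
    rwa [b1] at this
  have i4 : y (S.p 1) ≠ y 2 := by
    have := h2.x0 1
    rwa [a1, p0, ← c1] at this
  have i5 : y (S.p 2) ≠ y 2 := by
    have := h2.y0 2
    rwa [b2, q0, ← y2] at this
  have i6 : y (S.p 2) ≠ y 0 := by
    have := h2.x0 2
    rwa [a2, ← c6] at this
  have i7 : y (S.p 1) ≠ y (S.p 2) := by
    have := h2.y0 4
    rwa [b4, c10, ← c6] at this
  have i8 : y 1 ≠ y (S.p 1) := by
    have := h2.y0 5
    rwa [b5, c11, ← c1] at this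
  have i9 : y 1 ≠ x 0 := by
    have := h2.y0 6
    rwa [b6, c12] at this
  have i10 : x (S.q 7) ≠ y 1 := by
    have := h2.y0 7
    rwa [c5 _ b7, c13] at this
  have i11 : x (S.q 7) ≠ y (S.p 2) := by
    have := h2.x0 7
    rwa [a7] at this
  obtain ⟨j1, j2, j3, j4, j5⟩ := neci_fin (y 0) (x 0) (y 1) (y 2) (y (S.p 1)) (y (S.p 2))
    (x (S.q 7)) i1 i2 i3 i4 i5 i6 i7 i8 i9 i10 i11
  exact
    { n0 := j1
      n1 := by rw [j4]; exact i2
      n2 := i9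
      x1 := x1
      y2 := j4.symm
      x2 := by rw [← y2, j4]
      y3 := y3
      x3 := x3
      p1 := j2
      q1 := by rw [← c1, j2]
      p1s := c2
      q1s := c3
      q1p := c5
      q7 := j5
      q7s := by rw [c14, ← c1, j2]
      q7t := c15 }

theorem exi_init (hS : S.Ok) (hG : Spec S st W G) (h1 : Sym S y x)
    (hy0 : y 0 = 0) (hx0 : x 0 = 1) (hy1 : y 1 = 2) (hp0 : y (S.p 0) = 2) (hp1 : y (S.p 1) = 0)
    (hp7 : y (S.p 7) = 0) : Ini S y x := by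
  obtain ⟨p0, q0, x1, x3, y3, y2, c1, c2, c3, c4, c5, c6, c7, c8, c9, c10, c11, c12, c13, c14,
    c15⟩ := neci_aux hS hG h1
  rw [p0] at hp0
  exact
    { n0 := by rw [hy0, hx0]; decide
      n1 := by rw [hy0, hy1]; decide
      n2 := by rw [hx0, hy1]; decide
      x1 := x1
      y2 := by rw [hp0, hy1]
      x2 := by rw [← y2, hp0, hy1]
      y3 := y3
      x3 := x3
      p1 := by rw [hp1, hy0]
      q1 := by rw [← c1, hp1, hy0]
      p1s := c2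
      q1s := c3
      q1p := c5
      q7 := by rw [← c13, hp7, hy0]
      q7s := by rw [c14, ← c1, hp1, hy0]
      q7t := c15 }

end Nec

end Pool.Agent.Helper79.CF
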