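import Pool.Agent.CFX.LOC

/-!
# Module NECS: the stages
-/

namespace Pool.Agent.Helper79.CF

section Nec
variable {S : Steps} {st : ℕ → ℕ} {W : ℕ → List (Fin 3)} {G : ℕ → ℕ → Prop} {y x : ℕ → Fin 3}

theorem necs_st_ge (hG : Spec S st W G) (n : ℕ) : 8 ≤ st n := by
  induction n with
  | zero => rw [hG.st0]
  | succ n ih => rw [hG.st1]; omega

theorem necs_a_lt (hS : S.Ok) {k : ℕ} (hk : 1 ≤ k) : S.a k + 3 < S.p k ∧ S.b k + 3 < S.q k ∧
    S.a k + 3 < S.q k ∧ S.b k + 3 < S.p k := by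
  obtain ⟨k, rfl⟩ : ∃ j, k = j + 1 := ⟨k - 1, by omega⟩
  exact a_lt hS k

theorem necs_p0 (hS : S.Ok) : S.p 0 = 2 ∧ S.q 0 = 2 := by
  have ha0 := hS.a0
  have hb0 := hS.b0
  have hM0 := hS.M0
  have hp0 := hS.hp 0
  have hq0 := hS.hq 0
  omega

theorem stage_r (hS : S.Ok) (hG : Spec S st W G) (h1 : Sym S y x) (hi : Ini S y x) (n : ℕ) :
    x (S.q (st n)) = y (S.p (st n)) ∧ y (S.p (st n) + 1) = y 1 ∧ x (S.q (st n) + 1) = y 1 ∧
      (∀ i, i + 1 = S.p (st n) → y i = y 1) := by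
  obtain ⟨e, a, b⟩ := hG.hr n
  obtain ⟨p0, q0⟩ := necs_p0 hS
  have hl := necs_a_lt hS (k := st n) (by have := necs_st_ge hG n; omega)
  refine ⟨(loc1 hS h1 e).symm, ?_, ?_, ?_⟩
  · rw [loc2 hS h1 e (r := 1) (by omega) (by omega), a, p0, hi.y3]
  · rw [loc2' hS h1 e (r := 1) (by omega) (by omega), b, q0, hi.x3]
  · intro i h
    rw [loc3 hS h1 h (by omega) (by omega), b, q0, hi.x3]

theorem stage_r2 (hS : S.Ok) (hG : Spec S st W G) (h1 : Sym S y x) (h2 : Ineq S y x)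
    (hi : Ini S y x) (n : ℕ) : y (S.p (st n)) ≠ y 1 := by
  obtain ⟨e, a, b⟩ := hG.hr n
  obtain ⟨p0, q0⟩ := necs_p0 hS
  have := h2.y0 (st n)
  rwa [b, q0, hi.x2] at this

theorem stage_g (hS : S.Ok) (hG : Spec S st W G) (h1 : Sym S y x) (hi : Ini S y x) (n : ℕ) :
    (∀ i, i + 1 = S.p (st n + 2) → y i = y 0) := by
  obtain ⟨e, a, b⟩ := hG.hg n
  have hl := necs_a_lt hS (k := st n + 2) (by omega)
  intro i h
  rw [loc3 hS h1 h (by omega) (by omega), b, hi.q7s]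

/-- Selected stages are compatible. -/
theorem nec_comp (hS : S.Ok) (hG : Spec S st W G) (h1 : Sym S y x) (h2 : Ineq S y x)
    (hi : Ini S y x) {i n : ℕ} (hin : i < n) (hyi : y (S.p (st i)) = x 0)
    (hyn : y (S.p (st n)) = x 0) : G i n := by
  by_contra hg
  obtain ⟨e, a, b⟩ := hG.hd n i hin hg
  have hl := necs_a_lt hS (k := st n + 3 + i) (by omega)
  have c1 : y (S.p (st n + 3 + i)) = y (S.p (st n + 2)) := by
    have := loc4 hS h1 e (r := 0) (by omega)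
    simp only [add_zero] at this
    rw [this, a]
  have c2 : y (S.p (st n + 2)) ≠ x 0 := by
    have := h2.y0 (st n + 3 + i)
    rwa [b, (stage_r hS hG h1 hi i).1, hyi, c1] at this
  obtain ⟨e', a', b'⟩ := hG.hs n
  have s1 : y (S.p (st n + 1)) ≠ y 0 := by
    have := h2.y0 (st n + 1)
    rwa [b', hi.q1] at this
  have s2 : y (S.p (st n + 1)) ≠ x 0 := by
    have := h2.x0 (st n + 1)
    rwa [a', hyn, ← loc1 hS h1 e'] at this
  have s3 : y (S.p (st n + 1)) = y 1 := fin3 _ _ _ _ hi.n1 hi.n2.symm hi.n0.symm s2 s1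
  obtain ⟨e'', a'', b''⟩ := hG.hg n
  have g1 : y (S.p (st n + 2)) ≠ y 0 := by
    have := h2.y0 (st n + 2)
    rwa [b'', hi.q7] at this
  have g2 : y (S.p (st n + 2)) ≠ y (S.p (st n + 1)) := by
    have := h2.x0 (st n + 2)
    rwa [a'', ← loc1 hS h1 e''] at this
  rw [s3] at g2
  exact c2 (fin3 _ _ _ _ hi.n0.symm hi.n2 hi.n1 g2 g1)

end Nec

end Pool.Agent.Helper79.CF
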