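import Pool.Agent.Helper79.CF.Defs
import Pool.Agent.CFX.LOC
import Pool.Agent.CFX.NECI
import Pool.Agent.CFX.NECS
import Pool.Agent.CFX.HL

/-!
The letters chosen for an infinite clique satisfy the inequalities.
-/

namespace Pool.Agent.Helper79.CF

section
variable {S : Steps} {st : ℕ → ℕ} {W : ℕ → List (Fin 3)} {G : ℕ → ℕ → Prop}

theorem EXII_alt (hS : S.Ok) {k : ℕ} (hk : 1 ≤ k) : S.a k + 3 < S.p k ∧ S.b k + 3 < S.q k ∧
    S.a k + 3 < S.q k ∧ S.b k + 3 < S.p k := by
  obtain ⟨k, rfl⟩ : ∃ j, k = j + 1 := ⟨k - 1, by omega⟩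
  exact a_lt hS k

theorem exi_ineq (hS : S.Ok) (hG : Spec S st W G) {I : Set ℕ}
    (hc : ∀ i ∈ I, ∀ n ∈ I, i < n → G i n) {h : ℕ → Fin 3} (hh : HL st W I h)
    {y x : ℕ → Fin 3} (h1 : Sym S y x) (hy0 : y 0 = 0) (hx0 : x 0 = 1) (hy1 : y 1 = 2)
    (hp : ∀ k, S.ε k = 1 → y (S.p k) = h k) (hp1 : ∀ k r, r + 1 = S.L k → y r = 2)
    (hp2 : ∀ k r, r + 2 = 2 * S.L k → y r = 2) : Ineq S y x := by
  have hyp0 : y (S.p 0) = 2 := by rw [hp 0 hS.e0, hh.h0]
  have hyp1 : y (S.p 1) = 0 := by rw [hp 1 hG.e1.1, hh.h1]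
  have hyp2 : y (S.p 2) = 1 := by rw [hp 2 hG.e2.1, hh.h2]
  have hyp3 : y (S.p 3) = 0 := by rw [hp 3 hG.e3.1, hh.h3]
  have hyp7 : y (S.p 7) = 0 := by rw [hp 7 hG.e7.1, hh.h7]
  have hi : Ini S y x := exi_init hS hG h1 hy0 hx0 hy1 hyp0 hyp1 hyp7
  have hxq0 : x (S.q 0) = 2 := by rw [← loc1 hS h1 hS.e0, hyp0]
  have hxq1 : x (S.q 1) = 0 := by rw [hi.q1, hy0]
  have hxq7 : x (S.q 7) = 0 := by rw [hi.q7, hy0]
  have hxq7s : x (S.q 7 + 1) = 0 := by rw [hi.q7s, hy0]
  have hxq1s : x (S.q 1 + 1) = 2 := by rw [hi.q1s, hy1]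
  have hxq2 : x (S.q 2) = 1 := by rw [← loc1 hS h1 hG.e2.1, hyp2]
  have hyR : ∀ n, y (S.p (st n)) = h (st n) := fun n => hp _ (hG.hr n).1
  have hxR : ∀ n, x (S.q (st n)) = h (st n) := fun n => by
    rw [← loc1 hS h1 (hG.hr n).1, hyR]
  have hxRs : ∀ n, x (S.q (st n) + 1) = 2 := fun n => by
    rw [(stage_r hS hG h1 hi n).2.2.1, hy1]
  have hyS : ∀ n, y (S.p (st n + 1)) = h (st n + 1) := fun n => hp _ (hG.hs n).1
  have hyG : ∀ n, y (S.p (st n + 2)) = h (st n + 2) := fun n => hp _ (hG.hg n).1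
  -- letters in the blocks
  have hblk : ∀ n i, i < (W n).length → y (S.p (st n + 3 + n + i)) = h (st n + 3 + n + i) :=
    fun n i hi' => hp _ (hG.be n i hi')
  have hya : ∀ n i, i < (W n).length →
      (tl W n i = 2 → y (S.a (st n + 3 + n + i)) = 0) ∧
      (tl W n i ≠ 2 → y (S.a (st n + 3 + n + i)) = 2) := by
    intro n i hi'
    cases i with
    | zero =>
      have := hG.ba0 n (by omega)
      constructor
      · intro ht
        rw [if_pos ht] at this
        rw [show st n + 3 + n + 0 = st n + 3 + n from rfl, this, hyp1]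
      · intro ht
        rw [if_neg ht] at this
        rw [show st n + 3 + n + 0 = st n + 3 + n from rfl, this, hyp0]
    | succ i =>
      have ha := hG.ba n i hi'
      have hal := EXII_alt hS (k := st n + 3 + n + i) (by omega)
      have hl := loc3 hS h1 (k := st n + 3 + n + i) (i := S.a (st n + 3 + n + i + 1)) (r := 1) ha
        le_rfl (by omega)
      rw [show st n + 3 + n + (i + 1) = st n + 3 + n + i + 1 from rfl]
      rw [hl]
      by_cases h0 : tl W n i = 0
      · constructor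
        · intro ht
          have hb := hG.bb1 n i (by omega) h0 ht
          rw [hb, hxq1]
        · intro ht
          have hb := hG.bb2 n i (by omega) h0 ht
          rw [hb, hxRs]
      · constructor
        · intro ht
          have hb := hG.bb3 n i (by omega) h0 ht
          rw [hb, hxq7s]
        · intro ht
          have hb := hG.bb4 n i (by omega) h0 ht
          rw [hb, hxq1s]
  have key : ∀ k, y (S.p k) ≠ x (S.b k) ∧ x (S.q k) ≠ y (S.a k) := by
    intro k
    rcases steps_cases st W hG.st0 hG.st1 k with hk | ⟨n, rfl | rfl | rfl | ⟨i, hin, rfl⟩ |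
      ⟨i, hiw, rfl⟩⟩
    · interval_cases k
      · rw [hS.b0, hS.a0, hyp0, hxq0, hx0, hy0]; decide
      · rw [hG.e1.2.1, hG.e1.2.2, hyp1, hxq1, hx0, hyp0]; decide
      · rw [hG.e2.2.1, hG.e2.2.2, hyp2, hxq2, hxq0, hy0]; decide
      · have h3 : x (S.q 3) = 0 := by rw [← loc1 hS h1 hG.e3.1, hyp3]
        have h4 : y (S.a 3) = 2 := by
          have hal := EXII_alt hS (k := 1) le_rfl
          rw [loc3 hS h1 (k := 1) (i := S.a 3) (r := 1) hG.e3.2.1 le_rfl (by omega),
            hG.e1.2.2, show 0 + 1 = 1 from rfl, hi.x1, hy1]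
        rw [hG.e3.2.2, h3, h4, hyp3, hx0]; decide
      · have hal := EXII_alt hS (k := 4) (by omega)
        have hal3 := EXII_alt hS (k := 3) (by omega)
        have hal2 := EXII_alt hS (k := 2) (by omega)
        have h3 : y (S.p 4) = 0 := by
          have e1 := loc4 hS h1 (k := 4) hG.e4.1 (r := 0) (by omega)
          have e2 := loc2 hS h1 (k := 3) hG.e3.1 (r := 1) le_rfl (by omega)
          rw [Nat.add_zero, Nat.add_zero, hG.e4.2.1] at e1
          rw [e1, e2, hG.e3.2.1, hyp1]
        have h4 : x (S.q 4) = 2 := by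
          have e1 := loc4' hS h1 (k := 4) hG.e4.1 (r := 0) (by omega)
          have e2 := loc2' hS h1 (k := 2) hG.e2.1 (r := 1) le_rfl (by omega)
          rw [Nat.add_zero, Nat.add_zero, hG.e4.2.2] at e1
          have e3 : S.q 0 = 2 := by
            have := hS.hq 0
            rw [hS.a0, hS.M0] at this
            omega
          rw [e1, e2, hG.e2.2.2, e3, show 2 + 1 = 3 from rfl, hi.x3, hy1]
        rw [h3, h4, hG.e4.2.1, hG.e4.2.2, hyp3, hxq2]; decide
      · have hal := EXII_alt hS (k := 5) (by omega)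
        have h3 : y (S.p 5) = 2 := by
          have e1 := loc4 hS h1 (k := 5) hG.e5.1 (r := 0) (by omega)
          rw [Nat.add_zero, Nat.add_zero, hG.e5.2.1] at e1
          rw [e1, show 0 + 1 = 1 from rfl, hy1]
        have h4 : x (S.q 5) = 2 := by
          have e1 := loc4' hS h1 (k := 5) hG.e5.1 (r := 0) (by omega)
          rw [Nat.add_zero, Nat.add_zero, hG.e5.2.2] at e1
          rw [e1, hxq1s]
        rw [h3, h4, hG.e5.2.1, hG.e5.2.2, hxq1, hy0]; decide
      · have hal := EXII_alt hS (k := 6) (by omega)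
        have hal2 := EXII_alt hS (k := 2) (by omega)
        have h3 : y (S.p 6) = 2 := by
          have e1 := loc4 hS h1 (k := 6) hG.e6.1 (r := 0) (by omega)
          have e2 := loc2 hS h1 (k := 2) hG.e2.1 (r := 1) le_rfl (by omega)
          rw [Nat.add_zero, Nat.add_zero, hG.e6.2.1] at e1
          rw [e1, e2, hG.e2.2.1, show 0 + 1 = 1 from rfl, hy1]
        have h4 : x (S.q 6) = 2 := by
          have e1 := loc4' hS h1 (k := 6) hG.e6.1 (r := 0) (by omega)
          rw [Nat.add_zero, Nat.add_zero, hG.e6.2.2] at e1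
          rw [e1, show 0 + 1 = 1 from rfl, hi.x1, hy1]
        rw [h3, h4, hG.e6.2.1, hG.e6.2.2, hyp2, hx0]; decide
      · have h3 : x (S.b 7) = 2 := by rw [hi.q1p _ hG.e7.2.2, hy1]
        rw [h3, hG.e7.2.1, hyp7, hxq7, hyp2]; decide
    · rw [(hG.hr n).2.1, (hG.hr n).2.2, hyR, hxR, hxq0, hyp0]
      by_cases hn : n ∈ I
      · rw [hh.r1 n hn]; decide
      · rw [hh.r0 n hn]; decide
    · have h3 : x (S.q (st n + 1)) = h (st n + 1) := by
        rw [← loc1 hS h1 (hG.hs n).1, hyS]
      rw [(hG.hs n).2.1, (hG.hs n).2.2, hyS, h3, hxq1, hyR]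
      by_cases hn : n ∈ I
      · rw [hh.r1 n hn, hh.s1 n hn]; decide
      · rw [hh.r0 n hn, hh.s0 n hn]; decide
    · have h3 : x (S.q (st n + 2)) = h (st n + 2) := by
        rw [← loc1 hS h1 (hG.hg n).1, hyG]
      rw [(hG.hg n).2.1, (hG.hg n).2.2, hyG, h3, hxq7, hyS]
      by_cases hn : n ∈ I
      · rw [hh.g1 n hn, hh.s1 n hn]; decide
      · rw [hh.g0 n hn, hh.s0 n hn]; decide
    · by_cases hg : G i n
      · obtain ⟨e, ea, eb⟩ := hG.hc n i hin hg
        have h3 : x (S.q (st n + 3 + i)) = 2 := by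
          rw [← loc1 hS h1 e, hp _ e, hh.c n i hin]
        rw [ea, eb, h3, hp _ e, hh.c n i hin, hx0, hy0]; decide
      · obtain ⟨e, ea, eb⟩ := hG.hd n i hin hg
        have hal := EXII_alt hS (k := st n + 3 + i) (by omega)
        have h3 : y (S.p (st n + 3 + i)) = h (st n + 2) := by
          have e1 := loc4 hS h1 e (r := 0) (by omega)
          rw [Nat.add_zero, Nat.add_zero, ea] at e1
          rw [e1, hyG]
        have h4 : x (S.q (st n + 3 + i)) = 2 := by
          have e1 := loc4' hS h1 e (r := 0) (by omega)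
          rw [Nat.add_zero, Nat.add_zero, eb] at e1
          rw [e1, hxRs]
        have h5 : y (S.a (st n + 3 + i)) = 0 := by
          rw [stage_g hS hG h1 hi n _ ea, hy0]
        rw [h3, h4, h5, eb, hxR]
        refine ⟨?_, by decide⟩
        by_cases hn : n ∈ I
        · have hiI : i ∉ I := fun hiI => hg (hc i hiI n hn hin)
          rw [hh.g1 n hn, hh.r0 i hiI]; decide
        · rw [hh.g0 n hn]
          by_cases hiI : i ∈ I
          · rw [hh.r1 i hiI]; decide
          · rw [hh.r0 i hiI]; decide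
    · have h3 : x (S.q (st n + 3 + n + i)) = h (st n + 3 + n + i) := by
        rw [← loc1 hS h1 (hG.be n i hiw), hblk n i hiw]
      rw [h3, hblk n i hiw]
      constructor
      · by_cases h0 : tl W n i = 0
        · by_cases ht : tl W n (i + 1) = 2
          · have hb := hG.bb1 n i hiw h0 ht
            rw [hi.q1p _ hb, hy1]
            by_cases hn : n ∈ I
            · rw [hh.b1 n hn i hiw, h0]; decide
            · rw [hh.b0 n hn i hiw]; decide
          · have hb := hG.bb2 n i hiw h0 ht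
            rw [hb, hxR]
            by_cases hn : n ∈ I
            · rw [hh.b1 n hn i hiw, h0, hh.r1 n hn]; decide
            · rw [hh.b0 n hn i hiw, hh.r0 n hn]; decide
        · have hb : x (S.b (st n + 3 + n + i)) = 0 := by
            by_cases ht : tl W n (i + 1) = 2
            · rw [hG.bb3 n i hiw h0 ht, hxq7]
            · rw [hG.bb4 n i hiw h0 ht, hxq1]
          rw [hb]
          by_cases hn : n ∈ I
          · rw [hh.b1 n hn i hiw]; exact h0
          · rw [hh.b0 n hn i hiw]; decide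
      · by_cases ht : tl W n i = 2
        · rw [(hya n i hiw).1 ht]
          by_cases hn : n ∈ I
          · rw [hh.b1 n hn i hiw, ht]; decide
          · rw [hh.b0 n hn i hiw]; decide
        · rw [(hya n i hiw).2 ht]
          by_cases hn : n ∈ I
          · rw [hh.b1 n hn i hiw]; exact ht
          · rw [hh.b0 n hn i hiw]; decide
  refine ⟨fun k => (key k).1, fun k => (key k).2, ?_, ?_, ?_, ?_⟩
  · intro k r hr
    rw [hp1 k r hr, hx0]; decide
  · intro k r hr
    rw [← pad1 hS h1 hr, hp1 k r hr, hy0]; decide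
  · intro k r hr
    rw [hp2 k r hr, hx0]; decide
  · intro k r hr
    rw [← pad2 hS h1 hr, hp2 k r hr, hy0]; decide

end

end Pool.Agent.Helper79.CF
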