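import Pool.Agent.CFX.LOC

/-! Module EXIR: the constructed contexts are rich. -/

namespace Pool.Agent.Helper79.CF

section Exi
variable {S : Steps} {st : ℕ → ℕ} {W : ℕ → List (Fin 3)} {G : ℕ → ℕ → Prop}

theorem exi_block (hS : S.Ok) (hG : Spec S st W G) {y x : ℕ → Fin 3} (h1 : Sym S y x)
    (n i r : ℕ) (hi : i < (W n).length) (hr : r ≤ i) :
    y (S.p (st n + 3 + n + i) + r) = y (S.p (st n + 3 + n + (i - r))) := by
  induction r generalizing i with
  | zero => rfl
  | succ r ih =>
    obtain ⟨i, rfl⟩ := Nat.exists_eq_add_of_le' (show 1 ≤ i by omega)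
    have h2 := hG.be n (i + 1) hi
    have h3 := hG.ba n i hi
    have h4 := p_ge hS (st n + 3 + n + i)
    have h5 := p_lt_L hS (st n + 3 + n + i)
    have h6 := L_ge hS (st n + 3 + n + i)
    rw [show st n + 3 + n + i + 1 = st n + 3 + n + (i + 1) by omega] at h3 h4
    rw [loc2 hS h1 h2 (r := r + 1) (by omega) (by omega),
      show S.a (st n + 3 + n + (i + 1)) + (r + 1) = S.p (st n + 3 + n + i) + r by omega,
      ih i (by omega) (by omega), show i + 1 - (r + 1) = i - r by omega]

theorem exi_rich (hS : S.Ok) (hG : Spec S st W G) (hW : ∀ l, ∃ N, ∀ n ≥ N, l <:+: W n)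
    {I : Set ℕ} (hI : I.Infinite) {h : ℕ → Fin 3} (hh : HL st W I h)
    {y x : ℕ → Fin 3} (h1 : Sym S y x) (hp : ∀ k, S.ε k = 1 → y (S.p k) = h k) :
    Rich S.data y x := by
  intro N v
  rcases Nat.eq_zero_or_pos N with rfl | hN
  · exact ⟨0, 0, Nat.zero_le _, fun t => t.elim0⟩
  obtain ⟨N0, hN0⟩ := hW (List.ofFn v).reverse
  obtain ⟨n, hnI, hn⟩ := hI.exists_gt N0
  obtain ⟨s, t, hst⟩ := hN0 n hn.le
  have hlen : (W n).length = s.length + N + t.length := by
    rw [← hst]
    simp
    omega
  set i0 := s.length + N - 1 with hi0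
  have key : ∀ r (hr : r < N), y (S.p (st n + 3 + n + i0) + r) = v ⟨r, hr⟩ := by
    intro r hr
    rw [exi_block hS hG h1 n i0 r (by omega) (by omega), hp _ (hG.be n (i0 - r) (by omega)),
      hh.b1 n hnI (i0 - r) (by omega), tl, List.getD_eq_getElem _ _ (by omega)]
    have h2 : i0 - r = s.length + (N - 1 - r) := by omega
    simp only [h2, ← hst]
    rw [List.getElem_append_left (by simp; omega), List.getElem_append_right (by omega),
      List.getElem_reverse, List.getElem_ofFn]
    congr 1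
    ext
    simp
    omega
  set c := S.p (st n + 3 + n + i0) with hc
  have h4 := p_ge hS (c + N)
  have h5 := L_ge hS (c + N)
  have hdp : S.data.p (3 * (c + N + 1)) = S.p (c + N + 1) := by
    simp [Steps.data]
  have hdm : S.data.m (3 * (c + N + 1)) = S.M (c + N + 1) := by
    simp [Steps.data]
  refine ⟨3 * (c + N + 1), c, ?_, ?_⟩
  · rw [hdm]
    have := hS.hp (c + N + 1)
    omega
  · intro r
    rw [gap, if_pos (by rw [hdp]; omega), key r r.2]

end Exi

end Pool.Agent.Helper79.CF
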