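import Pool.Agent.Helper79.CF.Defs

/-!
Module STEP: the letters behind the letters `none`.
-/

namespace Pool.Agent.Helper79.CF

section Step
variable {K : Type*} {u : ℕ → Option K}

theorem exists_cls (hi : Inf u) (hr : Run u) (n M : ℕ) : ∃ i ≥ M, Cls u n i := by
  classical
  obtain ⟨t, htM, ht⟩ := hr n M
  have hex : ∃ s, t ≤ s ∧ u s = none := by
    obtain ⟨s, hs, hs'⟩ := hi t
    exact ⟨s, hs, hs'⟩
  obtain ⟨h1, h2⟩ := Nat.find_spec hex
  have hmin : ∀ r, t ≤ r → r < Nat.find hex → u r ≠ none := fun r hr1 hr2 h =>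
    Nat.find_min hex hr2 ⟨hr1, h⟩
  generalize Nat.find hex = s at h1 h2 hmin
  have hsn : t + n ≤ s := by
    by_contra hlt
    have := ht (s - t) (by omega)
    rw [show t + (s - t) = s by omega] at this
    exact this h2
  refine ⟨s - n, by omega, fun r hr1 => hmin _ (by omega) (by omega), ?_⟩
  rw [show s - n + n = s by omega]
  exact h2

theorem step_unbounded (hr : Run u) {T N : ℕ} (hT : u T = none)
    (h : ∀ t, T ≤ t → u t = none → ∃ i < N, u (t + 1 + i) = none) : False := by
  classical
  obtain ⟨t0, h0, hn⟩ := hr N T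
  obtain ⟨i0, hi0, -⟩ := h T le_rfl hT
  let t := Nat.findGreatest (fun s => u s = none) t0
  have ht1 : u t = none := Nat.findGreatest_spec (P := fun s => u s = none) h0 hT
  have ht2 : T ≤ t := Nat.le_findGreatest h0 hT
  have ht3 : t ≤ t0 := Nat.findGreatest_le t0
  have ht4 : t ≠ t0 := by
    intro he
    have := hn 0 (by omega)
    rw [add_zero, ← he] at this
    exact this ht1
  obtain ⟨i, hi, hui⟩ := h t ht2 ht1
  by_cases hc : t + 1 + i ≤ t0
  · have : t + 1 + i ≤ t := Nat.le_findGreatest hc hui
    omega
  · have := hn (t + 1 + i - t0) (by omega)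
    rw [show t0 + (t + 1 + i - t0) = t + 1 + i by omega] at this
    exact this hui

theorem st_succ (hr : Run u) {n T : ℕ} (h : St u n T) (h2 : F2 u (n + 1)) :
    St u (n + 1) T := by
  have key : ∀ t, T ≤ t → u t = none → u (t + 1 + n) = u (T + 1 + n) := by
    intro t ht hu
    have h3 := h2 t T (fun r hr1 => by
      rcases Nat.eq_zero_or_pos r with h0 | h0
      · subst h0
        rw [add_zero, add_zero, hu, h.here]
      · have := (h.next t ht hu (r - 1) (by omega)).2
        rw [show t + 1 + (r - 1) = t + r by omega, show T + 1 + (r - 1) = T + r by omega] at this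
        exact this) ⟨0, by omega, by rw [add_zero]; exact hu⟩
    rw [show t + (n + 1) = t + 1 + n by omega, show T + (n + 1) = T + 1 + n by omega] at h3
    exact h3
  have hne : u (T + 1 + n) ≠ none := by
    intro h0
    exact step_unbounded hr h.here (N := n + 1) fun t ht hu =>
      ⟨n, by omega, by rw [key t ht hu, h0]⟩
  refine ⟨h.here, fun t ht hu i hi => ?_⟩
  rcases Nat.lt_or_ge i n with h4 | h4
  · exact h.next t ht hu i h4
  · obtain rfl : i = n := by omega
    rw [key t ht hu]
    exact ⟨hne, rfl⟩

theorem step_far {n0 T t' : ℕ} (h : St u n0 T) (ht : T < t') (hu : u t' = none) :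
    T + 1 + n0 ≤ t' := by
  by_contra hc
  have := (h.next T le_rfl h.here (t' - T - 1) (by omega)).1
  rw [show T + 1 + (t' - T - 1) = t' by omega] at this
  exact this hu

theorem step_cls {n0 T t' : ℕ} (h : St u n0 T) (ht : T < t') (hu : u t' = none) :
    Cls u n0 (t' - n0) := by
  have h1 := step_far h ht hu
  refine ⟨fun r hr h0 => ?_, by rw [show t' - n0 + n0 = t' by omega]; exact hu⟩
  have := (h.next (t' - n0 + r) (by omega) h0 (n0 - r - 1) (by omega)).1
  rw [show t' - n0 + r + 1 + (n0 - r - 1) = t' by omega] at this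
  exact this hu

theorem st_step (hi : Inf u) (hr : Run u) {n0 n1 T t : ℕ} (h : St u n0 T) (h01 : n0 < n1)
    (h12 : n1 ≤ 2 * n0 + 1) (f1 : F1 u n0) (f2 : F2 u n1) (hT : T < t) (ht : u t = none) :
    St u n1 t := by
  have key : ∀ t', t ≤ t' → u t' = none → ∀ i < n1, u (t' + 1 + i) = u (t + 1 + i) := by
    intro t' htt hu i
    induction i using Nat.strong_induction_on with
    | _ i ih =>
      intro hi
      rcases Nat.lt_or_ge i n0 with h1 | h1
      · rw [(h.next t' (by omega) hu i h1).2, (h.next t (by omega) ht i h1).2]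
      · have g1 := step_far h hT ht
        have g2 := step_far h (show T < t' by omega) hu
        have e1 := f1 _ _ (step_cls h (show T < t' by omega) hu) (step_cls h hT ht)
        have h3 := f2 (t' + 1 + i - n1) (t + 1 + i - n1) (fun r hr1 => by
          rcases lt_trichotomy r (n1 - 1 - i) with h4 | h4 | h4
          · have := e1 (n0 - (n1 - 1 - i) + r) (by omega)
            rw [show t' - n0 + (n0 - (n1 - 1 - i) + r) = t' + 1 + i - n1 + r by omega,
              show t - n0 + (n0 - (n1 - 1 - i) + r) = t + 1 + i - n1 + r by omega] at this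
            exact this
          · rw [show t' + 1 + i - n1 + r = t' by omega, show t + 1 + i - n1 + r = t by omega, hu,
              ht]
          · have := ih (r - (n1 - 1 - i) - 1) (by omega) (by omega)
            rw [show t' + 1 + (r - (n1 - 1 - i) - 1) = t' + 1 + i - n1 + r by omega,
              show t + 1 + (r - (n1 - 1 - i) - 1) = t + 1 + i - n1 + r by omega] at this
            exact this) ⟨n1 - 1 - i, by omega, by
              rw [show t' + 1 + i - n1 + (n1 - 1 - i) = t' by omega]; exact hu⟩
        rw [show t' + 1 + i - n1 + n1 = t' + 1 + i by omega,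
          show t + 1 + i - n1 + n1 = t + 1 + i by omega] at h3
        exact h3
  refine ⟨ht, fun t' htt hu i hi1 => ⟨fun h0 => ?_, key t' htt hu i hi1⟩⟩
  have h5 : u (t + 1 + i) = none := by rw [← key t' htt hu i hi1, h0]
  exact step_unbounded hr ht (N := n1) fun s hs hus => ⟨i, hi1, by rw [key s hs hus i hi1, h5]⟩

end Step

end Pool.Agent.Helper79.CF
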