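import Pool.Agent.Helper79.CF.Defs
import Pool.Agent.CFX.COUNTA
import Pool.Agent.CFX.STEP

/-!
# The word begins with `none`
-/

namespace Pool.Agent.Helper79.CF

section Step
variable {K : Type*} {u : ℕ → Option K}

/-- letters before a `none` -/
lemma init_cls {n T t τ : ℕ} (h : St u n T) (hTt : T ≤ t) (ht : u t = none)
    (hτ : t < τ) (hu : u τ = none) :
    t + n + 1 ≤ τ := by
  by_contra hlt
  have h1 := (h.next t hTt ht (τ - t - 1) (by omega)).1
  apply h1
  rw [show t + 1 + (τ - t - 1) = τ by omega]
  exact hu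

/-- the last `none` before `τ` -/
lemma init_prev {t τ : ℕ} (ht : u t = none) (hτ : t < τ) :
    ∃ t', t ≤ t' ∧ t' < τ ∧ u t' = none ∧ ∀ r, t' < r → r < τ → u r ≠ none := by
  induction τ, hτ using Nat.le_induction with
  | base => exact ⟨t, le_rfl, Nat.lt_succ_self t, ht, fun r h1 h2 => by omega⟩
  | succ τ hτ ih =>
    obtain ⟨t', h1, h2, h3, h4⟩ := ih
    by_cases h5 : u τ = none
    · exact ⟨τ, by omega, Nat.lt_succ_self τ, h5, fun r h1 h2 => by omega⟩
    · refine ⟨t', h1, by omega, h3, fun r h6 h7 => ?_⟩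
      rcases Nat.lt_or_ge r τ with h8 | h8
      · exact h4 r h6 h8
      · rw [show r = τ by omega]; exact h5

/-- far from the previous `none` -/
lemma init_far {n t τ : ℕ} (h : St u n t) (hτ : t < τ) (hu : u τ = none) :
    t + n + 1 ≤ τ ∧ Cls u n (τ - n) := by
  obtain ⟨t', h1, h2, h3, h4⟩ := init_prev h.here hτ
  have h5 := init_cls h h1 h3 h2 hu
  refine ⟨by omega, fun r hr => h4 _ (by omega) (by omega), ?_⟩
  rw [show τ - n + n = τ by omega]; exact hu

theorem init_none [Finite K] (hi : Inf u) (hr : Run u) {P : ℕ} (hP : 1 ≤ P)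
    (h1 : ∀ n ≤ P, F1 u n ∧ F2 u n) (h2 : F1 u (P + 2) ∧ F2 u (P + 2))
    (h3 : gw u (P + 2) = gw u (P + 1) + 3) : u 0 = none := by
  classical
  have hex : ∃ t, u t = none := by
    obtain ⟨t, _, ht⟩ := hi 0
    exact ⟨t, ht⟩
  obtain ⟨T, hT, hTmin⟩ : ∃ T, u T = none ∧ ∀ r < T, u r ≠ none :=
    ⟨Nat.find hex, Nat.find_spec hex, fun r hr' => Nat.find_min hex hr'⟩
  rcases Nat.eq_zero_or_pos T with h0 | h0
  · rw [← h0]; exact hT
  exfalso
  -- the next `none`
  have hex2 : ∃ t, T < t ∧ u t = none := by
    obtain ⟨t, ht1, ht⟩ := hi (T + 1)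
    exact ⟨t, by omega, ht⟩
  obtain ⟨t, hTt, ht, htmin⟩ : ∃ t, T < t ∧ u t = none ∧ ∀ r, T < r → r < t → u r ≠ none :=
    ⟨Nat.find hex2, (Nat.find_spec hex2).1, (Nat.find_spec hex2).2,
      fun r h4 h5 h6 => Nat.find_min hex2 h5 ⟨h4, h6⟩⟩
  obtain ⟨s, hts, hs⟩ : ∃ s, t < s ∧ u s = none := by
    obtain ⟨s, h4, h5⟩ := hi (t + 1)
    exact ⟨s, by omega, h5⟩
  have hst0 : ∀ n ≤ P, St u n T := by
    intro n
    induction n with
    | zero => intro _; exact ⟨hT, fun _ _ _ i hi' => by omega⟩
    | succ n ih => intro hn; exact st_succ hr (ih (by omega)) (h1 (n + 1) hn).2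
  have hsP := hst0 P le_rfl
  have hst2 : St u (P + 2) t :=
    st_step hi hr hsP (by omega) (by omega) (h1 P le_rfl).1 h2.2 hTt ht
  -- the letters at distance `P + 1`
  have hs' := hst2.next s (by omega) hs
  have e1 : u (T + 1 + P) = u (t + 1 + P) := by
    have hc1 : Cls u 1 (T - 1) := by
      refine ⟨fun r hr' => hTmin _ (by omega), ?_⟩
      rw [show T - 1 + 1 = T by omega]; exact hT
    have hc2 : Cls u 1 (s - 1) := by
      have h4 := (init_far hst2 hts hs).2
      refine ⟨fun r hr' => ?_, ?_⟩
      · have h5 := h4.1 (P + 1) (by omega)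
        have h6 := (init_far hst2 hts hs).1
        rw [show s - (P + 2) + (P + 1) = s - 1 + r by omega] at h5
        exact h5
      · rw [show s - 1 + 1 = s by omega]; exact hs
    have h4 := (h1 1 hP).1 _ _ hc1 hc2
    have h5 := h2.2 (T - 1) (s - 1) (by
      intro r hr'
      rcases Nat.eq_zero_or_pos r with h6 | h6
      · subst h6; exact h4 0 (by omega)
      rcases Nat.lt_or_ge r 2 with h7 | h7
      · rw [show T - 1 + r = T by omega, show s - 1 + r = s by omega, hT, hs]
      · have h8 := (hsP.next s (by omega) hs (r - 2) (by omega)).2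
        rw [show T - 1 + r = T + 1 + (r - 2) by omega, show s - 1 + r = s + 1 + (r - 2) by omega]
        exact h8.symm) ⟨1, by omega, by rw [show T - 1 + 1 = T by omega]; exact hT⟩
    rw [show T - 1 + (P + 2) = T + 1 + P by omega, show s - 1 + (P + 2) = s + 1 + P by omega] at h5
    rw [h5]
    exact (hs' P (by omega)).2
  have hst1 : St u (P + 1) T := by
    refine ⟨hT, fun τ hτ hτu i hi' => ?_⟩
    rcases Nat.lt_or_ge i P with h4 | h4
    · exact hsP.next τ hτ hτu i h4
    · obtain rfl : i = P := by omega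
      rcases Nat.lt_or_ge τ t with h5 | h5
      · have h6 : τ = T := by
          by_contra h7
          exact htmin τ (by omega) h5 hτu
        subst h6
        refine ⟨?_, rfl⟩
        rw [e1]
        exact (hst2.next t le_rfl ht i (by omega)).1
      · have h6 := hst2.next τ h5 hτu i (by omega)
        exact ⟨h6.1, h6.2.trans e1.symm⟩
  -- `F2` at level `P + 1`
  have hF2 : F2 u (P + 1) := by
    intro i i' he hn
    by_cases h4 : ∃ r, 1 ≤ r ∧ r < P + 1 ∧ u (i + r) = none
    · obtain ⟨r, h5, h6, h7⟩ := h4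
      have h8 := (h1 P le_rfl).2 (i + 1) (i' + 1) (fun q hq => by
        have := he (q + 1) (by omega)
        rw [show i + 1 + q = i + (q + 1) by ring, show i' + 1 + q = i' + (q + 1) by ring]
        exact this) ⟨r - 1, by omega, by rw [show i + 1 + (r - 1) = i + r by omega]; exact h7⟩
      rw [show i + 1 + P = i + (P + 1) by ring, show i' + 1 + P = i' + (P + 1) by ring] at h8
      exact h8
    · obtain ⟨r, h5, h6⟩ := hn
      have h7 : r = 0 := by
        by_contra h8
        exact h4 ⟨r, by omega, h5, h6⟩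
      subst h7
      have h8 : u i' = none := by
        have := he 0 (by omega)
        rw [add_zero] at this h6
        rw [add_zero] at this
        rw [← this]; exact h6
      rw [add_zero] at h6
      have hiT : T ≤ i := by
        by_contra h9
        exact hTmin i (by omega) h6
      have hiT' : T ≤ i' := by
        by_contra h9
        exact hTmin i' (by omega) h8
      have h9 := (hst1.next i hiT h6 P (by omega)).2
      have h10 := (hst1.next i' hiT' h8 P (by omega)).2
      rw [show i + (P + 1) = i + 1 + P by ring, show i' + (P + 1) = i' + 1 + P by ring, h9, h10]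
  have hthree : ∀ i i', ∃ j, Cls u (P + 1) j ∧ ¬ EqW u (P + 1) j i ∧ ¬ EqW u (P + 1) j i' := by
    intro i i'
    by_contra h4
    push Not at h4
    have h5 := cnt_le hF2 i i' (fun j hj => by
      by_cases h6 : EqW u (P + 1) j i
      · exact Or.inl h6
      · exact Or.inr (h4 j hj h6))
    rw [show P + 1 + 1 = P + 2 from rfl] at h5
    omega
  -- all later `none` have the class of `s`
  have hlate : ∀ τ, t < τ → u τ = none → EqW u (P + 1) (τ - (P + 1)) (s - (P + 1)) := by
    intro τ h4 h5
    have h6 := init_far hst2 h4 h5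
    have h7 := init_far hst2 hts hs
    have h8 := h2.1 _ _ h6.2 h7.2
    intro r hr'
    have h9 := h8 (r + 1) (by omega)
    rw [show τ - (P + 2) + (r + 1) = τ - (P + 1) + r by omega,
      show s - (P + 2) + (r + 1) = s - (P + 1) + r by omega] at h9
    exact h9
  have hcases : ∀ j, Cls u (P + 1) j → j + (P + 1) = T ∨ j + (P + 1) = t ∨ t < j + (P + 1) := by
    intro j hj
    rcases Nat.lt_trichotomy (j + (P + 1)) t with h4 | h4 | h4
    · left
      rcases Nat.lt_trichotomy (j + (P + 1)) T with h5 | h5 | h5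
      · exact absurd hj.2 (hTmin _ h5)
      · exact h5
      · exact absurd hj.2 (htmin _ h5 h4)
    · exact Or.inr (Or.inl h4)
    · exact Or.inr (Or.inr h4)
  have hc_late : ∀ j, Cls u (P + 1) j → t < j + (P + 1) → EqW u (P + 1) j (s - (P + 1)) := by
    intro j hj h4
    have := hlate _ h4 hj.2
    rw [show j + (P + 1) - (P + 1) = j by omega] at this
    exact this
  -- the class of `T`
  obtain ⟨j, hj, hj1, hj2⟩ := hthree (t - (P + 1)) (s - (P + 1))
  have hjT : j + (P + 1) = T := by
    rcases hcases j hj with h4 | h4 | h4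
    · exact h4
    · exfalso; apply hj1
      rw [show t - (P + 1) = j by omega]
      exact fun r _ => rfl
    · exact absurd (hc_late j hj h4) hj2
  -- the class of `t`
  obtain ⟨j', hj', hj1', hj2'⟩ := hthree j (s - (P + 1))
  have hjt : j' + (P + 1) = t := by
    rcases hcases j' hj' with h4 | h4 | h4
    · exfalso; apply hj1'
      rw [show j' = j by omega]
      exact fun r _ => rfl
    · exact h4
    · exact absurd (hc_late j' hj' h4) hj2'
  have hfar := init_far hst2 hts hs
  -- `T = P + 1`
  have hTP : T = P + 1 := by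
    by_contra h4
    have h5 : Cls u (P + 2) (T - (P + 2)) := by
      refine ⟨fun r hr' => hTmin _ (by omega), ?_⟩
      rw [show T - (P + 2) + (P + 2) = T by omega]; exact hT
    have h6 := h2.1 _ _ h5 hfar.2
    apply hj2
    intro r hr'
    have h7 := h6 (r + 1) (by omega)
    rw [show T - (P + 2) + (r + 1) = j + r by omega,
      show s - (P + 2) + (r + 1) = s - (P + 1) + r by omega] at h7
    exact h7
  have htP : t = T + P + 2 := by
    have h8 := init_cls hst1 le_rfl hT hTt ht
    by_contra h4
    have h5 : Cls u (P + 2) (t - (P + 2)) := by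
      refine ⟨fun r hr' => htmin _ (by omega) (by omega), ?_⟩
      rw [show t - (P + 2) + (P + 2) = t by omega]; exact ht
    have h6 := h2.1 _ _ h5 hfar.2
    apply hj2'
    intro r hr'
    have h7 := h6 (r + 1) (by omega)
    rw [show t - (P + 2) + (r + 1) = j' + r by omega,
      show s - (P + 2) + (r + 1) = s - (P + 1) + r by omega] at h7
    exact h7
  -- the contradiction
  have hfin := h2.2 T t (by
    intro r hr'
    rcases Nat.eq_zero_or_pos r with h6 | h6
    · subst h6; rw [add_zero, add_zero, hT, ht]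
    · have h7 := (hst1.next t hTt.le ht (r - 1) (by omega)).2
      rw [show T + r = T + 1 + (r - 1) by omega, show t + r = t + 1 + (r - 1) by omega]
      exact h7.symm) ⟨0, by omega, by rw [add_zero]; exact hT⟩
  have h4 := (hst2.next t le_rfl ht (P + 1) (by omega)).1
  apply h4
  rw [show t + 1 + (P + 1) = t + (P + 2) by ring, ← hfin, show T + (P + 2) = t by omega]
  exact ht

end Step

end Pool.Agent.Helper79.CF
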