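import Pool.Agent.Helper79.CF.Defs

/-!
Module LEVE for MP_7c7486_co (blueprint of helper79).
-/

namespace Pool.Agent.Helper79.CF

section LEVE
variable {K : Type*} {u : ℕ → Option K}

/-- A `none` after `T` is preceded by `n` letters different from `none`. -/
theorem levE_pre {n T a : ℕ} (h : St u n T) (ha : u a = none) (hTa : T < a) :
    T + n < a ∧ ∀ r, r < a → a ≤ r + n → u r ≠ none := by
  have key : ∀ r, T ≤ r → r < a → a ≤ r + n → u r ≠ none := by
    intro r h1 h2 h3 h4
    have := (h.next r h1 h4 (a - r - 1) (by omega)).1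
    rw [show r + 1 + (a - r - 1) = a by omega] at this
    exact this ha
  have h1 : T + n < a := by
    by_contra hc
    exact key T le_rfl hTa (by omega) h.here
  exact ⟨h1, fun r h2 h3 => key r (by omega) h2 h3⟩

theorem levE_cls {n m T a : ℕ} (h : St u n T) (ha : u a = none) (hTa : T < a) (hm : m ≤ n) :
    Cls u m (a - m) := by
  obtain ⟨h1, h2⟩ := levE_pre h ha hTa
  refine ⟨fun r hr => h2 _ (by omega) (by omega), ?_⟩
  rw [show a - m + m = a by omega]
  exact ha

/-- Every class of length `n` ends at `t` or is equal to the class before `s`. -/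
theorem levE_cases {n0 n1 T t s Q n : ℕ} (h : Mac u n0 n1 T t s Q)
    (hn0 : n0 ≤ n) (hn1 : n ≤ n1) {i : ℕ} (hc : Cls u n i) :
    (i + n = t ∧ n ≤ t - T - 1) ∨ EqW u n i (s - n) := by
  obtain ⟨h1, h2⟩ := hc
  have hTt := h.Tt
  have hts := h.ts
  have g1 : T < i + n := by
    by_contra hc
    obtain ⟨r, hr, h3⟩ := h.pv (i + n - n0) (by omega)
      (by rw [show i + n - n0 + n0 = i + n by omega]; exact h2)
    refine h1 (n - n0 + r) (by omega) ?_
    rw [← h3]
    congr 1
    omega
  have g2 : t ≤ i + n := by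
    by_contra hc
    exact h.bt _ g1 (by omega) h2
  rcases g2.eq_or_lt with g3 | g3
  · left
    refine ⟨g3.symm, ?_⟩
    by_contra hc
    refine h1 (T - i) (by omega) ?_
    rw [show i + (T - i) = T by omega]
    exact h.stT.here
  · right
    have e1 := (levE_pre h.stt h2 g3).1
    have e2 := (levE_pre h.stt h.hs hts).1
    have e3 := h.g1 _ _ (levE_cls h.stt h2 g3 le_rfl) (levE_cls h.stt h.hs hts le_rfl)
    intro r hr
    have := e3 (n1 - n + r) (by omega)
    rwa [show i + n - n1 + (n1 - n + r) = i + r by omega,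
      show s - n1 + (n1 - n + r) = s - n + r by omega] at this

theorem levE {n0 n1 T t s Q q' n : ℕ} (h : Mac u n0 n1 T t s Q) (hq1 : q' ≤ n1)
    (hq : ∀ i i' c, c < q' → i + c + 1 = t → i' + c + 1 = s → u i = u i')
    (hq' : q' < n1 → ∀ i i', i + q' + 1 = t → i' + q' + 1 = s → u i ≠ u i')
    (hn0 : n0 ≤ n) (hn1 : n ≤ n1) :
    (¬ (q' < n ∧ n ≤ t - T - 1) → F1 u n) ∧
      ((q' < n ∧ n ≤ t - T - 1) → ∃ i i', Cls u n i ∧ Cls u n i' ∧ ¬ EqW u n i i' ∧
        ∀ j, Cls u n j → EqW u n j i ∨ EqW u n j i') := by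
  have hTt := h.Tt
  have hts := h.ts
  have e2 := (levE_pre h.stt h.hs hts).1
  constructor
  · intro hn
    have key : ∀ i, Cls u n i → EqW u n i (s - n) := by
      intro i hi
      rcases levE_cases h hn0 hn1 hi with ⟨h1, h2⟩ | h1
      · intro r hr
        exact hq _ _ (n - 1 - r) (by omega) (by omega) (by omega)
      · exact h1
    intro i i' hi hi' r hr
    rw [key i hi r hr, key i' hi' r hr]
  · rintro ⟨hn2, hn3⟩
    refine ⟨t - n, s - n, ⟨fun r hr => h.bt _ (by omega) (by omega), ?_⟩,
      levE_cls h.stt h.hs hts hn1, ?_, ?_⟩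
    · rw [show t - n + n = t by omega]
      exact h.stt.here
    · intro he
      exact hq' (by omega) _ _ (by omega) (by omega) (he (n - 1 - q') (by omega))
    · intro j hj
      rcases levE_cases h hn0 hn1 hj with ⟨h1, h2⟩ | h1
      · left
        obtain rfl : j = t - n := by omega
        exact fun r _ => rfl
      · exact Or.inr h1

end LEVE

end Pool.Agent.Helper79.CF
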