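import Pool.Agent.Helper79.CF.Defs

/-!
Module LEVR for MP_7c7486_co (blueprint of helper79).
-/

namespace Pool.Agent.Helper79.CF

section LEVR
variable {K : Type*} {u : ℕ → Option K}

theorem levR_last (P : ℕ → Prop) (n : ℕ) (h : ∃ r < n, P r) :
    ∃ o < n, P o ∧ ∀ r, o < r → r < n → ¬ P r := by
  induction n with
  | zero => obtain ⟨r, hr, _⟩ := h; omega
  | succ n ih =>
    by_cases hn : P n
    · exact ⟨n, by omega, hn, fun r h1 h2 => by omega⟩
    · obtain ⟨r, hr, hPr⟩ := h
      have hrn : r ≠ n := by rintro rfl; exact hn hPr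
      obtain ⟨o, ho, hPo, hm⟩ := ih ⟨r, by omega, hPr⟩
      refine ⟨o, by omega, hPo, fun r h1 h2 => ?_⟩
      by_cases hrn : r = n
      · rw [hrn]; exact hn
      · exact hm r h1 (by omega)

/-- A `none` after `T` is preceded by `n` letters different from `none`. -/
theorem levR_pre {n T a : ℕ} (h : St u n T) (ha : u a = none) (hTa : T < a) :
    T + n < a ∧ ∀ r, r < a → a ≤ r + n → u r ≠ none := by
  have key : ∀ r, T ≤ r → r < a → a ≤ r + n → u r ≠ none := by
    intro r h1 h2 h3 h4
    have := (h.next r h1 h4 (a - r - 1) (by omega)).1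
    rw [show r + 1 + (a - r - 1) = a by omega] at this
    exact this ha
  have h1 : T + n < a := by
    by_contra hc
    exact key T le_rfl hTa (by omega) h.here
  exact ⟨h1, fun r h2 h3 => key r (by omega) h2 h3⟩

theorem levR_cls {n T a : ℕ} (h : St u n T) (ha : u a = none) (hTa : T < a) :
    Cls u n (a - n) := by
  obtain ⟨h1, h2⟩ := levR_pre h ha hTa
  refine ⟨fun r hr => h2 _ (by omega) (by omega), ?_⟩
  rw [show a - n + n = a by omega]
  exact ha

theorem levR_ge {n T a : ℕ} (h : Pv u n T) (hT : u T = none)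
    (ha : ∀ r < n, u (a + 1 + r) ≠ none) : T ≤ a := by
  by_contra hc
  push Not at hc
  classical
  have hex : ∃ b, a < b ∧ u b = none := ⟨T, hc, hT⟩
  obtain ⟨b, h1, h2, h3⟩ : ∃ b, (a < b ∧ u b = none) ∧ b ≤ T ∧
      ∀ r, a < r → r < b → u r ≠ none :=
    ⟨Nat.find hex, Nat.find_spec hex, Nat.find_min' hex ⟨hc, hT⟩,
      fun r hr1 hr2 h4 => Nat.find_min hex hr2 ⟨hr1, h4⟩⟩
  have h5 : a + n < b := by
    by_contra h6
    exact ha (b - a - 1) (by omega) (by rw [show a + 1 + (b - a - 1) = b by omega]; exact h1.2)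
  obtain ⟨r, hr, h7⟩ := h (b - n) (by omega) (by rw [show b - n + n = b by omega]; exact h1.2)
  exact h3 _ (by omega) (by omega) h7

theorem levR_half {n0 n1 T t s Q p' n : ℕ} (h : Mac u n0 n1 T t s Q)
    (hp : ∀ i < p', u (T + 1 + i) = u (t + 1 + i))
    (hp' : p' < n1 → u (T + 1 + p') ≠ u (t + 1 + p')) (hn1 : n ≤ n1)
    {i i' o l : ℕ} (hl : o + l + 1 = n) (hl0 : n0 ≤ l) (he : EqW u n i i')
    (hne : u (i + n) ≠ u (i' + n)) (hi : i + o = T) (hi' : t ≤ i' + o)
    (hz : u (i' + o) = none) : l = p' ∧ o ≤ Q := by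
  have e1 : ∀ j < n1, u (i' + o + 1 + j) = u (t + 1 + j) := fun j hj =>
    (h.stt.next _ hi' hz j hj).2
  have e2 : ∀ j < l, u (T + 1 + j) = u (t + 1 + j) := by
    intro j hj
    rw [← e1 j (by omega)]
    have := he (o + 1 + j) (by omega)
    rwa [show i + (o + 1 + j) = T + 1 + j by omega,
      show i' + (o + 1 + j) = i' + o + 1 + j by omega] at this
  have e3 : u (T + 1 + l) ≠ u (t + 1 + l) := by
    rw [← e1 l (by omega)]
    rwa [show i + n = T + 1 + l by omega, show i' + n = i' + o + 1 + l by omega] at hne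
  have e4 : l = p' := by
    rcases lt_trichotomy l p' with h1 | h1 | h1
    · exact absurd (hp l h1) e3
    · exact h1
    · exact absurd (e2 p' h1) (hp' (by omega))
  refine ⟨e4, ?_⟩
  by_contra hc
  push Not at hc
  have h12 := h.h12
  have hTt := h.Tt
  have hts := h.ts
  have e5 := h.f1 _ _ (levR_cls h.stT hz (by omega)) (levR_cls h.stT h.hs (by omega))
    (n0 - 1 - Q) (by omega)
  have e6 := (levR_pre h.stT hz (by omega)).1
  have e7 := (levR_pre h.stT h.hs (by omega)).1
  have e8 := he (o - 1 - Q) (by omega)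
  refine h.leftne (T - 1 - Q) (s - 1 - Q) (by omega) (by omega) ?_
  rw [show T - 1 - Q = i + (o - 1 - Q) by omega, e8,
    show i' + (o - 1 - Q) = i' + o - n0 + (n0 - 1 - Q) by omega, e5]
  congr 1
  omega

theorem levR_coll {n0 n1 T t s Q p' n : ℕ} (h : Mac u n0 n1 T t s Q)
    (hp : ∀ i < p', u (T + 1 + i) = u (t + 1 + i))
    (hp' : p' < n1 → u (T + 1 + p') ≠ u (t + 1 + p')) (hn0 : n0 ≤ n) (hn1 : n ≤ n1)
    {i i' : ℕ} (hc : Coll u n i i') :
    ∃ o, o + p' + 1 = n ∧ o ≤ Q ∧
      ((i + o = T ∧ t ≤ i' + o ∧ u (i' + o) = none) ∨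
        (i' + o = T ∧ t ≤ i + o ∧ u (i + o) = none)) := by
  obtain ⟨he, hex, hne⟩ := hc
  obtain ⟨o, ho, hz, hm⟩ := levR_last (fun r => u (i + r) = none) n hex
  have hz' : u (i' + o) = none := by rw [← he o ho]; exact hz
  have hl : n0 ≤ n - 1 - o := by
    by_contra hl
    push Not at hl
    refine hne ?_
    have := h.f2 (i + (n - n0)) (i' + (n - n0)) ?_ ⟨o - (n - n0), by omega, ?_⟩
    · rwa [show i + (n - n0) + n0 = i + n by omega,
        show i' + (n - n0) + n0 = i' + n by omega] at this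
    · intro r hr
      have := he (n - n0 + r) (by omega)
      rwa [show i + (n - n0 + r) = i + (n - n0) + r by omega,
        show i' + (n - n0 + r) = i' + (n - n0) + r by omega] at this
    · rw [show i + (n - n0) + (o - (n - n0)) = i + o by omega]
      exact hz
  have g1 : T ≤ i + o := levR_ge h.pv h.stT.here fun r hr => by
    rw [show i + o + 1 + r = i + (o + 1 + r) by omega]
    exact hm _ (by omega) (by omega)
  have g2 : T ≤ i' + o := levR_ge h.pv h.stT.here fun r hr => by
    rw [show i' + o + 1 + r = i' + (o + 1 + r) by omega, ← he (o + 1 + r) (by omega)]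
    exact hm _ (by omega) (by omega)
  have k1 : ∀ a, T ≤ a → a ≠ T → u a = none → t ≤ a := by
    intro a h1 h2 h3
    by_contra h4
    exact h.bt a (by omega) (by omega) h3
  by_cases c1 : i + o = T
  · by_cases c2 : i' + o = T
    · exact absurd (by rw [show i = i' by omega]) hne
    · obtain ⟨e1, e2⟩ := levR_half h hp hp' hn1 (l := n - 1 - o) (by omega) hl he hne c1
        (k1 _ g2 c2 hz') hz'
      exact ⟨o, by omega, e2, Or.inl ⟨c1, k1 _ g2 c2 hz', hz'⟩⟩
  · by_cases c2 : i' + o = T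
    · obtain ⟨e1, e2⟩ := levR_half h hp hp' hn1 (l := n - 1 - o) (by omega) hl
        (fun r hr => (he r hr).symm) hne.symm c2 (k1 _ g1 c1 hz) hz
      exact ⟨o, by omega, e2, Or.inr ⟨c2, k1 _ g1 c1 hz, hz⟩⟩
    · exfalso
      apply hne
      have a1 := (h.stt.next _ (k1 _ g1 c1 hz) hz (n - 1 - o) (by omega)).2
      have a2 := (h.stt.next _ (k1 _ g2 c2 hz') hz' (n - 1 - o) (by omega)).2
      rw [show i + n = i + o + 1 + (n - 1 - o) by omega,
        show i' + n = i' + o + 1 + (n - 1 - o) by omega, a1, a2]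

theorem levR {n0 n1 T t s Q p' n : ℕ} (h : Mac u n0 n1 T t s Q) (hp1 : p' ≤ n1)
    (hp : ∀ i < p', u (T + 1 + i) = u (t + 1 + i))
    (hp' : p' < n1 → u (T + 1 + p') ≠ u (t + 1 + p')) (hn0 : n0 ≤ n) (hn1 : n ≤ n1) :
    (¬ (p' < n ∧ n ≤ p' + Q + 1) → F2 u n) ∧
      ((p' < n ∧ n ≤ p' + Q + 1) → ∃ i i', Coll u n i i' ∧
        ∀ j j', Coll u n j j' → EqW u (n + 1) j i ∨ EqW u (n + 1) j i') := by
  constructor
  · intro hn i i' he hex
    by_contra hne
    obtain ⟨o, h1, h2, -⟩ := levR_coll h hp hp' hn0 hn1 ⟨he, hex, hne⟩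
    exact hn ⟨by omega, by omega⟩
  · rintro ⟨hn2, hn3⟩
    have hQT := h.QT
    have hTt := h.Tt
    have hts := h.ts
    obtain ⟨o, ho⟩ : ∃ o, o + p' + 1 = n := ⟨n - 1 - p', by omega⟩
    have hoQ : o ≤ Q := by omega
    have hl : ∀ r ≤ o, u (T - o + r) = u (s - o + r) := by
      intro r hr
      rcases hr.lt_or_eq with hr | rfl
      · exact h.left _ _ (o - r - 1) (by omega) (by omega) (by omega)
      · rw [show T - r + r = T by omega, show s - r + r = s by omega, h.hs, h.stT.here]
    have hs : ∀ a, t ≤ a → u a = none → ∀ r < n1, u (a + 1 + r) = u (s + 1 + r) := by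
      intro a h1 h2 r hr
      rw [(h.stt.next a h1 h2 r hr).2, (h.stt.next s hts.le h.hs r hr).2]
    refine ⟨T - o, s - o, ⟨?_, ⟨o, by omega, ?_⟩, ?_⟩, ?_⟩
    · intro r hr
      by_cases hro : r ≤ o
      · exact hl r hro
      · rw [show T - o + r = T + 1 + (r - o - 1) by omega,
          show s - o + r = s + 1 + (r - o - 1) by omega, hp _ (by omega),
          ← hs t le_rfl h.stt.here _ (by omega)]
    · rw [show T - o + o = T by omega]
      exact h.stT.here
    · rw [show T - o + n = T + 1 + p' by omega, show s - o + n = s + 1 + p' by omega,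
        ← hs t le_rfl h.stt.here _ (by omega)]
      exact hp' (by omega)
    · intro j j' hj
      obtain ⟨o', h1, h2, h3⟩ := levR_coll h hp hp' hn0 hn1 hj
      obtain rfl : o' = o := by omega
      rcases h3 with ⟨h3, -⟩ | ⟨h3, h4, h5⟩
      · left
        obtain rfl : j = T - o' := by omega
        exact fun r _ => rfl
      · right
        intro r hr
        by_cases hro : r ≤ o'
        · rw [hj.1 r (by omega), ← hl r hro, show j' + r = T - o' + r by omega]
        · rw [show j + r = j + o' + 1 + (r - o' - 1) by omega,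
            show s - o' + r = s + 1 + (r - o' - 1) by omega]
          exact hs _ h4 h5 _ (by omega)

end LEVR

end Pool.Agent.Helper79.CF
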