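import Pool.Agent.CFX.NECS

/-!
# Module NECP: if no late stage is selected then the steps are safe
-/

namespace Pool.Agent.Helper79.CF

section Nec
variable {S : Steps} {st : ℕ → ℕ} {W : ℕ → List (Fin 3)} {G : ℕ → ℕ → Prop} {y x : ℕ → Fin 3}

private theorem necp_st_mono (hG : Spec S st W G) {m n : ℕ} (h : m ≤ n) : st m ≤ st n := by
  induction h with
  | refl => exact le_refl _
  | step _ ih => rw [hG.st1]; omega

/-- every step from `st n0` on is in a stage `≥ n0` -/
private theorem necp_stage (hG : Spec S st W G) {n0 k : ℕ} (hk : st n0 ≤ k) :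
    ∃ n, n0 ≤ n ∧ st n ≤ k ∧ k < st (n + 1) := by
  have hex : ∃ n, k < st (n + 1) := by
    refine ⟨k, ?_⟩
    have : ∀ n, n ≤ st n := by
      intro n
      induction n with
      | zero => omega
      | succ n ih => rw [hG.st1]; omega
    have := this (k + 1)
    omega
  classical
  let n := Nat.find hex
  have hn : k < st (n + 1) := Nat.find_spec hex
  by_cases h0 : n0 ≤ n
  · refine ⟨n, h0, ?_, hn⟩
    by_contra hc
    push Not at hc
    cases hm : n with
    | zero =>
      have : n0 = 0 := by omega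
      rw [this] at hk
      rw [hm] at hc
      omega
    | succ m =>
      have h1 : k < st (m + 1) := by rw [← hm]; exact hc
      have : n ≤ m := Nat.find_min' hex h1
      omega
  · exfalso
    have := necp_st_mono hG (show n + 1 ≤ n0 by omega)
    omega

private theorem necp_cases (hG : Spec S st W G) {n k : ℕ} (h1 : st n ≤ k) (h2 : k < st (n + 1)) :
    k = st n ∨ k = st n + 1 ∨ k = st n + 2 ∨ (∃ i < n, k = st n + 3 + i) ∨
      ∃ i < (W n).length, k = st n + 3 + n + i := by
  rw [hG.st1] at h2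
  by_cases a0 : k = st n
  · exact Or.inl a0
  by_cases a1 : k = st n + 1
  · exact Or.inr (Or.inl a1)
  by_cases a2 : k = st n + 2
  · exact Or.inr (Or.inr (Or.inl a2))
  by_cases a3 : k < st n + 3 + n
  · exact Or.inr (Or.inr (Or.inr (Or.inl ⟨k - (st n + 3), by omega, by omega⟩)))
  · exact Or.inr (Or.inr (Or.inr (Or.inr ⟨k - (st n + 3 + n), by omega, by omega⟩)))

/-- the letters of a block which are not `A` -/
private theorem necp_block (hG : Spec S st W G) (hS : S.Ok) (h1 : Sym S y x) (h2 : Ineq S y x)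
    (hi : Ini S y x) {n : ℕ} (hn : y (S.p (st n)) = y 0) {i : ℕ} (hil : i < (W n).length)
    (h : tl W n i ≠ 0 ∨ tl W n (i + 1) ≠ 2) : y (S.p (st n + 3 + n + i)) ≠ y 0 := by
  by_cases c0 : tl W n i = 0
  · have c1 : tl W n (i + 1) ≠ 2 := by
      rcases h with h | h
      · exact absurd c0 h
      · exact h
    have := h2.y0 (st n + 3 + n + i)
    rwa [hG.bb2 n i hil c0 c1, (stage_r hS hG h1 hi n).1, hn] at this
  · by_cases c1 : tl W n (i + 1) = 2
    · have := h2.y0 (st n + 3 + n + i)
      rwa [hG.bb3 n i hil c0 c1, hi.q7] at this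
    · have := h2.y0 (st n + 3 + n + i)
      rwa [hG.bb4 n i hil c0 c1, hi.q1] at this

theorem nec_safe (hS : S.Ok) (hG : Spec S st W G) (h1 : Sym S y x) (h2 : Ineq S y x)
    (hi : Ini S y x) {n0 : ℕ} (hn : ∀ n ≥ n0, y (S.p (st n)) = y 0) :
    ∀ k ≥ st n0, Safe S y (y 0) k := by
  intro k hk
  obtain ⟨n, hn0, hk1, hk2⟩ := necp_stage hG hk
  have hA := hn n hn0
  have hge := necs_st_ge hG n
  obtain ⟨p0, q0⟩ := necs_p0 hS
  have hl := necs_a_lt hS (k := k) (by omega)
  rcases necp_cases hG hk1 hk2 with rfl | rfl | rfl | ⟨i, hin, rfl⟩ | ⟨i, hil, rfl⟩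
  · obtain ⟨e, a, b⟩ := hG.hr n
    obtain ⟨-, r1, r2, r3⟩ := stage_r hS hG h1 hi n
    refine ⟨fun _ => Or.inr ⟨by rw [r1]; exact hi.n1, Or.inl fun i h => ?_⟩, fun h => by omega⟩
    rw [r3 i h]; exact hi.n1
  · obtain ⟨e, a, b⟩ := hG.hs n
    obtain ⟨-, r1, r2, r3⟩ := stage_r hS hG h1 hi n
    refine ⟨fun _ => Or.inr ⟨?_, Or.inl fun i h => ?_⟩, fun h => by omega⟩
    · rw [loc2 hS h1 e (r := 1) (by omega) (by omega), a, r1]; exact hi.n1
    · rw [loc3 hS h1 h (by omega) (by omega), b, hi.q1s]; exact hi.n1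
  · obtain ⟨e, a, b⟩ := hG.hg n
    refine ⟨fun _ => Or.inl ?_, fun h => by omega⟩
    have := h2.y0 (st n + 2)
    rwa [b, hi.q7] at this
  · by_cases hg : G i n
    · obtain ⟨e, a, b⟩ := hG.hc n i hin hg
      refine ⟨fun _ => Or.inl ?_, fun h => by omega⟩
      have := h2.x0 (st n + 3 + i)
      rwa [a, ← loc1 hS h1 e] at this
    · obtain ⟨e, a, b⟩ := hG.hd n i hin hg
      refine ⟨fun h => by omega, fun _ j hj => ?_⟩
      rw [loc3 hS h1 hj (by omega) (by omega), b, (stage_r hS hG h1 hi i).2.2.1]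
      exact hi.n1
  · have e := hG.be n i hil
    refine ⟨fun _ => ?_, fun h => by omega⟩
    by_cases hc : tl W n i ≠ 0 ∨ tl W n (i + 1) ≠ 2
    · exact Or.inl (necp_block hG hS h1 h2 hi hA hil hc)
    · push Not at hc
      obtain ⟨c0, c1⟩ := hc
      have b := hG.bb1 n i hil c0 c1
      refine Or.inr ⟨?_, Or.inr fun j hj => ?_⟩
      · rw [loc2 hS h1 e (r := 1) (by omega) (by omega)]
        cases i with
        | zero =>
          have a := hG.ba0 n hil
          rw [if_neg (by rw [c0]; decide)] at a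
          simp only [add_zero]
          rw [a, p0, hi.y3]
          exact hi.n1
        | succ i =>
          have a := hG.ba n i hil
          have : S.a (st n + 3 + n + (i + 1)) + 1 = S.p (st n + 3 + n + i) := a
          rw [this]
          exact necp_block hG hS h1 h2 hi hA (by omega) (Or.inr (by rw [c0]; decide))
      · have : S.b (st n + 3 + n + i) + 2 = S.q 1 + 1 := by omega
        rw [loc3 hS h1 hj (by omega) (by omega), this, hi.q1s]
        exact hi.n1

end Nec

end Pool.Agent.Helper79.CF
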