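import Pool.Agent.Helper79.CF.Defs

/-!
Module PROGA: the data of a program, and its solutions.
-/

namespace Pool.Agent.Helper79.CF

theorem proga_zero {S : Steps} (hS : S.Ok) : S.p 0 = 2 ∧ S.q 0 = 2 ∧ S.M 0 = 3 ∧ S.L 0 = 5 := by
  have h1 := hS.hp 0
  have h2 := hS.hq 0
  have h3 := hS.M0
  have h4 := hS.a0
  have h5 := hS.b0
  have h6 := hS.e0
  simp only [Steps.L]
  omega

theorem proga_succ {S : Steps} (hS : S.Ok) (k : ℕ) (hL : 5 ≤ S.L k) :
    3 * S.L k ≤ S.p (k + 1) + 1 ∧ 3 * S.L k ≤ S.q (k + 1) + 1 ∧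
      S.M (k + 1) ≤ S.p (k + 1) + S.q (k + 1) ∧
      S.M (k + 1) ≤ S.p (k + 1) + (2 * S.L k - 2) ∧
      S.M (k + 1) ≤ S.q (k + 1) + (2 * S.L k - 2) ∧ S.M (k + 1) + 3 = 4 * S.L k := by
  have h1 := hS.hp (k + 1)
  have h2 := hS.hq (k + 1)
  have h3 := hS.hM k
  have h4 := hS.ha k
  have h5 := hS.hb k
  omega

theorem proga_L {S : Steps} (hS : S.Ok) (k : ℕ) : 5 ≤ S.L k := by
  induction k with
  | zero => exact (proga_zero hS).2.2.2.ge
  | succ k ih =>
    have h1 := proga_succ hS k ih
    have h2 : S.L (k + 1) = S.p (k + 1) + S.q (k + 1) + S.ε (k + 1) := rfl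
    omega

theorem proga_p {S : Steps} (hS : S.Ok) (k : ℕ) : S.p k + 3 ≤ S.L k ∧ S.q k + 3 ≤ S.L k := by
  cases k with
  | zero =>
    have := proga_zero hS
    omega
  | succ k =>
    have h1 := proga_succ hS k (proga_L hS k)
    have h2 : S.L (k + 1) = S.p (k + 1) + S.q (k + 1) + S.ε (k + 1) := rfl
    have h3 := proga_L hS k
    omega

theorem proga_data0 (S : Steps) (k : ℕ) :
    S.data.p (3 * k) = S.p k ∧ S.data.q (3 * k) = S.q k ∧ S.data.m (3 * k) = S.M k := by
  have e1 : 3 * k % 3 = 0 := by omega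
  have e2 : 3 * k / 3 = k := by omega
  simp only [Steps.data, e1, e2, if_true, and_self]

theorem proga_data1 (S : Steps) (k : ℕ) :
    S.data.p (3 * k + 1) = S.L k - 1 ∧ S.data.q (3 * k + 1) = S.L k - 1 ∧
      S.data.m (3 * k + 1) = S.L k := by
  have e1 : (3 * k + 1) % 3 = 1 := by omega
  have e2 : (3 * k + 1) / 3 = k := by omega
  simp only [Steps.data, e1, e2, if_true, one_ne_zero, if_false, and_self]

theorem proga_data2 (S : Steps) (k : ℕ) :
    S.data.p (3 * k + 2) = 2 * S.L k - 2 ∧ S.data.q (3 * k + 2) = 2 * S.L k - 2 ∧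
      S.data.m (3 * k + 2) = 2 * S.L k - 1 := by
  have e1 : (3 * k + 2) % 3 = 2 := by omega
  have e2 : (3 * k + 2) / 3 = k := by omega
  have e3 : ¬ (2 = 0) := by omega
  have e4 : ¬ (2 = 1) := by omega
  simp only [Steps.data, e1, e2, e3, e4, if_false, and_self]

theorem proga_cases (j : ℕ) : ∃ k, j = 3 * k ∨ j = 3 * k + 1 ∨ j = 3 * k + 2 :=
  ⟨j / 3, by omega⟩

theorem good_data {S : Steps} (hS : S.Ok) : S.data.Good := by
  have z := proga_zero hS
  have key : ∀ j, S.data.p j < S.data.m j ∧ S.data.q j < S.data.m j ∧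
      S.data.m j ≤ S.data.p j + S.data.q j ∧ S.data.p j + S.data.Q j + 2 ≤ S.data.p (j + 1) ∧
      S.data.p j + S.data.Q j + 2 ≤ S.data.q (j + 1) ∧ S.data.Q j + 1 ≤ S.data.p j ∧
      S.data.p j + S.data.Q j + 1 ≤ 2 * S.data.q j ∧ S.data.q j ≤ S.data.p j + S.data.Q j ∧
      S.data.m (j + 1) ≤ S.data.p (j + 1) + S.data.Q (j + 1) ∧
      S.data.m (j + 1) ≤ S.data.q (j + 1) + S.data.Q (j + 1) := by
    intro j
    have hQ1 : S.data.Q (j + 1) = S.data.q j := rfl
    rw [hQ1]
    obtain ⟨k, rfl | rfl | rfl⟩ := proga_cases j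
    · obtain ⟨a1, a2, a3⟩ := proga_data0 S k
      obtain ⟨b1, b2, b3⟩ := proga_data1 S k
      have hL := proga_L hS k
      have hp := proga_p hS k
      have h1 := hS.hp k
      have h2 := hS.hq k
      have h3 : S.L k = S.p k + S.q k + S.ε k := rfl
      have h4 := hS.eps k
      cases k with
      | zero =>
        have hQ : S.data.Q (3 * 0) = 0 := rfl
        have e0 := hS.e0
        rw [a1, a2, a3, b1, b2, b3, hQ]
        omega
      | succ k =>
        have hQ : S.data.Q (3 * (k + 1)) = S.data.q (3 * k + 2) := rfl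
        obtain ⟨c1, c2, c3⟩ := proga_data2 S k
        have hL' := proga_L hS k
        have s := proga_succ hS k hL'
        rw [a1, a2, a3, b1, b2, b3, hQ, c2]
        omega
    · obtain ⟨a1, a2, a3⟩ := proga_data0 S k
      obtain ⟨b1, b2, b3⟩ := proga_data1 S k
      obtain ⟨c1, c2, c3⟩ := proga_data2 S k
      have hQ : S.data.Q (3 * k + 1) = S.data.q (3 * k) := rfl
      have hL := proga_L hS k
      have hp := proga_p hS k
      have h3 : S.L k = S.p k + S.q k + S.ε k := rfl
      have h4 := hS.eps k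
      rw [show 3 * k + 1 + 1 = 3 * k + 2 from rfl, b1, b2, b3, hQ, a2, c1, c2, c3]
      omega
    · obtain ⟨b1, b2, b3⟩ := proga_data1 S k
      obtain ⟨c1, c2, c3⟩ := proga_data2 S k
      obtain ⟨d1, d2, d3⟩ := proga_data0 S (k + 1)
      have hQ : S.data.Q (3 * k + 2) = S.data.q (3 * k + 1) := rfl
      have hL := proga_L hS k
      have s := proga_succ hS k hL
      rw [show 3 * k + 2 + 1 = 3 * (k + 1) from rfl, c1, c2, c3, hQ, b2, d1, d2, d3]
      omega
  obtain ⟨a1, a2, a3⟩ := proga_data0 S 0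
  refine ⟨?_, ?_, ?_, fun j => (key j).1, fun j => (key j).2.1, fun j => (key j).2.2.1,
    fun j => (key j).2.2.2.1, fun j => (key j).2.2.2.2.1, fun j => (key j).2.2.2.2.2.1,
    fun j => (key j).2.2.2.2.2.2.1, fun j => (key j).2.2.2.2.2.2.2.1,
    fun j => (key j).2.2.2.2.2.2.2.2.1, fun j => (key j).2.2.2.2.2.2.2.2.2⟩
  · show 1 ≤ S.data.p (3 * 0)
    omega
  · show S.data.q (3 * 0) = S.data.p (3 * 0)
    omega
  · show S.data.m (3 * 0) = S.data.p (3 * 0) + 1
    omega

theorem isSol_iff {K : Type*} {S : Steps} (hS : S.Ok) (y x : ℕ → K) :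
    IsSol S.data y x ↔ Sym S y x ∧ Ineq S y x := by
  constructor
  · intro h
    refine ⟨⟨?_, ?_, ?_⟩, ⟨?_, ?_, ?_, ?_, ?_, ?_⟩⟩
    · intro k i i' h1 h2 h3
      obtain ⟨a1, a2, a3⟩ := proga_data0 S k
      exact h.sym (3 * k) i i' (by omega) (by omega) (by omega)
    · intro k i i' h1 h2 h3
      obtain ⟨a1, a2, a3⟩ := proga_data1 S k
      have hL := proga_L hS k
      exact h.sym (3 * k + 1) i i' (by omega) (by omega) (by omega)
    · intro k i i' h1 h2 h3
      obtain ⟨a1, a2, a3⟩ := proga_data2 S k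
      have hL := proga_L hS k
      exact h.sym (3 * k + 2) i i' (by omega) (by omega) (by omega)
    · intro k
      obtain ⟨a1, a2, a3⟩ := proga_data0 S k
      have h1 := hS.hp k
      have h2 := h.ney (3 * k) (S.b k) (by omega)
      rwa [a1] at h2
    · intro k
      obtain ⟨a1, a2, a3⟩ := proga_data0 S k
      have h1 := hS.hq k
      have h2 := h.nex (3 * k) (S.a k) (by omega)
      rwa [a2] at h2
    · intro k r hr
      obtain ⟨a1, a2, a3⟩ := proga_data1 S k
      have h2 := h.ney (3 * k + 1) 0 (by omega)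
      rwa [a1, show S.L k - 1 = r by omega] at h2
    · intro k r hr
      obtain ⟨a1, a2, a3⟩ := proga_data1 S k
      have h2 := h.nex (3 * k + 1) 0 (by omega)
      rwa [a2, show S.L k - 1 = r by omega] at h2
    · intro k r hr
      obtain ⟨a1, a2, a3⟩ := proga_data2 S k
      have h2 := h.ney (3 * k + 2) 0 (by omega)
      rwa [a1, show 2 * S.L k - 2 = r by omega] at h2
    · intro k r hr
      obtain ⟨a1, a2, a3⟩ := proga_data2 S k
      have h2 := h.nex (3 * k + 2) 0 (by omega)
      rwa [a2, show 2 * S.L k - 2 = r by omega] at h2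
  · rintro ⟨h, g⟩
    refine ⟨?_, ?_, ?_⟩
    · intro j i i' h1 h2 h3
      obtain ⟨k, rfl | rfl | rfl⟩ := proga_cases j
      · obtain ⟨a1, a2, a3⟩ := proga_data0 S k
        exact h.s0 k i i' (by omega) (by omega) (by omega)
      · obtain ⟨a1, a2, a3⟩ := proga_data1 S k
        have hL := proga_L hS k
        exact h.s1 k i i' (by omega) (by omega) (by omega)
      · obtain ⟨a1, a2, a3⟩ := proga_data2 S k
        have hL := proga_L hS k
        exact h.s2 k i i' (by omega) (by omega) (by omega)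
    · intro j i' h1
      obtain ⟨k, rfl | rfl | rfl⟩ := proga_cases j
      · obtain ⟨a1, a2, a3⟩ := proga_data0 S k
        have h2 := hS.hp k
        rw [a1, show i' = S.b k by omega]
        exact g.y0 k
      · obtain ⟨a1, a2, a3⟩ := proga_data1 S k
        have hL := proga_L hS k
        rw [a1, show i' = 0 by omega]
        exact g.y1 k _ (by omega)
      · obtain ⟨a1, a2, a3⟩ := proga_data2 S k
        have hL := proga_L hS k
        rw [a1, show i' = 0 by omega]
        exact g.y2 k _ (by omega)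
    · intro j i h1
      obtain ⟨k, rfl | rfl | rfl⟩ := proga_cases j
      · obtain ⟨a1, a2, a3⟩ := proga_data0 S k
        have h2 := hS.hq k
        rw [a2, show i = S.a k by omega]
        exact g.x0 k
      · obtain ⟨a1, a2, a3⟩ := proga_data1 S k
        have hL := proga_L hS k
        rw [a2, show i = 0 by omega]
        exact g.x1 k _ (by omega)
      · obtain ⟨a1, a2, a3⟩ := proga_data2 S k
        have hL := proga_L hS k
        rw [a2, show i = 0 by omega]
        exact g.x2 k _ (by omega)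

end Pool.Agent.Helper79.CF
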