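import Mathlib
import Pool.Agent.Helper79.CF.Defs
import Pool.Agent.CFX.LOC
import Pool.Agent.CFX.PROGA

/-!
If almost all real steps are safe then the gap words contain no long runs of the letter `y 0`.
-/

namespace Pool.Agent.Helper79.CF

section Necr
variable {K : Type*}

lemma necr_gapy (D : Data) (y x : ℕ → K) {j i : ℕ} (h : i < D.p j) : gap D y x j i = y i := by
  simp [gap, h]

lemma necr_gapx (D : Data) (y x : ℕ → K)
    (hsym : ∀ j i i', i < D.p j → i' < D.q j → i + i' + 1 = D.m j → y i = x i')
    {j i i' : ℕ} (h : i' < D.q j) (h1 : i + i' + 1 = D.m j) : gap D y x j i = x i' := by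
  unfold gap
  split_ifs with h2
  · exact hsym j i i' h2 h h1
  · congr 1
    omega

/-- The core: general data. -/
lemma necr_core (D : Data) (hD : D.Good) (y x : ℕ → K) (A : K) (e : ℕ → ℕ)
    (he : ∀ j, D.m (j + 1) = D.p j + D.q j + e j)
    (hsym : ∀ j i i', i < D.p j → i' < D.q j → i + i' + 1 = D.m j → y i = x i')
    (j0 : ℕ)
    (hstep : ∀ j ≥ j0, (e j = 1 ∧ (y (D.p j) ≠ A ∨ (y (D.p j + 1) ≠ A ∧
        ((∀ i, i + 1 = D.p j → y i ≠ A) ∨ ∀ i, i + 2 = D.p j → y i ≠ A)))) ∨
      (e j = 0 ∧ ∀ i, i + 1 = D.p j → y i ≠ A)) :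
    ∀ j i, i + (D.m j0 + 3) ≤ D.m j → ∃ t < D.m j0 + 3, gap D y x j (i + t) ≠ A := by
  have hmono : Monotone D.m := by
    refine monotone_nat_of_le_succ fun j => ?_
    have := hD.mpq j
    rw [he j]
    omega
  intro j
  induction j with
  | zero =>
    intro i hi
    have := hmono (Nat.zero_le j0)
    omega
  | succ j ih =>
    intro i hi
    rcases Nat.lt_or_ge j j0 with hj | hj
    · have := hmono (show j + 1 ≤ j0 from hj)
      omega
    by_contra hcon
    push Not at hcon
    have h1 := hD.growp j
    have h2 := hD.growq j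
    have h3 := hD.pm j
    have h4 := hD.qm j
    have h5 := hD.mpq j
    have h6 := hD.reach j
    have h7 := he j
    -- case a: the window lies in the prefix
    by_cases ha : i + (D.m j0 + 3) ≤ D.p j
    · obtain ⟨t, ht, hne⟩ := ih i (by omega)
      refine hne ?_
      rw [← hcon t ht, necr_gapy D y x (show i + t < D.p j by omega),
        necr_gapy D y x (show i + t < D.p (j + 1) by omega)]
    by_cases hb : D.p j + e j ≤ i
    · -- case b: the window lies in the suffix
      obtain ⟨t, ht, hne⟩ := ih (i - (D.m (j + 1) - D.m j)) (by omega)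
      refine hne ?_
      rw [← hcon t ht]
      rw [necr_gapx D y x hsym (i' := D.m (j + 1) - 1 - (i + t)) (by omega) (by omega),
        necr_gapx D y x hsym (j := j + 1) (i' := D.m (j + 1) - 1 - (i + t)) (by omega) (by omega)]
    -- case c: the window contains the new place
    have hval : ∀ r, i ≤ r → r < i + (D.m j0 + 3) → r < D.p (j + 1) → y r = A := by
      intro r hr1 hr2 hr3
      have := hcon (r - i) (by omega)
      rw [show i + (r - i) = r by omega, necr_gapy D y x hr3] at this
      exact this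
    rcases hstep j hj with ⟨he1, hs⟩ | ⟨he0, hs⟩
    · have hp := hval (D.p j) (by omega) (by omega) (by omega)
      rcases hs with hs | ⟨hs1, hs2⟩
      · exact hs hp
      by_cases hc : D.p j + 1 < i + (D.m j0 + 3)
      · exact hs1 (hval (D.p j + 1) (by omega) (by omega) (by omega))
      rcases hs2 with hs2 | hs2
      · exact hs2 (D.p j - 1) (by omega) (hval (D.p j - 1) (by omega) (by omega) (by omega))
      · exact hs2 (D.p j - 2) (by omega) (hval (D.p j - 2) (by omega) (by omega) (by omega))
    · exact hs (D.p j - 1) (by omega) (hval (D.p j - 1) (by omega) (by omega) (by omega))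

end Necr

theorem run_bound {K : Type*} {S : Steps} {y x : ℕ → K} (hS : S.Ok) (h1 : Sym S y x)
    (h2 : Ineq S y x) (k0 : ℕ) (hs : ∀ k ≥ k0, Safe S y (y 0) k) :
    ∃ N, ∀ j i, i + N ≤ S.data.m j → ∃ t < N, gap S.data y x j (i + t) ≠ y 0 := by
  have hL : ∀ k, S.L k = S.p k + S.q k + S.ε k := fun k => rfl
  have hsym := ((isSol_iff hS y x).2 ⟨h1, h2⟩).sym
  refine ⟨S.data.m (3 * k0) + 3, necr_core S.data (good_data hS) y x (y 0)
    (fun j => if j % 3 = 0 then S.ε (j / 3) else 1) ?_ hsym (3 * k0) ?_⟩
  · intro j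
    have hLj := L_ge hS (j / 3)
    have hLL := hL (j / 3)
    have hM := hS.hM (j / 3)
    have h3 : j % 3 = 0 ∨ j % 3 = 1 ∨ j % 3 = 2 := by omega
    rcases h3 with h | h | h
    · have e1 : (j + 1) % 3 = 1 := by omega
      have e2 : (j + 1) / 3 = j / 3 := by omega
      simp only [Steps.data, h, e1, e2]
      simp
      omega
    · have e1 : (j + 1) % 3 = 2 := by omega
      have e2 : (j + 1) / 3 = j / 3 := by omega
      simp only [Steps.data, h, e1, e2]
      simp
      omega
    · have e1 : (j + 1) % 3 = 0 := by omega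
      have e2 : (j + 1) / 3 = j / 3 + 1 := by omega
      simp only [Steps.data, h, e1, e2]
      simp
      omega
  · intro j hj
    have hLj := L_ge hS (j / 3)
    have h3 : j % 3 = 0 ∨ j % 3 = 1 ∨ j % 3 = 2 := by omega
    rcases h3 with h | h | h
    · have hk := hs (j / 3) (by omega)
      have e1 : S.data.p j = S.p (j / 3) := by simp [Steps.data, h]
      rw [e1, if_pos h]
      rcases hS.eps (j / 3) with he | he
      · exact Or.inr ⟨he, hk.2 he⟩
      · exact Or.inl ⟨he, hk.1 he⟩
    · have e1 : S.data.p j = S.L (j / 3) - 1 := by simp [Steps.data, h]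
      rw [e1, if_neg (by omega)]
      refine Or.inl ⟨rfl, Or.inl ?_⟩
      rw [pad1 hS h1 (k := j / 3) (by omega)]
      exact h2.x1 (j / 3) _ (by omega)
    · have e1 : S.data.p j = 2 * S.L (j / 3) - 2 := by simp [Steps.data, h]
      rw [e1, if_neg (by omega)]
      refine Or.inl ⟨rfl, Or.inl ?_⟩
      rw [pad2 hS h1 (k := j / 3) (by omega)]
      exact h2.x2 (j / 3) _ (by omega)

end Pool.Agent.Helper79.CF
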