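import Pool.Agent.Helper79.CF.Defs

/-!
# The program of a graph
-/

namespace Pool.Agent.Helper79.CF

section PROGB

theorem exists_words : ∃ W : ℕ → List (Fin 3), ∀ l, ∃ N, ∀ n ≥ N, l <:+: W n := by
  classical
  obtain ⟨f, hf⟩ := exists_surjective_nat (List (Fin 3))
  refine ⟨fun n => ((List.range n).map f).flatten, fun l => ?_⟩
  obtain ⟨k, rfl⟩ := hf l
  refine ⟨k + 1, fun n hn => ?_⟩
  apply List.infix_of_mem_flatten
  rw [List.mem_map]
  exact ⟨k, List.mem_range.2 (by omega), rfl⟩

/-- an instruction: `ε`, and the references for `a` and `b` -/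
private abbrev PROGBIns := ℕ × Option (ℕ × ℕ) × Option (ℕ × ℕ)

private def PROGBev (f : ℕ → ℕ) : Option (ℕ × ℕ) → ℕ
  | none => 0
  | some (j, d) => f j - d

private abbrev PROGBVal := ℕ × ℕ × ℕ × ℕ × ℕ

private def PROGBstep (ins : ℕ → PROGBIns) (k : ℕ) (h : ℕ → PROGBVal) : PROGBVal :=
  (PROGBev (fun j => (h j).2.2.1) (ins k).2.1,
   PROGBev (fun j => (h j).2.2.2.1) (ins k).2.2,
   (if k = 0 then 3 else
     4 * ((h (k - 1)).2.2.1 + (h (k - 1)).2.2.2.1 + (ins (k - 1)).1) - 3) -
       PROGBev (fun j => (h j).2.2.2.1) (ins k).2.2 - 1,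
   (if k = 0 then 3 else
     4 * ((h (k - 1)).2.2.1 + (h (k - 1)).2.2.2.1 + (ins (k - 1)).1) - 3) -
       PROGBev (fun j => (h j).2.2.1) (ins k).2.1 - 1,
   if k = 0 then 3 else
     4 * ((h (k - 1)).2.2.1 + (h (k - 1)).2.2.2.1 + (ins (k - 1)).1) - 3)

private def PROGBH (ins : ℕ → PROGBIns) : ℕ → ℕ → PROGBVal
  | 0 => fun _ => (0, 0, 0, 0, 0)
  | n + 1 => Function.update (PROGBH ins n) n (PROGBstep ins n (PROGBH ins n))

private def PROGBV (ins : ℕ → PROGBIns) (k : ℕ) : PROGBVal := PROGBstep ins k (PROGBH ins k)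

private lemma PROGBH_lt (ins : ℕ → PROGBIns) {n j : ℕ} (h : j < n) :
    PROGBH ins n j = PROGBV ins j := by
  induction n with
  | zero => omega
  | succ n ih =>
    show Function.update (PROGBH ins n) n (PROGBstep ins n (PROGBH ins n)) j = _
    rcases Nat.eq_or_lt_of_le (Nat.lt_succ_iff.1 h) with h1 | h1
    · subst h1
      rw [Function.update_self]; rfl
    · rw [Function.update_of_ne (by omega), ih h1]

/-- conditions on the instructions -/
private structure PROGBok (ins : ℕ → PROGBIns) : Prop where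
  e : ∀ k, (ins k).1 = 0 ∨ (ins k).1 = 1
  z : ins 0 = (1, none, none)
  ra : ∀ k j d, (ins k).2.1 = some (j, d) → j < k
  rb : ∀ k j d, (ins k).2.2 = some (j, d) → j < k

private def PROGBS (ins : ℕ → PROGBIns) : Steps where
  ε k := (ins k).1
  a k := (PROGBV ins k).1
  b k := (PROGBV ins k).2.1
  p k := (PROGBV ins k).2.2.1
  q k := (PROGBV ins k).2.2.2.1
  M k := (PROGBV ins k).2.2.2.2

private lemma PROGB_a {ins : ℕ → PROGBIns} (h : PROGBok ins) (k : ℕ) :
    (PROGBS ins).a k = PROGBev (PROGBS ins).p (ins k).2.1 := by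
  show PROGBev (fun j => (PROGBH ins k j).2.2.1) (ins k).2.1 = _
  have h1 := h.ra k
  rcases h2 : (ins k).2.1 with _ | ⟨j, d⟩
  · rfl
  · show (PROGBH ins k j).2.2.1 - d = (PROGBV ins j).2.2.1 - d
    rw [PROGBH_lt ins (h1 j d h2)]

private lemma PROGB_b {ins : ℕ → PROGBIns} (h : PROGBok ins) (k : ℕ) :
    (PROGBS ins).b k = PROGBev (PROGBS ins).q (ins k).2.2 := by
  show PROGBev (fun j => (PROGBH ins k j).2.2.2.1) (ins k).2.2 = _
  have h1 := h.rb k
  rcases h2 : (ins k).2.2 with _ | ⟨j, d⟩
  · rfl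
  · show (PROGBH ins k j).2.2.2.1 - d = (PROGBV ins j).2.2.2.1 - d
    rw [PROGBH_lt ins (h1 j d h2)]

private lemma PROGB_M0 (ins : ℕ → PROGBIns) : (PROGBS ins).M 0 = 3 := rfl

private lemma PROGB_M (ins : ℕ → PROGBIns) (k : ℕ) :
    (PROGBS ins).M (k + 1) = 4 * (PROGBS ins).L k - 3 := by
  show 4 * ((PROGBH ins (k + 1) k).2.2.1 + (PROGBH ins (k + 1) k).2.2.2.1 + (ins k).1) - 3 = _
  rw [PROGBH_lt ins (Nat.lt_succ_self k)]
  rfl

private lemma PROGB_p (ins : ℕ → PROGBIns) (k : ℕ) :
    (PROGBS ins).p k = (PROGBS ins).M k - (PROGBS ins).b k - 1 := rfl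

private lemma PROGB_q (ins : ℕ → PROGBIns) (k : ℕ) :
    (PROGBS ins).q k = (PROGBS ins).M k - (PROGBS ins).a k - 1 := rfl

private lemma PROGB_main {ins : ℕ → PROGBIns} (h : PROGBok ins) (k : ℕ) :
    (∀ j ≤ k, (PROGBS ins).p j + 3 ≤ (PROGBS ins).L k ∧ (PROGBS ins).q j + 3 ≤ (PROGBS ins).L k) ∧
      (PROGBS ins).p k + (PROGBS ins).b k + 1 = (PROGBS ins).M k ∧
      (PROGBS ins).q k + (PROGBS ins).a k + 1 = (PROGBS ins).M k ∧ 5 ≤ (PROGBS ins).L k := by
  induction k with
  | zero =>
    have ha := PROGB_a h 0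
    have hb := PROGB_b h 0
    rw [h.z] at ha hb
    have ha' : (PROGBS ins).a 0 = 0 := ha
    have hb' : (PROGBS ins).b 0 = 0 := hb
    have hp := PROGB_p ins 0
    have hq := PROGB_q ins 0
    have hM := PROGB_M0 ins
    have he : (PROGBS ins).ε 0 = 1 := by
      show (ins 0).1 = 1
      rw [h.z]
    have hL : (PROGBS ins).L 0 = (PROGBS ins).p 0 + (PROGBS ins).q 0 + (PROGBS ins).ε 0 := rfl
    refine ⟨fun j hj => ?_, by omega, by omega, by omega⟩
    obtain rfl : j = 0 := by omega
    omega
  | succ k ih =>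
    obtain ⟨i1, i2, i3, i4⟩ := ih
    have ha := PROGB_a h (k + 1)
    have hb := PROGB_b h (k + 1)
    have ha' : (PROGBS ins).a (k + 1) + 3 ≤ (PROGBS ins).L k := by
      have h1 := h.ra (k + 1)
      rw [ha]
      rcases h2 : (ins (k + 1)).2.1 with _ | ⟨j, d⟩
      · show 0 + 3 ≤ _
        omega
      · have h3 := h1 j d h2
        have h4 := (i1 j (by omega)).1
        show (PROGBS ins).p j - d + 3 ≤ _
        omega
    have hb' : (PROGBS ins).b (k + 1) + 3 ≤ (PROGBS ins).L k := by
      have h1 := h.rb (k + 1)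
      rw [hb]
      rcases h2 : (ins (k + 1)).2.2 with _ | ⟨j, d⟩
      · show 0 + 3 ≤ _
        omega
      · have h3 := h1 j d h2
        have h4 := (i1 j (by omega)).2
        show (PROGBS ins).q j - d + 3 ≤ _
        omega
    have hp := PROGB_p ins (k + 1)
    have hq := PROGB_q ins (k + 1)
    have hM := PROGB_M ins k
    have hL : (PROGBS ins).L (k + 1) = (PROGBS ins).p (k + 1) + (PROGBS ins).q (k + 1) +
      (PROGBS ins).ε (k + 1) := rfl
    refine ⟨fun j hj => ?_, by omega, by omega, by omega⟩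
    rcases Nat.eq_or_lt_of_le hj with rfl | h1
    · omega
    · have h4 := i1 j (by omega)
      omega

private lemma PROGB_Ok {ins : ℕ → PROGBIns} (h : PROGBok ins) : (PROGBS ins).Ok where
  eps := h.e
  e0 := by show (ins 0).1 = 1; rw [h.z]
  a0 := by rw [PROGB_a h, h.z]; rfl
  b0 := by rw [PROGB_b h, h.z]; rfl
  M0 := rfl
  hp k := (PROGB_main h k).2.1
  hq k := (PROGB_main h k).2.2.1
  hM k := by
    have := PROGB_M ins k
    have := (PROGB_main h k).2.2.2
    omega
  ha k := by
    have h1 := h.ra (k + 1)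
    rw [PROGB_a h (k + 1)]
    rcases h2 : (ins (k + 1)).2.1 with _ | ⟨j, d⟩
    · have := (PROGB_main h k).2.2.2
      show 0 + 3 ≤ _
      omega
    · have h3 := h1 j d h2
      have h4 := ((PROGB_main h k).1 j (by omega)).1
      show (PROGBS ins).p j - d + 3 ≤ _
      omega
  hb k := by
    have h1 := h.rb (k + 1)
    rw [PROGB_b h (k + 1)]
    rcases h2 : (ins (k + 1)).2.2 with _ | ⟨j, d⟩
    · have := (PROGB_main h k).2.2.2
      show 0 + 3 ≤ _
      omega
    · have h3 := h1 j d h2
      have h4 := ((PROGB_main h k).1 j (by omega)).2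
      show (PROGBS ins).q j - d + 3 ≤ _
      omega

private lemma PROGBH_congr {ins ins' : ℕ → PROGBIns} {n : ℕ} (h : ∀ j < n, ins j = ins' j) :
    PROGBH ins n = PROGBH ins' n := by
  induction n with
  | zero => rfl
  | succ n ih =>
    have h1 := ih fun j hj => h j (by omega)
    show Function.update (PROGBH ins n) n (PROGBstep ins n (PROGBH ins n)) =
      Function.update (PROGBH ins' n) n (PROGBstep ins' n (PROGBH ins' n))
    rw [h1]
    congr 1
    unfold PROGBstep
    rw [h n (by omega), h (n - 1) (by omega)]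

private lemma PROGBV_congr {ins ins' : ℕ → PROGBIns} {k : ℕ} (h : ∀ j ≤ k, ins j = ins' j) :
    PROGBV ins k = PROGBV ins' k := by
  unfold PROGBV
  rw [PROGBH_congr fun j hj => h j (by omega)]
  unfold PROGBstep
  rw [h k le_rfl, h (k - 1) (by omega)]

/-! ### the instructions -/

private def PROGBst (W : ℕ → List (Fin 3)) : ℕ → ℕ
  | 0 => 8
  | n + 1 => PROGBst W n + 3 + n + (W n).length

private lemma PROGBst_lt (W : ℕ → List (Fin 3)) : StrictMono (PROGBst W) :=
  strictMono_nat_of_lt_succ fun n => by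
    show PROGBst W n < PROGBst W n + 3 + n + (W n).length
    omega

private lemma PROGBst_ge (W : ℕ → List (Fin 3)) (n : ℕ) : n + 8 ≤ PROGBst W n := by
  induction n with
  | zero => exact le_rfl
  | succ n ih =>
    show n + 1 + 8 ≤ PROGBst W n + 3 + n + (W n).length
    omega

private def PROGBsg (W : ℕ → List (Fin 3)) (k : ℕ) : ℕ :=
  Nat.findGreatest (fun n => PROGBst W n ≤ k) k

private lemma PROGBsg_eq (W : ℕ → List (Fin 3)) {n r : ℕ} (hr : r < 3 + n + (W n).length) :
    PROGBsg W (PROGBst W n + r) = n := by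
  unfold PROGBsg
  rw [Nat.findGreatest_eq_iff]
  have h1 := PROGBst_ge W n
  refine ⟨by omega, fun _ => by omega, fun m hm _ => ?_⟩
  have h2 : PROGBst W (n + 1) ≤ PROGBst W m := (PROGBst_lt W).monotone (by omega)
  have h3 : PROGBst W (n + 1) = PROGBst W n + 3 + n + (W n).length := rfl
  omega

private lemma PROGBsg_spec (W : ℕ → List (Fin 3)) {k : ℕ} (hk : 8 ≤ k) :
    PROGBst W (PROGBsg W k) ≤ k ∧ k < PROGBst W (PROGBsg W k + 1) := by
  have h0 : PROGBst W 0 ≤ k := hk
  have h1 : PROGBst W (PROGBsg W k) ≤ k :=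
    Nat.findGreatest_spec (P := fun n => PROGBst W n ≤ k) (Nat.zero_le k) h0
  refine ⟨h1, ?_⟩
  by_contra h2
  rw [not_lt] at h2
  have h3 := PROGBst_ge W (PROGBsg W k + 1)
  have h4 := Nat.le_findGreatest (P := fun n => PROGBst W n ≤ k)
    (show PROGBsg W k + 1 ≤ k by omega) h2
  have h5 : PROGBsg W k = Nat.findGreatest (fun n => PROGBst W n ≤ k) k := rfl
  omega

private def PROGBini : ℕ → PROGBIns
  | 0 => (1, none, none)
  | 1 => (1, some (0, 0), none)
  | 2 => (1, none, some (0, 0))
  | 3 => (1, some (1, 1), none)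
  | 4 => (0, some (3, 0), some (2, 0))
  | 5 => (0, none, some (1, 0))
  | 6 => (0, some (2, 0), none)
  | _ => (1, some (2, 0), some (1, 1))

open scoped Classical in
private noncomputable def PROGBblk (W : ℕ → List (Fin 3)) (n i : ℕ) : PROGBIns :=
  (1, some (if i = 0 then (if tl W n 0 = 2 then (1, 0) else (0, 0))
      else (PROGBst W n + 3 + n + (i - 1), 1)),
    some (if tl W n i = 0 then (if tl W n (i + 1) = 2 then (1, 1) else (PROGBst W n, 0))
      else (if tl W n (i + 1) = 2 then (7, 0) else (1, 0))))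

open scoped Classical in
private noncomputable def PROGBstg (W : ℕ → List (Fin 3)) (G : ℕ → ℕ → Prop) (n r : ℕ) :
    PROGBIns :=
  if r = 0 then (1, some (0, 0), some (0, 0))
  else if r = 1 then (1, some (PROGBst W n, 0), some (1, 0))
  else if r = 2 then (1, some (PROGBst W n + 1, 0), some (7, 0))
  else if r < 3 + n then
    (if G (r - 3) n then (1, none, none)
      else (0, some (PROGBst W n + 2, 1), some (PROGBst W (r - 3), 0)))
  else PROGBblk W n (r - 3 - n)

private noncomputable def PROGBins (W : ℕ → List (Fin 3)) (G : ℕ → ℕ → Prop) (k : ℕ) : PROGBIns :=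
  if k < 8 then PROGBini k else PROGBstg W G (PROGBsg W k) (k - PROGBst W (PROGBsg W k))

private lemma PROGBins_st (W : ℕ → List (Fin 3)) (G : ℕ → ℕ → Prop) {n r : ℕ}
    (hr : r < 3 + n + (W n).length) : PROGBins W G (PROGBst W n + r) = PROGBstg W G n r := by
  unfold PROGBins
  have h1 := PROGBst_ge W n
  rw [if_neg (by omega), PROGBsg_eq W hr, Nat.add_sub_cancel_left]

private lemma PROGBstg_e (W : ℕ → List (Fin 3)) (G : ℕ → ℕ → Prop) (n r : ℕ) :
    (PROGBstg W G n r).1 = 0 ∨ (PROGBstg W G n r).1 = 1 := by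
  unfold PROGBstg PROGBblk
  split_ifs <;> simp

private lemma PROGBstg_ra (W : ℕ → List (Fin 3)) (G : ℕ → ℕ → Prop) (n r j d : ℕ)
    (h : (PROGBstg W G n r).2.1 = some (j, d)) : j < PROGBst W n + r := by
  have h8 := PROGBst_ge W n
  unfold PROGBstg at h
  by_cases h0 : r = 0
  · rw [if_pos h0] at h
    simp only [Option.some.injEq, Prod.mk.injEq] at h
    omega
  rw [if_neg h0] at h
  by_cases h1 : r = 1
  · rw [if_pos h1] at h
    simp only [Option.some.injEq, Prod.mk.injEq] at h
    omega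
  rw [if_neg h1] at h
  by_cases h2 : r = 2
  · rw [if_pos h2] at h
    simp only [Option.some.injEq, Prod.mk.injEq] at h
    omega
  rw [if_neg h2] at h
  by_cases h3 : r < 3 + n
  · rw [if_pos h3] at h
    split_ifs at h
    simp only [Option.some.injEq, Prod.mk.injEq] at h
    omega
  rw [if_neg h3] at h
  unfold PROGBblk at h
  simp only [Option.some.injEq] at h
  split_ifs at h <;> simp only [Prod.mk.injEq] at h <;> omega

private lemma PROGBstg_rb (W : ℕ → List (Fin 3)) (G : ℕ → ℕ → Prop) (n r j d : ℕ)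
    (h : (PROGBstg W G n r).2.2 = some (j, d)) : j < PROGBst W n + r := by
  have h8 := PROGBst_ge W n
  unfold PROGBstg at h
  by_cases h0 : r = 0
  · rw [if_pos h0] at h
    simp only [Option.some.injEq, Prod.mk.injEq] at h
    omega
  rw [if_neg h0] at h
  by_cases h1 : r = 1
  · rw [if_pos h1] at h
    simp only [Option.some.injEq, Prod.mk.injEq] at h
    omega
  rw [if_neg h1] at h
  by_cases h2 : r = 2
  · rw [if_pos h2] at h
    simp only [Option.some.injEq, Prod.mk.injEq] at h
    omega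
  rw [if_neg h2] at h
  by_cases h3 : r < 3 + n
  · rw [if_pos h3] at h
    have h4 : PROGBst W (r - 3) < PROGBst W n := (PROGBst_lt W) (by omega)
    split_ifs at h
    simp only [Option.some.injEq, Prod.mk.injEq] at h
    omega
  rw [if_neg h3] at h
  unfold PROGBblk at h
  simp only [Option.some.injEq] at h
  split_ifs at h <;> simp only [Prod.mk.injEq] at h <;> omega

private lemma PROGBini_ok : ∀ k < 8, ((PROGBini k).1 = 0 ∨ (PROGBini k).1 = 1) ∧
    (∀ j d, (PROGBini k).2.1 = some (j, d) → j < k) ∧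
    (∀ j d, (PROGBini k).2.2 = some (j, d) → j < k) := by
  intro k hk
  interval_cases k <;> refine ⟨by simp [PROGBini], ?_, ?_⟩ <;> intro j d h <;>
    simp only [PROGBini, Option.some.injEq, Prod.mk.injEq, reduceCtorEq] at h <;> omega

private lemma PROGBins_lt (W : ℕ → List (Fin 3)) (G : ℕ → ℕ → Prop) {k : ℕ} (hk : k < 8) :
    PROGBins W G k = PROGBini k := if_pos hk

private lemma PROGBins_ge (W : ℕ → List (Fin 3)) (G : ℕ → ℕ → Prop) {k : ℕ} (hk : ¬ k < 8) :
    PROGBins W G k = PROGBstg W G (PROGBsg W k) (k - PROGBst W (PROGBsg W k)) := if_neg hk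

private lemma PROGBins_ok (W : ℕ → List (Fin 3)) (G : ℕ → ℕ → Prop) : PROGBok (PROGBins W G) where
  e k := by
    by_cases hk : k < 8
    · rw [PROGBins_lt W G hk]; exact (PROGBini_ok k hk).1
    · rw [PROGBins_ge W G hk]; exact PROGBstg_e W G _ _
  z := by rw [PROGBins_lt W G (by norm_num)]; rfl
  ra k j d h := by
    by_cases hk : k < 8
    · rw [PROGBins_lt W G hk] at h; exact (PROGBini_ok k hk).2.1 j d h
    · rw [PROGBins_ge W G hk] at h
      have h1 := PROGBstg_ra W G _ _ _ _ h
      have h2 := PROGBsg_spec W (show 8 ≤ k by omega)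
      omega
  rb k j d h := by
    by_cases hk : k < 8
    · rw [PROGBins_lt W G hk] at h; exact (PROGBini_ok k hk).2.2 j d h
    · rw [PROGBins_ge W G hk] at h
      have h1 := PROGBstg_rb W G _ _ _ _ h
      have h2 := PROGBsg_spec W (show 8 ≤ k by omega)
      omega

private lemma PROGB_p_pos {ins : ℕ → PROGBIns} (h : PROGBok ins) (k : ℕ) :
    1 ≤ (PROGBS ins).p k ∧ 1 ≤ (PROGBS ins).q k := by
  rcases k with _ | k
  · have h1 := PROGB_main h 0
    have hM := PROGB_M0 ins
    have ha := PROGB_a h 0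
    have hb := PROGB_b h 0
    rw [h.z] at ha hb
    have ha' : (PROGBS ins).a 0 = 0 := ha
    have hb' : (PROGBS ins).b 0 = 0 := hb
    omega
  · have hO := PROGB_Ok h
    have h1 := hO.hp (k + 1)
    have h2 := hO.hq (k + 1)
    have h3 := hO.hM k
    have h4 := hO.ha k
    have h5 := hO.hb k
    omega

theorem exists_prog (W : ℕ → List (Fin 3)) :
    ∃ (st : ℕ → ℕ) (S : (ℕ → ℕ → Prop) → Steps), (∀ G, (S G).Ok ∧ Spec (S G) st W G) ∧
      ∀ G G' k, (∀ i n, i < n → n ≤ k → (G i n ↔ G' i n)) →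
        (S G).ε k = (S G').ε k ∧ (S G).p k = (S G').p k ∧ (S G).q k = (S G').q k ∧
          (S G).M k = (S G').M k := by
  refine ⟨PROGBst W, fun G => PROGBS (PROGBins W G), ?_, ?_⟩
  · intro G
    have hk := PROGBins_ok W G
    have ea := PROGB_a hk
    have eb := PROGB_b hk
    have hpq := PROGB_p_pos hk
    refine ⟨PROGB_Ok hk, ?_⟩
    show Spec (PROGBS (PROGBins W G)) (PROGBst W) W G
    have ee : ∀ k, (PROGBS (PROGBins W G)).ε k = (PROGBins W G k).1 := fun _ => rfl
    -- the first eight steps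
    have i1 : PROGBins W G 1 = (1, some (0, 0), none) := PROGBins_lt W G (k := 1) (by norm_num)
    have i2 : PROGBins W G 2 = (1, none, some (0, 0)) := PROGBins_lt W G (k := 2) (by norm_num)
    have i3 : PROGBins W G 3 = (1, some (1, 1), none) := PROGBins_lt W G (k := 3) (by norm_num)
    have i4 : PROGBins W G 4 = (0, some (3, 0), some (2, 0)) := PROGBins_lt W G (k := 4) (by norm_num)
    have i5 : PROGBins W G 5 = (0, none, some (1, 0)) := PROGBins_lt W G (k := 5) (by norm_num)
    have i6 : PROGBins W G 6 = (0, some (2, 0), none) := PROGBins_lt W G (k := 6) (by norm_num)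
    have i7 : PROGBins W G 7 = (1, some (2, 0), some (1, 1)) := PROGBins_lt W G (k := 7) (by norm_num)
    -- the stages
    have jr : ∀ n, PROGBins W G (PROGBst W n) = (1, some (0, 0), some (0, 0)) := by
      intro n
      have := PROGBins_st W G (n := n) (r := 0) (by omega)
      rw [Nat.add_zero] at this
      rw [this]; rfl
    have js : ∀ n, PROGBins W G (PROGBst W n + 1) = (1, some (PROGBst W n, 0), some (1, 0)) := by
      intro n
      rw [PROGBins_st W G (by omega)]; rfl
    have jg : ∀ n, PROGBins W G (PROGBst W n + 2) =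
        (1, some (PROGBst W n + 1, 0), some (7, 0)) := by
      intro n
      rw [PROGBins_st W G (by omega)]; rfl
    have jc : ∀ n i, i < n → G i n → PROGBins W G (PROGBst W n + 3 + i) = (1, none, none) := by
      intro n i hi hG
      rw [Nat.add_assoc, PROGBins_st W G (by omega)]
      unfold PROGBstg
      rw [if_neg (by omega), if_neg (by omega), if_neg (by omega), if_pos (by omega),
        if_pos (by rw [show 3 + i - 3 = i by omega]; exact hG)]
    have jd : ∀ n i, i < n → ¬ G i n → PROGBins W G (PROGBst W n + 3 + i) =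
        (0, some (PROGBst W n + 2, 1), some (PROGBst W i, 0)) := by
      intro n i hi hG
      rw [Nat.add_assoc, PROGBins_st W G (by omega)]
      unfold PROGBstg
      rw [if_neg (by omega), if_neg (by omega), if_neg (by omega), if_pos (by omega),
        if_neg (by rw [show 3 + i - 3 = i by omega]; exact hG), show 3 + i - 3 = i by omega]
    have jb : ∀ n i, i < (W n).length → PROGBins W G (PROGBst W n + 3 + n + i) =
        PROGBblk W n i := by
      intro n i hi
      rw [show PROGBst W n + 3 + n + i = PROGBst W n + (3 + n + i) by omega,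
        PROGBins_st W G (by omega)]
      unfold PROGBstg
      rw [if_neg (by omega), if_neg (by omega), if_neg (by omega), if_neg (by omega),
        show 3 + n + i - 3 - n = i by omega]
    have r0 : ∀ (f : ℕ → ℕ) (j : ℕ), PROGBev f (some (j, 0)) = f j := fun f j => Nat.sub_zero _
    have r1 : ∀ (f : ℕ → ℕ) (j : ℕ), PROGBev f (some (j, 1)) = f j - 1 := fun f j => rfl
    have rn : ∀ (f : ℕ → ℕ), PROGBev f none = 0 := fun f => rfl
    constructor
    · rfl
    · intro n; rfl
    · rw [ee, ea, eb, i1]; exact ⟨rfl, r0 _ _, rn _⟩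
    · rw [ee, ea, eb, i2]; exact ⟨rfl, rn _, r0 _ _⟩
    · rw [ee, ea, eb, i3]
      have := (hpq 1).1
      refine ⟨rfl, ?_, rn _⟩
      simp only []
      rw [r1]
      omega
    · rw [ee, ea, eb, i4]; exact ⟨rfl, r0 _ _, r0 _ _⟩
    · rw [ee, ea, eb, i5]; exact ⟨rfl, rn _, r0 _ _⟩
    · rw [ee, ea, eb, i6]; exact ⟨rfl, r0 _ _, rn _⟩
    · rw [ee, ea, eb, i7]
      have := (hpq 1).2
      refine ⟨rfl, r0 _ _, ?_⟩
      simp only []
      rw [r1]
      omega
    · intro n
      rw [ee, ea, eb, jr]; exact ⟨rfl, r0 _ _, r0 _ _⟩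
    · intro n
      rw [ee, ea, eb, js]; exact ⟨rfl, r0 _ _, r0 _ _⟩
    · intro n
      rw [ee, ea, eb, jg]; exact ⟨rfl, r0 _ _, r0 _ _⟩
    · intro n i hi hG
      rw [ee, ea, eb, jc n i hi hG]; exact ⟨rfl, rn _, rn _⟩
    · intro n i hi hG
      rw [ee, ea, eb, jd n i hi hG]
      have := (hpq (PROGBst W n + 2)).1
      refine ⟨rfl, ?_, r0 _ _⟩
      simp only []
      rw [r1]
      omega
    · intro n i hi
      rw [ee, jb n i hi]; rfl
    · intro n hn
      have := jb n 0 hn
      rw [Nat.add_zero] at this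
      rw [ea, this]
      unfold PROGBblk
      simp only [if_true]
      split_ifs <;> rw [r0]
    · intro n i hi
      rw [ea, show PROGBst W n + 3 + n + i + 1 = PROGBst W n + 3 + n + (i + 1) by omega,
        jb n (i + 1) hi]
      unfold PROGBblk
      have := (hpq (PROGBst W n + 3 + n + i)).1
      simp only [if_neg (Nat.succ_ne_zero i), Nat.add_sub_cancel]
      rw [r1]
      omega
    · intro n i hi h1 h2
      rw [eb, jb n i hi]
      unfold PROGBblk
      simp only [if_pos h1, if_pos h2]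
      have := (hpq 1).2
      rw [r1]
      omega
    · intro n i hi h1 h2
      rw [eb, jb n i hi]
      unfold PROGBblk
      simp only [if_pos h1, if_neg h2]
      rw [r0]
    · intro n i hi h1 h2
      rw [eb, jb n i hi]
      unfold PROGBblk
      simp only [if_neg h1, if_pos h2]
      rw [r0]
    · intro n i hi h1 h2
      rw [eb, jb n i hi]
      unfold PROGBblk
      simp only [if_neg h1, if_neg h2]
      rw [r0]
  · intro G G' k hG
    have key : ∀ j ≤ k, PROGBins W G j = PROGBins W G' j := by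
      intro j hj
      by_cases h8 : j < 8
      · rw [PROGBins_lt W G h8, PROGBins_lt W G' h8]
      · rw [PROGBins_ge W G h8, PROGBins_ge W G' h8]
        have h1 := (PROGBsg_spec W (show 8 ≤ j by omega)).1
        have h2 := PROGBst_ge W (PROGBsg W j)
        unfold PROGBstg
        by_cases h3 : j - PROGBst W (PROGBsg W j) < 3 + PROGBsg W j
        · by_cases h4 : j - PROGBst W (PROGBsg W j) ≤ 2
          · split_ifs <;> first | rfl | omega
          · have h5 := hG (j - PROGBst W (PROGBsg W j) - 3) (PROGBsg W j) (by omega) (by omega)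
            have c0 : ¬ (j - PROGBst W (PROGBsg W j) = 0) := by omega
            have c1 : ¬ (j - PROGBst W (PROGBsg W j) = 1) := by omega
            have c2 : ¬ (j - PROGBst W (PROGBsg W j) = 2) := by omega
            rw [if_neg c0, if_neg c1, if_neg c2, if_pos h3, if_neg c0, if_neg c1, if_neg c2,
              if_pos h3]
            by_cases h6 : G (j - PROGBst W (PROGBsg W j) - 3) (PROGBsg W j)
            · rw [if_pos h6, if_pos (h5.1 h6)]
            · rw [if_neg h6, if_neg (fun h7 => h6 (h5.2 h7))]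
        · rw [if_neg h3, if_neg h3]
    have hv := PROGBV_congr key
    refine ⟨?_, ?_, ?_, ?_⟩
    · show (PROGBins W G k).1 = (PROGBins W G' k).1
      rw [key k le_rfl]
    · show (PROGBV (PROGBins W G) k).2.2.1 = (PROGBV (PROGBins W G') k).2.2.1
      rw [hv]
    · show (PROGBV (PROGBins W G) k).2.2.2.1 = (PROGBV (PROGBins W G') k).2.2.2.1
      rw [hv]
    · show (PROGBV (PROGBins W G) k).2.2.2.2 = (PROGBV (PROGBins W G') k).2.2.2.2
      rw [hv]

end PROGB

end Pool.Agent.Helper79.CF
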