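import Pool.Agent.Helper79.CF.Defs

/-!
Slopes of the complexity functions (module SLOPE of MP_7c7486_co).
-/

namespace Pool.Agent.Helper79.CF

open Filter Topology MeasureTheory

theorem SLOPE_le (D : Data) (n : ℕ) : slope D n ≤ 3 := by
  unfold slope
  split_ifs <;> omega

theorem SLOPE_ge (D : Data) (n : ℕ) : 1 ≤ slope D n := by
  unfold slope
  split_ifs <;> omega

theorem gfun_le (D : Data) (n : ℕ) : gfun D n ≤ 3 * n := by
  unfold gfun
  induction n with
  | zero => simp
  | succ n ih =>
    rw [Finset.sum_range_succ]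
    have := SLOPE_le D n
    omega

theorem le_gfun (D : Data) (n : ℕ) : n ≤ gfun D n := by
  unfold gfun
  induction n with
  | zero => simp
  | succ n ih =>
    rw [Finset.sum_range_succ]
    have := SLOPE_ge D n
    omega

theorem gfun_one (D : Data) : gfun D 1 = 1 := by
  unfold gfun
  rw [Finset.sum_range_one]
  unfold slope
  rw [if_neg, if_neg]
  · rintro ⟨j, h, -⟩; omega
  · rintro ⟨j, h, -⟩; omega

theorem SLOPE_m_le {D : Data} (hD : D.Good) (j : ℕ) : D.m j ≤ D.p j + D.Q j + 1 := by
  cases j with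
  | zero => rw [hD.m0]; omega
  | succ j => have := hD.mp j; omega

theorem SLOPE_lo_mono {D : Data} (hD : D.Good) (i j : ℕ) :
    D.p i + D.Q i + 2 ≤ D.p (i + 1 + j) ∧ D.p i + D.Q i + 2 ≤ D.q (i + 1 + j) := by
  induction j with
  | zero => exact ⟨hD.growp i, hD.growq i⟩
  | succ j ih =>
    have h1 := hD.growp (i + 1 + j)
    have h2 := hD.growq (i + 1 + j)
    have e : i + 1 + (j + 1) = i + 1 + j + 1 := by omega
    rw [e]
    omega

theorem SLOPE_lt {D : Data} (hD : D.Good) {i j : ℕ} (h : i < j) :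
    D.p i + D.Q i + 2 ≤ D.p j ∧ D.p i + D.Q i + 2 ≤ D.q j := by
  obtain ⟨d, rfl⟩ : ∃ d, j = i + 1 + d := ⟨j - (i + 1), by omega⟩
  exact SLOPE_lo_mono hD i d

theorem SLOPE_idx {D : Data} (hD : D.Good) (j : ℕ) : j < D.p j ∧ j < D.q j := by
  induction j with
  | zero =>
    have h1 := hD.p0
    have h2 := hD.q0
    omega
  | succ j ih =>
    have h1 := hD.growp j
    have h2 := hD.growq j
    omega

theorem ffun_local (k : ℕ) {D D' : Data} (h : D.Good) (h' : D'.Good) (n : ℕ)
    (he : ∀ j < n, D.p j = D'.p j ∧ D.q j = D'.q j ∧ D.m j = D'.m j) :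
    ffun k D n = ffun k D' n := by
  unfold ffun gfun
  congr 1
  apply Finset.sum_congr rfl
  intro i hi
  rw [Finset.mem_range] at hi
  have hQ : ∀ j < n, D.Q j = D'.Q j := by
    intro j hj
    cases j with
    | zero => rfl
    | succ j => exact (he j (by omega)).2.1
  unfold slope
  have e1 : (∃ j, D.p j < i ∧ i ≤ D.p j + D.Q j + 1) ↔
      ∃ j, D'.p j < i ∧ i ≤ D'.p j + D'.Q j + 1 := by
    constructor
    · rintro ⟨j, h1, h2⟩
      have h3 := (SLOPE_idx h j).1
      have h4 := he j (by omega)
      have h5 := hQ j (by omega)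
      exact ⟨j, by omega, by omega⟩
    · rintro ⟨j, h1, h2⟩
      have h3 := (SLOPE_idx h' j).1
      have h4 := he j (by omega)
      have h5 := hQ j (by omega)
      exact ⟨j, by omega, by omega⟩
  have e2 : (∃ j, D.q j < i ∧ i ≤ D.m j) ↔ ∃ j, D'.q j < i ∧ i ≤ D'.m j := by
    constructor
    · rintro ⟨j, h1, h2⟩
      have h3 := (SLOPE_idx h j).2
      have h4 := he j (by omega)
      exact ⟨j, by omega, by omega⟩
    · rintro ⟨j, h1, h2⟩
      have h3 := (SLOPE_idx h' j).2
      have h4 := he j (by omega)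
      exact ⟨j, by omega, by omega⟩
  rw [propext e1, propext e2]

theorem slope_one_of_le {D : Data} (hD : D.Good) {n : ℕ} (hn : n ≤ D.p 0) : slope D n = 1 := by
  have h0 := hD.q0
  unfold slope
  rw [if_neg, if_neg]
  · rintro ⟨j, h, -⟩
    rcases Nat.eq_zero_or_pos j with rfl | hj
    · omega
    · have := SLOPE_lt hD hj
      omega
  · rintro ⟨j, h, -⟩
    rcases Nat.eq_zero_or_pos j with rfl | hj
    · omega
    · have := SLOPE_lt hD hj
      omega

/-- On the range of the event `j` only this event counts. -/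
theorem SLOPE_at {D : Data} (hD : D.Good) {j n : ℕ} (h1 : min (D.p j) (D.q j) ≤ n)
    (h2 : n ≤ D.p j + D.Q j + 2) :
    slope D n = 1 + (if D.p j < n ∧ n ≤ D.p j + D.Q j + 1 then 1 else 0)
        + (if D.q j < n ∧ n ≤ D.m j then 1 else 0) := by
  unfold slope
  have key : ∀ i, i ≠ j → ¬ (D.p i < n ∧ n ≤ D.p i + D.Q i + 1) ∧ ¬ (D.q i < n ∧ n ≤ D.m i) := by
    intro i hij
    have hm := SLOPE_m_le hD i
    rcases Nat.lt_or_gt_of_ne hij with h | h
    · have := SLOPE_lt hD h
      omega
    · have := SLOPE_lt hD h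
      omega
  have e1 : (∃ i, D.p i < n ∧ n ≤ D.p i + D.Q i + 1) ↔ (D.p j < n ∧ n ≤ D.p j + D.Q j + 1) := by
    constructor
    · rintro ⟨i, hi⟩
      by_cases hij : i = j
      · rwa [hij] at hi
      · exact absurd hi (key i hij).1
    · intro h; exact ⟨j, h⟩
  have e2 : (∃ i, D.q i < n ∧ n ≤ D.m i) ↔ (D.q j < n ∧ n ≤ D.m j) := by
    constructor
    · rintro ⟨i, hi⟩
      by_cases hij : i = j
      · rwa [hij] at hi
      · exact absurd hi (key i hij).2
    · intro h; exact ⟨j, h⟩
  simp only [e1, e2]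

theorem slope_one {D : Data} (hD : D.Good) {j n : ℕ} (h1 : D.p j + D.Q j + 2 ≤ n)
    (h2 : n ≤ D.p (j + 1)) (h3 : n ≤ D.q (j + 1)) : slope D n = 1 := by
  unfold slope
  have key : ∀ i, ¬ (D.p i < n ∧ n ≤ D.p i + D.Q i + 1) ∧ ¬ (D.q i < n ∧ n ≤ D.m i) := by
    intro i
    have hm := SLOPE_m_le hD i
    rcases Nat.lt_trichotomy i j with h | h | h
    · have := SLOPE_lt hD h
      omega
    · subst h; omega
    · rcases Nat.lt_or_ge (j + 1) i with h' | h'
      · have := SLOPE_lt hD h'
        omega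
      · have : i = j + 1 := by omega
        subst this
        omega
  rw [if_neg, if_neg]
  · rintro ⟨i, hi⟩; exact (key i).2 hi
  · rintro ⟨i, hi⟩; exact (key i).1 hi

theorem slope_three {D : Data} (hD : D.Good) : slope D (D.p 0 + 1) = 3 := by
  have h0 := hD.q0
  have h1 := hD.m0
  unfold slope
  rw [if_pos, if_pos]
  · exact ⟨0, by omega, by omega⟩
  · exact ⟨0, by omega, by omega⟩

theorem SLOPE_arith {p q m Q p' q' m' : ℕ}
    (hc : (Q = 0 ∧ q = p ∧ m = p + 1) ∨ (p < m ∧ q < m ∧ q ≤ p + Q ∧ m ≤ p + Q ∧ m ≤ q + Q))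
    (hp : min p q ≤ p') (hq : min p q ≤ q')
    (h : ∀ n, min p q ≤ n → n ≤ p + Q + 2 →
      (1 + (if p < n ∧ n ≤ p + Q + 1 then 1 else 0) + (if q < n ∧ n ≤ m then 1 else 0) : ℕ) =
      1 + (if p' < n ∧ n ≤ p' + Q + 1 then 1 else 0) + (if q' < n ∧ n ≤ m' then 1 else 0)) :
    p' = p ∧ q' = q ∧ m' = m := by
  rcases Nat.lt_trichotomy p q with hpq | hpq | hpq
  · have hmin : min p q = p := by omega
    rw [hmin] at hp hq h
    rcases hc with hc | hc
    · omega
    have hs := h (p + 1) (by omega) (by omega)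
    have hq1 := h (q + 1) (by omega) (by omega)
    have hq0 := h q (by omega) (by omega)
    have hend := h (p + Q + 2) (by omega) (by omega)
    have hm0 := h m (by omega) (by omega)
    have hm1 := h (m + 1) (by omega) (by omega)
    by_cases hpp : p' = p
    · subst hpp
      have hq2 : q' = q := by
        clear hend hm0 hm1 hs
        split_ifs at hq0 hq1 <;> omega
      subst hq2
      have h4c : q' + 1 ≤ m' := by
        clear hs hq0 hend hm0 hm1
        split_ifs at hq1 <;> omega
      have h4a : m ≤ m' := by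
        clear hs hq0 hq1 hend hm1
        split_ifs at hm0 <;> omega
      have h4b : m' ≤ m := by
        clear hs hq0 hq1 hend hm0
        split_ifs at hm1 <;> omega
      omega
    · exfalso
      have h1 : q' = p ∧ p + 1 ≤ m' := by
        clear hend hm0 hm1 hq0 hq1
        split_ifs at hs <;> omega
      obtain ⟨rfl, h2⟩ := h1
      have h3 : p' = q := by
        clear hend hm0 hm1 hs
        split_ifs at hq0 hq1 <;> omega
      subst h3
      clear hs hq0 hq1 hm0 hm1
      split_ifs at hend <;> omega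
  · subst hpq
    have hmin : min p p = p := by omega
    rw [hmin] at hp hq h
    have hs := h (p + 1) (by omega) (by omega)
    have h1 : p' = p ∧ q' = p := by
      rcases hc with hc | hc
      · split_ifs at hs <;> omega
      · split_ifs at hs <;> omega
    obtain ⟨rfl, rfl⟩ := h1
    have hm0 := h m (by omega) (by omega)
    have hm1 := h (m + 1) (by omega) (by omega)
    rcases hc with hc | hc
    · split_ifs at hm0 hm1 <;> omega
    · split_ifs at hm0 hm1 <;> omega
  · have hmin : min p q = q := by omega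
    rw [hmin] at hp hq h
    rcases hc with hc | hc
    · omega
    have hs := h (q + 1) (by omega) (by omega)
    have hp1 := h (p + 1) (by omega) (by omega)
    have hp0 := h p (by omega) (by omega)
    have hm0 := h m (by omega) (by omega)
    have hm1 := h (m + 1) (by omega) (by omega)
    by_cases hpp : p' = q
    · exfalso
      subst hpp
      have h3 : q' = p := by
        clear hm0 hm1 hs
        split_ifs at hp0 hp1 <;> omega
      subst h3
      have h4a : m ≤ m' := by
        clear hs hp0 hp1 hm1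
        split_ifs at hm0 <;> omega
      have h4b : m' ≤ m := by
        clear hs hp0 hp1 hm0
        split_ifs at hm1 <;> omega
      have h4 : m' = m := by omega
      subst h4
      have h5 := h (p' + Q + 2) (by omega) (by omega)
      clear hs hp0 hp1 hm0 hm1
      split_ifs at h5 <;> omega
    · have h1 : q' = q ∧ q + 1 ≤ m' := by
        clear hm0 hm1 hp0 hp1
        split_ifs at hs <;> omega
      obtain ⟨rfl, h2⟩ := h1
      have h3 : p' = p := by
        clear hm0 hm1 hs
        split_ifs at hp0 hp1 <;> omega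
      subst h3
      have h4a : m ≤ m' := by
        clear hs hp0 hp1 hm1
        split_ifs at hm0 <;> omega
      have h4b : m' ≤ m := by
        clear hs hp0 hp1 hm0
        split_ifs at hm1 <;> omega
      omega

theorem solve {D : Data} (hD : D.Good) (j p' q' m' : ℕ) (hp : min (D.p j) (D.q j) ≤ p')
    (hq : min (D.p j) (D.q j) ≤ q')
    (h : ∀ n, min (D.p j) (D.q j) ≤ n → n ≤ D.p j + D.Q j + 2 →
      slope D n = 1 + (if p' < n ∧ n ≤ p' + D.Q j + 1 then 1 else 0)
        + (if q' < n ∧ n ≤ m' then 1 else 0)) :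
    p' = D.p j ∧ q' = D.q j ∧ m' = D.m j := by
  apply SLOPE_arith (Q := D.Q j) ?_ hp hq
  · intro n h1 h2
    rw [← h n h1 h2, SLOPE_at hD h1 h2]
  · cases j with
    | zero => exact Or.inl ⟨rfl, hD.q0, hD.m0⟩
    | succ j =>
      right
      exact ⟨hD.pm _, hD.qm _, hD.reach _, hD.mp j, hD.mq j⟩

end Pool.Agent.Helper79.CF
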