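import Pool.Agent.Helper79.CF.Defs

/-! Module SOLVE: the slope determines the data of an event. -/

namespace Pool.Agent.Helper79.CF

theorem solve_end {D : Data} (hD : D.Good) (j : ℕ) : D.m j ≤ D.p j + D.Q j + 1 := by
  cases j with
  | zero =>
    have := hD.m0
    simp only [Data.Q]
    omega
  | succ j =>
    have := hD.mp j
    omega

theorem solve_mono {D : Data} (hD : D.Good) (j i : ℕ) :
    D.p j + D.Q j + 2 ≤ D.p (j + 1 + i) ∧ D.p j + D.Q j + 2 ≤ D.q (j + 1 + i) := by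
  induction i with
  | zero => exact ⟨hD.growp j, hD.growq j⟩
  | succ i ih =>
    have h1 := hD.growp (j + 1 + i)
    have h2 := hD.growq (j + 1 + i)
    have h3 := hD.reach (j + 1 + i)
    rw [show j + 1 + (i + 1) = j + 1 + i + 1 by omega]
    omega

theorem solve_slope {D : Data} (hD : D.Good) (j n : ℕ) (h1 : min (D.p j) (D.q j) ≤ n)
    (h2 : n ≤ D.p j + D.Q j + 2) :
    slope D n = 1 + (if D.p j < n ∧ n ≤ D.p j + D.Q j + 1 then 1 else 0)
        + (if D.q j < n ∧ n ≤ D.m j then 1 else 0) := by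
  have key : ∀ i, i ≠ j → ¬ (D.p i < n ∧ n ≤ D.p i + D.Q i + 1) ∧ ¬ (D.q i < n ∧ n ≤ D.m i) := by
    intro i hij
    have he := solve_end hD i
    rcases Nat.lt_or_gt_of_ne hij with h | h
    · obtain ⟨r, rfl⟩ := Nat.exists_eq_add_of_le (show i + 1 ≤ j from h)
      have := solve_mono hD i r
      omega
    · obtain ⟨r, rfl⟩ := Nat.exists_eq_add_of_le (show j + 1 ≤ i from h)
      have := solve_mono hD j r
      omega
  have e1 : (∃ i, D.p i < n ∧ n ≤ D.p i + D.Q i + 1) ↔ (D.p j < n ∧ n ≤ D.p j + D.Q j + 1) := by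
    constructor
    · rintro ⟨i, hi⟩
      by_cases hij : i = j
      · exact hij ▸ hi
      · exact absurd hi (key i hij).1
    · exact fun h => ⟨j, h⟩
  have e2 : (∃ i, D.q i < n ∧ n ≤ D.m i) ↔ (D.q j < n ∧ n ≤ D.m j) := by
    constructor
    · rintro ⟨i, hi⟩
      by_cases hij : i = j
      · exact hij ▸ hi
      · exact absurd hi (key i hij).2
    · exact fun h => ⟨j, h⟩
  unfold slope
  simp only [e1, e2]

theorem solve {D : Data} (hD : D.Good) (j p' q' m' : ℕ) (hp : min (D.p j) (D.q j) ≤ p')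
    (hq : min (D.p j) (D.q j) ≤ q')
    (h : ∀ n, min (D.p j) (D.q j) ≤ n → n ≤ D.p j + D.Q j + 2 →
      slope D n = 1 + (if p' < n ∧ n ≤ p' + D.Q j + 1 then 1 else 0)
        + (if q' < n ∧ n ≤ m' then 1 else 0)) :
    p' = D.p j ∧ q' = D.q j ∧ m' = D.m j := by
  have key : ∀ n, min (D.p j) (D.q j) ≤ n → n ≤ D.p j + D.Q j + 2 →
      (((D.p j < n ∧ n ≤ D.p j + D.Q j + 1) ∧ (D.q j < n ∧ n ≤ D.m j)) ↔
        ((p' < n ∧ n ≤ p' + D.Q j + 1) ∧ (q' < n ∧ n ≤ m'))) ∧
      (((D.p j < n ∧ n ≤ D.p j + D.Q j + 1) ∨ (D.q j < n ∧ n ≤ D.m j)) ↔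
        ((p' < n ∧ n ≤ p' + D.Q j + 1) ∨ (q' < n ∧ n ≤ m'))) := by
    intro n h1 h2
    have h3 := (solve_slope hD j n h1 h2).symm.trans (h n h1 h2)
    by_cases a : (D.p j < n ∧ n ≤ D.p j + D.Q j + 1) <;>
    by_cases b : (D.q j < n ∧ n ≤ D.m j) <;>
    by_cases c : (p' < n ∧ n ≤ p' + D.Q j + 1) <;>
    by_cases d : (q' < n ∧ n ≤ m') <;>
    simp [a, b, c, d] at h3 ⊢
  clear h
  have hpm := hD.pm j
  have hqm := hD.qm j
  have hre := hD.reach j
  have hend := solve_end hD j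
  have hsp := hD.shortp j
  have hcase : (D.p j = D.q j ∧ D.m j = D.p j + 1 ∧ D.Q j = 0) ∨
      (D.m j ≤ D.p j + D.Q j ∧ D.m j ≤ D.q j + D.Q j) := by
    cases j with
    | zero =>
      left
      have h0 := hD.q0
      have h1 := hD.m0
      exact ⟨h0.symm, h1, rfl⟩
    | succ j =>
      right
      exact ⟨hD.mp j, hD.mq j⟩
  generalize D.p j = P at *
  generalize D.q j = q at *
  generalize D.m j = m at *
  generalize D.Q j = Q at *
  rcases hcase with ⟨c1, c2, c3⟩ | ⟨c1, c2⟩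
  · have k1 := key (P + 1) (by omega) (by omega)
    have k2 := key (P + 2) (by omega) (by omega)
    omega
  · have k1 := key (min P q + 1) (by omega) (by omega)
    have k2 := key (max P q) (by omega) (by omega)
    have k3 := key (max P q + 1) (by omega) (by omega)
    have h4 : (p' = P ∧ q' = q) ∨ (p' = q ∧ q' = P ∧ P ≠ q) := by
      omega
    rcases h4 with ⟨rfl, rfl⟩ | ⟨rfl, rfl, h5⟩
    · have k4 := key m (by omega) (by omega)
      have k5 := key (m + 1) (by omega) (by omega)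
      omega
    · exfalso
      have k6 := key (q' + Q + 2) (by omega) (by omega)
      have k7 := key (q' + Q + 1) (by omega) (by omega)
      rcases Nat.lt_or_gt_of_ne h5 with h6 | h6
      · omega
      · have k8 := key (p' + Q + 1) (by omega) (by omega)
        omega

end Pool.Agent.Helper79.CF
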